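import Pool.Agent.R755.Tr.Phi
import Pool.Agent.H48R3.CP.Limit

/-!
# Definitions: the cube profile is not eventually constant in the dimension
-/

set_option autoImplicit false

namespace Pool.Agent.H62

open MeasureTheory Set
open Pool.Agent.R755.Tr (Ph Ps)
open Pool.Agent.H460BZ (φ)
open Pool.Agent.H48R3.CP (D U)

/-- The Gaussian isoperimetric profile `φ ∘ Φ⁻¹`, extended by zero outside `(0,1)`. -/
noncomputable def Iso (v : ℝ) : ℝ := if 0 < v ∧ v < 1 then φ (Ps v) else 0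

/-- admissible fields in the open cube -/
def Adm {d : ℕ} (ξ : (Fin d → ℝ) → (Fin d → ℝ)) : Prop :=
  ContDiff ℝ 1 ξ ∧ HasCompactSupport ξ ∧ tsupport ξ ⊆ U d ∧ ∀ x, ∑ i, (ξ x i) ^ 2 ≤ 1

/-- divergence -/
noncomputable def dv {d : ℕ} (ξ : (Fin d → ℝ) → (Fin d → ℝ)) (x : Fin d → ℝ) : ℝ :=
  ∑ i, fderiv ℝ ξ x (Pi.single i 1) i

/-- `PB E C`: the perimeter of `E` in the open cube is at most `C`. -/
def PB {d : ℕ} (E : Set (Fin d → ℝ)) (C : ℝ) : Prop :=
  ∀ ξ : (Fin d → ℝ) → (Fin d → ℝ), Adm ξ → ∫ x in E, dv ξ x ≤ C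

/-- `Ach d v C`: some measurable subset of the open `d`-cube has volume `v` and
perimeter at most `C`. -/
def Ach (d : ℕ) (v C : ℝ) : Prop :=
  ∃ E : Set (Fin d → ℝ), MeasurableSet E ∧ E ⊆ U d ∧ volume E = ENNReal.ofReal v ∧ PB E C

/-- reflection in the coordinate `i` -/
def rf {d : ℕ} (i : Fin d) (x : Fin d → ℝ) : Fin d → ℝ := Function.update x i (-(x i))

/-- even in every coordinate -/
def Ev {d : ℕ} (f : (Fin d → ℝ) → ℝ) : Prop := ∀ i x, f (rf i x) = f x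

/-- 2-periodic in every coordinate -/
def Pe {d : ℕ} (f : (Fin d → ℝ) → ℝ) : Prop := ∀ i x, f (x + Pi.single i 2) = f x

/-- normalised Lebesgue measure of `(-1,1]` -/
noncomputable def nu : Measure ℝ := (2 : ENNReal)⁻¹ • volume.restrict (Ioc (-1) 1)

/-- normalised Lebesgue measure of `(-1,1]^d` -/
noncomputable def mu (d : ℕ) : Measure (Fin d → ℝ) := Measure.pi (fun _ => nu)

/-- average over a period -/
noncomputable def av {d : ℕ} (g : (Fin d → ℝ) → ℝ) : ℝ := ∫ x, g x ∂(mu d)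

/-- the integrand of the functional -/
noncomputable def wf {d : ℕ} (f : (Fin d → ℝ) → ℝ) (x : Fin d → ℝ) : ℝ :=
  √(Real.pi ^ 2 * Iso (f x) ^ 2 + ∑ i, D f i x ^ 2)

/-- the functional `∫ √(π² I(f)² + |∇f|²)` over a period -/
noncomputable def Fn {d : ℕ} (f : (Fin d → ℝ) → ℝ) : ℝ := av (wf f)

end Pool.Agent.H62
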