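import Pool.Agent.Helper62K1.Op

/-!
# Averages over a period
-/

set_option autoImplicit false

namespace Pool.Agent.H62

open MeasureTheory Set Filter Topology
open Pool.Agent.H48R3.CP (D continuous_D)
open scoped ContDiff

variable {d : ℕ}

instance : IsProbabilityMeasure nu := by
  constructor
  unfold nu
  rw [Measure.smul_apply, Measure.restrict_apply MeasurableSet.univ, univ_inter, Real.volume_Ioc,
    smul_eq_mul]
  norm_num
  exact ENNReal.inv_mul_cancel (by norm_num) (by norm_num)

instance : IsProbabilityMeasure (mu d) := by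
  unfold mu; infer_instance

theorem integral_nu (f : ℝ → ℝ) : ∫ t, f t ∂nu = (1 / 2) * ∫ t in (-1:ℝ)..1, f t := by
  unfold nu
  rw [integral_smul_measure, intervalIntegral.integral_of_le (by norm_num)]
  simp

theorem ae_nu : ∀ᵐ t ∂nu, t ∈ Ioc (-1:ℝ) 1 := by
  unfold nu
  apply Measure.ae_smul_measure
  exact ae_restrict_mem measurableSet_Ioc

theorem ae_mu : ∀ᵐ x ∂(mu d), x ∈ Icc (fun _ : Fin d => (-1:ℝ)) (fun _ => 1) := by
  have h1 : ∀ i : Fin d, ∀ᵐ x ∂(mu d), x i ∈ Ioc (-1:ℝ) 1 := by
    intro i
    have h2 := (measurePreserving_eval (fun _ : Fin d => nu) i)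
    exact h2.quasiMeasurePreserving.ae ae_nu
  rw [← ae_all_iff] at h1
  filter_upwards [h1] with x hx
  exact ⟨fun i => (hx i).1.le, fun i => (hx i).2⟩

theorem int_mu {g : (Fin d → ℝ) → ℝ} (hg : Continuous g) : Integrable g (mu d) := by
  have hc : IsCompact (Icc (fun _ : Fin d => (-1:ℝ)) (fun _ => 1)) := isCompact_Icc
  obtain ⟨C, hC⟩ := hc.exists_bound_of_continuousOn hg.continuousOn
  apply Integrable.of_bound hg.aestronglyMeasurable C
  filter_upwards [ae_mu] with x hx
  exact hC x hx

theorem mp_update (i : Fin d) :
    MeasurePreserving (fun p : (Fin d → ℝ) × ℝ => Function.update p.1 i p.2)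
      ((mu d).prod nu) (mu d) := by
  have hm : Measurable (fun p : (Fin d → ℝ) × ℝ => Function.update p.1 i p.2) := by
    rw [measurable_pi_iff]
    intro j
    by_cases hj : j = i
    · subst hj
      simpa using measurable_snd
    · simp only [Function.update_of_ne hj]
      exact (measurable_pi_apply j).comp measurable_fst
  refine ⟨hm, ?_⟩
  symm
  unfold mu
  apply Measure.pi_eq
  intro s hs
  rw [Measure.map_apply hm (MeasurableSet.univ_pi hs)]
  have hpre : (fun p : (Fin d → ℝ) × ℝ => Function.update p.1 i p.2) ⁻¹' (univ.pi s) =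
      (univ.pi (Function.update s i univ)) ×ˢ (s i) := by
    ext ⟨x, t⟩
    simp only [mem_preimage, Set.mem_pi, mem_univ, true_implies, mem_prod]
    constructor
    · intro h
      refine ⟨fun j => ?_, by simpa using h i⟩
      by_cases hj : j = i
      · subst hj; simp
      · have := h j
        rw [Function.update_of_ne hj] at this ⊢
        exact this
    · rintro ⟨h1, h2⟩ j
      by_cases hj : j = i
      · subst hj; simpa using h2
      · have := h1 j
        rw [Function.update_of_ne hj] at this ⊢
        exact this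
  rw [hpre, Measure.prod_prod, Measure.pi_pi]
  rw [← Finset.mul_prod_erase Finset.univ (fun j => nu (s j)) (Finset.mem_univ i),
    ← Finset.mul_prod_erase Finset.univ (fun j => nu (Function.update s i univ j))
      (Finset.mem_univ i)]
  have h3 : ∏ j ∈ Finset.univ.erase i, nu (Function.update s i univ j) =
      ∏ j ∈ Finset.univ.erase i, nu (s j) := by
    apply Finset.prod_congr rfl
    intro j hj
    rw [Function.update_of_ne (Finset.ne_of_mem_erase hj)]
  rw [h3]
  simp only [Function.update_self, measure_univ, one_mul]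
  rw [mul_comm]

/-- isolating a coordinate -/
theorem av_iso (i : Fin d) {g : (Fin d → ℝ) → ℝ} (hg : Continuous g) :
    av g = ∫ x, (1 / 2) * (∫ t in (-1:ℝ)..1, g (Function.update x i t)) ∂(mu d) := by
  have h2 : av g = ∫ p, g (Function.update p.1 i p.2) ∂((mu d).prod nu) := by
    unfold av
    have := integral_map (μ := (mu d).prod nu) (mp_update i).measurable.aemeasurable
      (f := g) (by rw [(mp_update i).map_eq]; exact hg.aestronglyMeasurable)
    rw [(mp_update i).map_eq] at this
    exact this
  have h3 : Integrable (fun p : (Fin d → ℝ) × ℝ => g (Function.update p.1 i p.2))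
      ((mu d).prod nu) := by
    have := (mp_update i).integrable_comp (g := g) hg.aestronglyMeasurable
    exact this.2 (int_mu hg)
  rw [h2, integral_prod _ h3]
  simp only [integral_nu]

theorem update_add (i : Fin d) (x : Fin d → ℝ) (t c : ℝ) :
    Function.update x i t + Pi.single i c = Function.update x i (t + c) := by
  funext k
  by_cases hk : k = i
  · subst hk; simp
  · simp [Function.update_of_ne hk, hk]

theorem add_single_eq (i : Fin d) (x : Fin d → ℝ) (c : ℝ) :
    x + Pi.single i c = Function.update x i (x i + c) := by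
  rw [← update_add, Function.update_eq_self]

theorem hasDerivAt_line {X : (Fin d → ℝ) → ℝ} (hX : ContDiff ℝ 1 X) (i : Fin d)
    (x : Fin d → ℝ) (t : ℝ) :
    HasDerivAt (fun t => X (Function.update x i t)) (D X i (Function.update x i t)) t := by
  have h1 : HasDerivAt (Function.update x i) (Pi.single i 1 : Fin d → ℝ) t :=
    hasDerivAt_update x i t
  have h2 := (hX.differentiable (by norm_num) (Function.update x i t)).hasFDerivAt
  exact h2.comp_hasDerivAt t h1

theorem continuous_update (i : Fin d) (x : Fin d → ℝ) : Continuous (fun t : ℝ => Function.update x i t) :=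
  continuous_const.update i continuous_id

/-- change of variables in one coordinate -/
theorem av_subst {G X : (Fin d → ℝ) → ℝ} (hG : Continuous G) (hGp : Pe G) (hX : ContDiff ℝ 1 X)
    (hXp : Pe X) (i : Fin d) (s : ℝ) :
    av (fun x => G (x + Pi.single i (s * X x)) * (1 + s * D X i x)) = av G := by
  have hDc := continuous_D X hX i
  have hXc := hX.continuous
  have hsc : Continuous fun x : Fin d → ℝ => (Pi.single i (s * X x) : Fin d → ℝ) :=
    (continuous_single i).comp (by fun_prop)
  have hcont : Continuous (fun x : Fin d → ℝ => G (x + Pi.single i (s * X x)) * (1 + s * D X i x)) := by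
    fun_prop
  rw [av_iso i hcont, av_iso i hG]
  congr 1
  funext x
  congr 1
  set γ : ℝ → ℝ := fun τ => G (Function.update x i τ) with hγ
  set ψ : ℝ → ℝ := fun t => t + s * X (Function.update x i t) with hψ
  have huc := continuous_update i x
  have hγc : Continuous γ := hG.comp huc
  have hd : ∀ t ∈ uIcc (-1:ℝ) 1, HasDerivAt ψ (1 + s * D X i (Function.update x i t)) t := by
    intro t _
    exact (hasDerivAt_id t).add ((hasDerivAt_line hX i x t).const_mul s)
  have h1 := intervalIntegral.integral_comp_mul_deriv hd
    (Continuous.continuousOn (by fun_prop)) hγc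
  have h2 : ∀ t, G (Function.update x i t + Pi.single i (s * X (Function.update x i t))) *
      (1 + s * D X i (Function.update x i t)) =
      (γ ∘ ψ) t * (1 + s * D X i (Function.update x i t)) := by
    intro t
    rw [update_add]
    rfl
  simp only [h2]
  rw [h1]
  have hper : Function.Periodic γ 2 := by
    intro t
    show G (Function.update x i (t + 2)) = G (Function.update x i t)
    rw [← update_add]
    exact hGp i _
  have hψ1 : ψ 1 = ψ (-1) + 2 := by
    show 1 + s * X (Function.update x i 1) = -1 + s * X (Function.update x i (-1)) + 2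
    have : Function.update x i 1 = Function.update x i (-1) + Pi.single i 2 := by
      rw [update_add]; norm_num
    rw [this, hXp i]
    ring
  rw [hψ1, hper.intervalIntegral_add_eq (ψ (-1)) (-1)]
  norm_num

theorem Pe_const (c : ℝ) : Pe (fun _ : Fin d → ℝ => c) := fun _ _ => rfl

theorem av_shift {G : (Fin d → ℝ) → ℝ} (hG : Continuous G) (hGp : Pe G) (i : Fin d) (c : ℝ) :
    av (fun x => G (x + Pi.single i c)) = av G := by
  have h := av_subst hG hGp (X := fun _ => c) contDiff_const (Pe_const c) i 1
  have hD : ∀ x : Fin d → ℝ, D (fun _ : Fin d → ℝ => c) i x = 0 := by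
    intro x
    unfold D
    simp
  simpa [hD] using h

theorem av_add {u v : (Fin d → ℝ) → ℝ} (hu : Continuous u) (hv : Continuous v) :
    av (fun x => u x + v x) = av u + av v := integral_add (int_mu hu) (int_mu hv)

theorem av_sub {u v : (Fin d → ℝ) → ℝ} (hu : Continuous u) (hv : Continuous v) :
    av (fun x => u x - v x) = av u - av v := integral_sub (int_mu hu) (int_mu hv)

theorem av_mul_left (c : ℝ) (u : (Fin d → ℝ) → ℝ) :
    av (fun x => c * u x) = c * av u := integral_const_mul c u

theorem av_neg (u : (Fin d → ℝ) → ℝ) : av (fun x => - u x) = - av u := integral_neg u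

theorem av_const (c : ℝ) : av (fun _ : Fin d → ℝ => c) = c := by
  unfold av; simp

theorem av_mono {u v : (Fin d → ℝ) → ℝ} (hu : Continuous u) (hv : Continuous v)
    (h : ∀ x, u x ≤ v x) : av u ≤ av v := integral_mono (int_mu hu) (int_mu hv) h

theorem av_nonneg {u : (Fin d → ℝ) → ℝ} (h : ∀ x, 0 ≤ u x) : 0 ≤ av u := integral_nonneg h

theorem av_le_const {u : (Fin d → ℝ) → ℝ} (hu : Continuous u) {c : ℝ} (h : ∀ x, u x ≤ c) :
    av u ≤ c := by
  have := av_mono hu continuous_const h
  rwa [av_const] at this

theorem const_le_av {u : (Fin d → ℝ) → ℝ} (hu : Continuous u) {c : ℝ} (h : ∀ x, c ≤ u x) :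
    c ≤ av u := by
  have := av_mono continuous_const hu h
  rwa [av_const] at this

theorem av_sum {ι : Type*} (s : Finset ι) {u : ι → (Fin d → ℝ) → ℝ}
    (hu : ∀ k, Continuous (u k)) : av (fun x => ∑ k ∈ s, u k x) = ∑ k ∈ s, av (u k) :=
  integral_finsetSum s fun k _ => int_mu (hu k)

theorem av_P {G : (Fin d → ℝ) → ℝ} (hG : Continuous G) (hGp : Pe G) (h : ℝ) (i : Fin d) :
    av (P h i G) = av G := by
  have e : P h i G = fun x => (1/2) * (G (x + Pi.single i h) + G (x + Pi.single i (-h))) := by
    funext x
    unfold P
    rw [Pi.single_neg, ← sub_eq_add_neg]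
    ring
  rw [e, av_mul_left, av_add (by fun_prop) (by fun_prop), av_shift hG hGp, av_shift hG hGp]
  ring

theorem av_op {G : (Fin d → ℝ) → ℝ} (hG : Continuous G) (hGp : Pe G) (h : ℝ)
    (l : List (Fin d)) : av (op h l G) = av G := by
  induction l with
  | nil => rfl
  | cons i l ih =>
    rw [op_cons, av_P (continuous_op h l hG) (op_Pe h l hGp), ih]

theorem Pe_add {u v : (Fin d → ℝ) → ℝ} (hu : Pe u) (hv : Pe v) : Pe (fun x => u x + v x) :=
  fun i x => by simp only [hu i x, hv i x]

theorem Pe_mul {u v : (Fin d → ℝ) → ℝ} (hu : Pe u) (hv : Pe v) : Pe (fun x => u x * v x) :=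
  fun i x => by simp only [hu i x, hv i x]

theorem Pe_shift {u : (Fin d → ℝ) → ℝ} (hu : Pe u) (v : Fin d → ℝ) : Pe (fun x => u (x + v)) :=
  fun i x => by
    show u (x + Pi.single i 2 + v) = u (x + v)
    have : x + Pi.single i 2 + v = x + v + Pi.single i 2 := by abel
    rw [this, hu i]

theorem av_mul_P {u v : (Fin d → ℝ) → ℝ} (hu : Continuous u) (hv : Continuous v) (hup : Pe u)
    (hvp : Pe v) (h : ℝ) (i : Fin d) :
    av (fun x => u x * P h i v x) = av (fun x => P h i u x * v x) := by
  have h1 : av (fun x => u x * v (x + Pi.single i h)) =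
      av (fun x => u (x - Pi.single i h) * v x) := by
    have := av_shift (G := fun x => u x * v (x + Pi.single i h)) (by fun_prop)
      (Pe_mul hup (Pe_shift hvp _)) i (-h)
    rw [← this]
    congr 1
    funext x
    rw [Pi.single_neg]
    congr 2
    abel
  have h2 : av (fun x => u x * v (x - Pi.single i h)) =
      av (fun x => u (x + Pi.single i h) * v x) := by
    have := av_shift (G := fun x => u x * v (x - Pi.single i h)) (by fun_prop)
      (Pe_mul hup (by simpa [sub_eq_add_neg] using Pe_shift hvp (-(Pi.single i h)))) i h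
    rw [← this]
    congr 1
    funext x
    congr 2
    abel
  have e1 : (fun x => u x * P h i v x) = fun x => (1/2) * (u x * v (x + Pi.single i h) +
      u x * v (x - Pi.single i h)) := by
    funext x; unfold P; ring
  have e2 : (fun x => P h i u x * v x) = fun x => (1/2) * (u (x - Pi.single i h) * v x +
      u (x + Pi.single i h) * v x) := by
    funext x; unfold P; ring
  rw [e1, e2, av_mul_left, av_mul_left, av_add (by fun_prop) (by fun_prop),
    av_add (by fun_prop) (by fun_prop), h1, h2]

theorem av_mul_op {u v : (Fin d → ℝ) → ℝ} (hu : Continuous u) (hv : Continuous v) (hup : Pe u)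
    (hvp : Pe v) (h : ℝ) (l : List (Fin d)) :
    av (fun x => u x * op h l v x) = av (fun x => op h l u x * v x) := by
  induction l generalizing u with
  | nil => rfl
  | cons i l ih =>
    simp only [op_cons]
    rw [av_mul_P hu (continuous_op h l hv) hup (op_Pe h l hvp)]
    have hPc : Continuous (P h i u) := by unfold P; fun_prop
    have hPp : Pe (P h i u) := op_Pe h [i] hup
    rw [ih hPc hPp]
    have e : op h l (P h i u) = P h i (op h l u) := by
      have h1 : op h (l ++ [i]) u = op h (i :: l) u := op_perm h (List.perm_append_singleton i l) u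
      rw [op_append] at h1
      exact h1
    rw [e]

/-- the average of a derivative vanishes -/
theorem av_D {G : (Fin d → ℝ) → ℝ} (hG : ContDiff ℝ 1 G) (hGp : Pe G) (i : Fin d) :
    av (D G i) = 0 := by
  rw [av_iso i (continuous_D G hG i)]
  have h1 : ∀ x : Fin d → ℝ, (∫ t in (-1:ℝ)..1, D G i (Function.update x i t)) = 0 := by
    intro x
    have hc := continuous_update i x
    have hDc := continuous_D G hG i
    rw [intervalIntegral.integral_eq_sub_of_hasDerivAt (fun t _ => hasDerivAt_line hG i x t)
      ((hDc.comp hc).intervalIntegrable _ _)]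
    have : Function.update x i 1 = Function.update x i (-1) + Pi.single i 2 := by
      rw [update_add]; norm_num
    rw [this, hGp i, sub_self]
  simp [h1]

theorem D_mul {u v : (Fin d → ℝ) → ℝ} (hu : ContDiff ℝ 1 u) (hv : ContDiff ℝ 1 v) (i : Fin d) :
    D (fun x => u x * v x) i = fun x => D u i x * v x + u x * D v i x := by
  funext x
  unfold D
  rw [fderiv_fun_mul (hu.differentiable (by norm_num) x) (hv.differentiable (by norm_num) x)]
  simp only [add_apply, smul_apply, smul_eq_mul]
  ring

theorem D_add {u v : (Fin d → ℝ) → ℝ} (hu : ContDiff ℝ 1 u) (hv : ContDiff ℝ 1 v) (i : Fin d) :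
    D (fun x => u x + v x) i = fun x => D u i x + D v i x := by
  funext x
  unfold D
  rw [fderiv_fun_add (hu.differentiable (by norm_num) x) (hv.differentiable (by norm_num) x)]
  simp only [add_apply]

theorem Pe_D {u : (Fin d → ℝ) → ℝ} (hu : Pe u) (j : Fin d) : Pe (D u j) := by
  intro i x
  unfold D
  have h1 : u = fun y => u (y + Pi.single i 2) := by
    funext y; exact (hu i y).symm
  have h2 : fderiv ℝ (fun y => u (y + Pi.single i 2)) x = fderiv ℝ u (x + Pi.single i 2) :=
    fderiv_comp_add_right (Pi.single i 2)
  rw [← h2, ← h1]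

/-- integration by parts -/
theorem av_ibp {u v : (Fin d → ℝ) → ℝ} (hu : ContDiff ℝ 1 u) (hv : ContDiff ℝ 1 v) (hup : Pe u)
    (hvp : Pe v) (i : Fin d) :
    av (fun x => u x * D v i x) = - av (fun x => D u i x * v x) := by
  have h1 := av_D (hu.mul hv) (Pe_mul hup hvp) i
  have h2 : D (fun x => u x * v x) i = _ := D_mul hu hv i
  have huc := hu.continuous
  have hvc := hv.continuous
  have hDu := continuous_D u hu i
  have hDv := continuous_D v hv i
  change av (D (fun x => u x * v x) i) = 0 at h1
  rw [h2, av_add (by fun_prop) (by fun_prop)] at h1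
  linarith

end Pool.Agent.H62
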