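import Pool.Agent.Helper62K1.Avg

/-!
# The Bobkov inequality along the random walk
-/

set_option autoImplicit false

namespace Pool.Agent.H62

open MeasureTheory Set Filter Topology
open Pool.Agent.H48R3.CP (D continuous_D)

variable {d : ℕ}

/-- the two point inequality -/
def TwoPoint : Prop := ∀ a b : ℝ, a ∈ Ioo (0:ℝ) 1 → b ∈ Ioo (0:ℝ) 1 →
    Iso ((a + b) / 2) ≤
      (√(Iso a ^ 2 + ((a - b) / 2) ^ 2) + √(Iso b ^ 2 + ((a - b) / 2) ^ 2)) / 2

theorem op_diff1 (h : ℝ) (l : List (Fin d)) (W : (Fin d → ℝ) → ℝ) (v y : Fin d → ℝ) :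
    (op h l W y - op h l W (y - v)) / 2 =
      op h l (fun z => (1/2) * (W z - W (z - v))) y := by
  rw [op_smul h l (1/2) (fun z => W z - W (z - v)), op_sub h l W (fun z => W (z - v))]
  have := op_shift h l W (-v) y
  simp only [← sub_eq_add_neg] at this
  simp only [this]
  ring

theorem op_diff2 (h : ℝ) (l : List (Fin d)) (W : (Fin d → ℝ) → ℝ) (v y : Fin d → ℝ) :
    (op h l W (y + v) - op h l W y) / 2 =
      op h l (fun z => (1/2) * (W (z + v) - W z)) y := by
  rw [op_smul h l (1/2) (fun z => W (z + v) - W z), op_sub h l (fun z => W (z + v)) W]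
  have := op_shift h l W v y
  simp only [this]
  ring

theorem kstep (TP : TwoPoint) (h : ℝ) (W : (Fin d → ℝ) → ℝ) (hW : ∀ x, 0 < W x ∧ W x < 1)
    (a : Fin d → (Fin d → ℝ) → ℝ)
    (ha1 : ∀ i x, |W (x + Pi.single i (2 * h)) - W x| / 2 ≤ a i x)
    (ha2 : ∀ i x, |W (x - Pi.single i (2 * h)) - W x| / 2 ≤ a i x) (l : List (Fin d)) :
    ∀ x, Iso (op h l W x) ≤
      op h l (fun x => √(Iso (W x) ^ 2 + ∑ j, (l.count j : ℝ) * a j x ^ 2)) x := by
  induction l with
  | nil =>
    intro x
    simp only [op_nil, List.count_nil, Nat.cast_zero, zero_mul, Finset.sum_const_zero, add_zero]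
    rw [Real.sqrt_sq (Iso_nonneg _)]
  | cons i l ih =>
    intro x
    have hu0 : ∀ y, 0 < op h l W y := const_lt_op h l fun y => (hW y).1
    have hu1 : ∀ y, op h l W y < 1 := op_lt_const h l fun y => (hW y).2
    have ha0 : ∀ j y, 0 ≤ a j y := fun j y =>
      le_trans (by positivity) (ha1 j y)
    set G : (Fin d → ℝ) → ℝ := fun x => √(Iso (W x) ^ 2 + ∑ j, (l.count j : ℝ) * a j x ^ 2)
      with hG
    have hG0 : ∀ y, 0 ≤ G y := fun y => Real.sqrt_nonneg _
    -- the key step at a point
    have key : ∀ (y : Fin d → ℝ) (q : ℝ), |q| ≤ op h l (a i) y →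
        √(Iso (op h l W y) ^ 2 + q ^ 2) ≤
        op h l (fun x => √(Iso (W x) ^ 2 + ∑ j, ((i :: l).count j : ℝ) * a j x ^ 2)) y := by
      intro y q hq
      have h1 : √(Iso (op h l W y) ^ 2 + q ^ 2) ≤ √((op h l G y) ^ 2 + (op h l (a i) y) ^ 2) := by
        apply Real.sqrt_le_sqrt
        have h2 : Iso (op h l W y) ^ 2 ≤ (op h l G y) ^ 2 :=
          pow_le_pow_left₀ (Iso_nonneg _) (ih y) 2
        have h3 : q ^ 2 ≤ (op h l (a i) y) ^ 2 := by
          rw [← sq_abs q]
          exact pow_le_pow_left₀ (abs_nonneg _) hq 2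
        linarith
      refine h1.trans ((op_norm2_le h l G (a i) y).trans ?_)
      apply le_of_eq
      congr 1
      funext z
      congr 1
      rw [hG]
      simp only
      rw [Real.sq_sqrt (by
        have : 0 ≤ ∑ j, (l.count j : ℝ) * a j z ^ 2 :=
          Finset.sum_nonneg fun j _ => by positivity
        positivity)]
      have h4 : ∑ j, ((i :: l).count j : ℝ) * a j z ^ 2 =
          (∑ j, (l.count j : ℝ) * a j z ^ 2) + a i z ^ 2 := by
        have h5 : ∀ j, ((i :: l).count j : ℝ) * a j z ^ 2 =
            (l.count j : ℝ) * a j z ^ 2 + if i = j then a j z ^ 2 else 0 := by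
          intro j
          rw [List.count_cons]
          by_cases hij : i = j
          · subst hij
            simp
            ring
          · have : ¬ (i == j) = true := by simpa using hij
            simp [hij]
        simp only [h5]
        rw [Finset.sum_add_distrib]
        simp
      rw [h4]
      ring
    have hT := TP (op h l W (x + Pi.single i h)) (op h l W (x - Pi.single i h))
      ⟨hu0 _, hu1 _⟩ ⟨hu0 _, hu1 _⟩
    simp only [op_cons]
    unfold P
    refine hT.trans ?_
    have h6 : |(op h l W (x + Pi.single i h) - op h l W (x - Pi.single i h)) / 2| ≤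
        op h l (a i) (x + Pi.single i h) := by
      have e1 : (x - Pi.single i h) = (x + Pi.single i h) - Pi.single i (2 * h) := by
        rw [two_mul, Pi.single_add]; abel
      rw [e1]
      have e2 := op_diff1 h l W (Pi.single i (2 * h)) (x + Pi.single i h)
      rw [e2]
      refine (abs_op_le h l _ _).trans (op_mono h l (fun y => ?_) _)
      rw [abs_mul, abs_of_pos (by norm_num : (0:ℝ) < 1 / 2), abs_sub_comm]
      have := ha2 i y
      linarith
    have h7 : |(op h l W (x + Pi.single i h) - op h l W (x - Pi.single i h)) / 2| ≤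
        op h l (a i) (x - Pi.single i h) := by
      have e1 : (x + Pi.single i h) = (x - Pi.single i h) + Pi.single i (2 * h) := by
        rw [two_mul, Pi.single_add]; abel
      rw [e1]
      have e2 := op_diff2 h l W (Pi.single i (2 * h)) (x - Pi.single i h)
      rw [e2]
      refine (abs_op_le h l _ _).trans (op_mono h l (fun y => ?_) _)
      rw [abs_mul, abs_of_pos (by norm_num : (0:ℝ) < 1 / 2)]
      have := ha1 i y
      linarith
    have h8 := key _ _ h6
    have h9 := key _ _ h7
    linarith

end Pool.Agent.H62
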