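import Pool.Agent.Helper62K1.Stat2

/-!
# The averaged normal field
-/

set_option autoImplicit false

namespace Pool.Agent.H62

open MeasureTheory Set Filter Topology
open Pool.Agent.H48R3.CP (D continuous_D)
open scoped ContDiff

variable {d : ℕ}

/-- the standing assumptions on the profile function -/
structure Good (W : (Fin d → ℝ) → ℝ) : Prop where
  sm : ContDiff ℝ ∞ W
  ev : Ev W
  pe : Pe W
  z1 : ∀ x, 0 < W x ∧ W x < 1

/-- averaged gradient -/
noncomputable def aL (W : (Fin d → ℝ) → ℝ) (h : ℝ) (l : List (Fin d)) (i : Fin d) :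
    (Fin d → ℝ) → ℝ := op h l (D W i)

/-- averaged density -/
noncomputable def mL (W : (Fin d → ℝ) → ℝ) (h : ℝ) (l : List (Fin d)) :
    (Fin d → ℝ) → ℝ := op h l (wf W)

/-- averaged normal -/
noncomputable def ML (W : (Fin d → ℝ) → ℝ) (h : ℝ) (l : List (Fin d)) (i : Fin d)
    (x : Fin d → ℝ) : ℝ := aL W h l i x * (mL W h l x)⁻¹

variable {W : (Fin d → ℝ) → ℝ}

theorem smooth_aL (hW : Good W) (h : ℝ) (l : List (Fin d)) (i : Fin d) :
    ContDiff ℝ ∞ (aL W h l i) := contDiff_op (n := ⊤) h l (contDiff_D hW.sm i)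

theorem smooth_mL (hW : Good W) (h : ℝ) (l : List (Fin d)) :
    ContDiff ℝ ∞ (mL W h l) := contDiff_op (n := ⊤) h l (contDiff_wf hW.sm hW.z1)

theorem mL_pos (hW : Good W) (h : ℝ) (l : List (Fin d)) (x : Fin d → ℝ) : 0 < mL W h l x :=
  const_lt_op h l (wf_pos hW.z1) x

theorem smooth_ML (hW : Good W) (h : ℝ) (l : List (Fin d)) (i : Fin d) :
    ContDiff ℝ ∞ (ML W h l i) :=
  (smooth_aL hW h l i).mul ((smooth_mL hW h l).inv fun x => (mL_pos hW h l x).ne')

theorem Pe_aL (hW : Good W) (h : ℝ) (l : List (Fin d)) (i : Fin d) : Pe (aL W h l i) :=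
  op_Pe h l (Pe_D hW.pe i)

theorem Pe_mL (hW : Good W) (h : ℝ) (l : List (Fin d)) : Pe (mL W h l) :=
  op_Pe h l (Pe_wf hW.pe)

theorem Pe_ML (hW : Good W) (h : ℝ) (l : List (Fin d)) (i : Fin d) : Pe (ML W h l i) := by
  intro j x
  unfold ML
  rw [Pe_aL hW h l i j x, Pe_mL hW h l j x]

theorem sum_aL_sq (hW : Good W) (h : ℝ) (l : List (Fin d)) (x : Fin d → ℝ) :
    ∑ i, aL W h l i x ^ 2 ≤ mL W h l x ^ 2 := by
  have h1 := op_norm_le h l Finset.univ (fun i => D W i) x
  have h2 : op h l (fun x => √(∑ i, D W i x ^ 2)) x ≤ mL W h l x := by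
    apply op_mono
    intro y
    unfold wf
    apply Real.sqrt_le_sqrt
    have : 0 ≤ Real.pi ^ 2 * Iso (W y) ^ 2 := by positivity
    linarith
  have h3 : √(∑ i, aL W h l i x ^ 2) ≤ mL W h l x := h1.trans h2
  rwa [Real.sqrt_le_left (mL_pos hW h l x).le] at h3

theorem sum_ML_sq (hW : Good W) (h : ℝ) (l : List (Fin d)) (x : Fin d → ℝ) :
    ∑ i, ML W h l i x ^ 2 ≤ 1 := by
  have h1 := sum_aL_sq hW h l x
  have hm := mL_pos hW h l x
  unfold ML
  simp only [mul_pow]
  rw [← Finset.sum_mul, inv_pow, ← div_eq_mul_inv, div_le_one (by positivity)]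
  exact h1

theorem mul_ML (hW : Good W) (h : ℝ) (l : List (Fin d)) (i : Fin d) (x : Fin d → ℝ) :
    mL W h l x * ML W h l i x = aL W h l i x := by
  unfold ML
  have := (mL_pos hW h l x).ne'
  field_simp

theorem ML_sq_le (hW : Good W) (h : ℝ) (l : List (Fin d)) (i : Fin d) (x : Fin d → ℝ) :
    ML W h l i x ^ 2 ≤ 1 :=
  (Finset.single_le_sum (f := fun j => ML W h l j x ^ 2) (fun _ _ => sq_nonneg _)
    (Finset.mem_univ i)).trans (sum_ML_sq hW h l x)

/-! ### parity -/

theorem D_rf {g : (Fin d → ℝ) → ℝ} (hg : ContDiff ℝ 1 g) (i j : Fin d) (x : Fin d → ℝ) :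
    D (fun y => g (rf j y)) i x = (if i = j then -1 else 1) * D g i (rf j x) := by
  -- the reflection is linear
  have hlin : ∀ y : Fin d → ℝ, rf j y = y - (2 * y j) • (Pi.single j 1 : Fin d → ℝ) := by
    intro y
    funext k
    unfold rf
    by_cases hk : k = j
    · subst hk; simp; ring
    · simp [Function.update_of_ne hk, hk]
  have h1 : HasFDerivAt (rf j) (ContinuousLinearMap.id ℝ (Fin d → ℝ) -
      ((2:ℝ) • (ContinuousLinearMap.proj (R := ℝ) (φ := fun _ : Fin d => ℝ) j)).smulRight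
        (Pi.single j 1 : Fin d → ℝ)) x := by
    have h0 : rf j = fun y : Fin d → ℝ => (ContinuousLinearMap.id ℝ (Fin d → ℝ) -
      ((2:ℝ) • (ContinuousLinearMap.proj (R := ℝ) (φ := fun _ : Fin d => ℝ) j)).smulRight
        (Pi.single j 1 : Fin d → ℝ)) y := by
      funext y
      rw [hlin]
      simp
    rw [h0]
    exact ContinuousLinearMap.hasFDerivAt _
  have h2 := (hg.differentiable (by norm_num) (rf j x)).hasFDerivAt
  have h3 := h2.comp x h1
  unfold D
  have h4 : fderiv ℝ (fun y => g (rf j y)) x = _ := h3.fderiv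
  rw [h4]
  simp only [ContinuousLinearMap.comp_apply, sub_apply, ContinuousLinearMap.id_apply,
    ContinuousLinearMap.smulRight_apply, smul_apply, ContinuousLinearMap.proj_apply, smul_eq_mul,
    map_sub, map_smul]
  by_cases hij : i = j
  · subst hij
    simp
    ring
  · simp [hij, Ne.symm hij]

theorem D_Ev {g : (Fin d → ℝ) → ℝ} (hg : ContDiff ℝ 1 g) (he : Ev g) (i j : Fin d)
    (x : Fin d → ℝ) : D g i (rf j x) = (if i = j then -1 else 1) * D g i x := by
  have h1 := D_rf hg i j (rf j x)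
  rw [rf_rf] at h1
  have h2 : (fun y => g (rf j y)) = g := funext fun y => he j y
  rw [h2] at h1
  rw [h1]

theorem aL_rf (hW : Good W) (h : ℝ) (l : List (Fin d)) (i j : Fin d) (x : Fin d → ℝ) :
    aL W h l i (rf j x) = (if i = j then -1 else 1) * aL W h l i x := by
  unfold aL
  rw [op_rf]
  have h1 : (fun y => D W i (rf j y)) = fun y => (if i = j then -1 else 1) * D W i y :=
    funext fun y => D_Ev (cd1 hW.sm) hW.ev i j y
  rw [h1, op_smul]

theorem Ev_wf (hW : Good W) : Ev (wf W) := by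
  intro j x
  unfold wf
  rw [hW.ev j x]
  congr 2
  apply Finset.sum_congr rfl
  intro i _
  rw [D_Ev (cd1 hW.sm) hW.ev i j x]
  split_ifs <;> ring

theorem mL_rf (hW : Good W) (h : ℝ) (l : List (Fin d)) : Ev (mL W h l) :=
  op_Ev h l (Ev_wf hW)

theorem ML_rf (hW : Good W) (h : ℝ) (l : List (Fin d)) (i j : Fin d) (x : Fin d → ℝ) :
    ML W h l i (rf j x) = (if i = j then -1 else 1) * ML W h l i x := by
  unfold ML
  rw [aL_rf hW, mL_rf hW h l j x]
  ring

/-! ### rounds -/

/-- the list of coordinates repeated `k` times -/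
def rounds (d : ℕ) : ℕ → List (Fin d)
  | 0 => []
  | k + 1 => List.finRange d ++ rounds d k

theorem count_rounds (k : ℕ) (i : Fin d) : (rounds d k).count i = k := by
  induction k with
  | zero => rfl
  | succ k ih =>
    unfold rounds
    rw [List.count_append, ih, List.count_eq_one_of_mem (List.nodup_finRange d)
      (List.mem_finRange i)]
    ring

theorem rounds_add (k k' : ℕ) : rounds d (k + k') = rounds d k ++ rounds d k' := by
  induction k with
  | zero => simp [rounds]
  | succ k ih =>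
    have : k + 1 + k' = (k + k') + 1 := by ring
    rw [this]
    show List.finRange d ++ rounds d (k + k') = (List.finRange d ++ rounds d k) ++ rounds d k'
    rw [ih, List.append_assoc]

/-- the quadratic quantity -/
noncomputable def Qf (W : (Fin d → ℝ) → ℝ) (h : ℝ) (l : List (Fin d)) : ℝ :=
  av (fun x => (∑ b, aL W h l b x ^ 2) * (mL W h l x)⁻¹)

theorem mL_lower (hW : Good W) : ∃ m0, 0 < m0 ∧ ∀ (h : ℝ) (l : List (Fin d)) (x : Fin d → ℝ),
    m0 ≤ mL W h l x := by
  have hw := contDiff_wf hW.sm hW.z1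
  have h1 : Continuous (fun x => (wf W x)⁻¹) :=
    hw.continuous.inv₀ fun x => (wf_pos hW.z1 x).ne'
  have h2 : Pe (fun x => (wf W x)⁻¹) := fun i x => by
    show (wf W (x + Pi.single i 2))⁻¹ = (wf W x)⁻¹
    rw [Pe_wf hW.pe i x]
  obtain ⟨C, hC0, hC⟩ := Pe_bdd h1 h2
  refine ⟨(C + 1)⁻¹, by positivity, fun h l x => const_le_op h l (fun y => ?_) x⟩
  have h3 := hC y
  have h4 := wf_pos hW.z1 y
  rw [abs_of_pos (by positivity)] at h3
  rw [inv_le_comm₀ (by positivity) h4]
  linarith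

end Pool.Agent.H62
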