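import Pool.Agent.Helper62K1.ThmM
import Pool.Agent.Helper11K1.Contact
import Pool.Agent.H8K1.TP.TwoPoint
import Pool.Agent.Helper38K1.Lower
import Pool.Agent.Helper60K1.Corner
import Pool.Agent.Helper80K1.FtoS
import Pool.Agent.Helper55K1.SF.Main

/-!
# Assembly: the cube profile is not eventually constant in the dimension
-/

set_option autoImplicit false

namespace Pool.Agent.H62

open MeasureTheory Set Filter Topology
open Pool.Agent.H48R3.CP (D U continuous_D)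
open scoped ContDiff

/-! ### averages and the unit cube -/

theorem ab_even {d : ℕ} {g : (Fin d → ℝ) → ℝ} (he : Ev g) (x : Fin d → ℝ) :
    g (fun i => |x i|) = g x := by
  have key : ∀ s : Finset (Fin d), g (fun i => if i ∈ s then |x i| else x i) = g x := by
    intro s
    induction s using Finset.induction_on with
    | empty => simp
    | insert j s hj ih =>
      rw [← ih]
      rcases le_total 0 (x j) with h | h
      · congr 1
        funext i
        by_cases hij : i = j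
        · subst hij
          rw [if_pos (Finset.mem_insert_self _ _), if_neg hj, abs_of_nonneg h]
        · simp only [Finset.mem_insert, hij, false_or]
      · rw [← he j (fun i => if i ∈ s then |x i| else x i)]
        congr 1
        funext i
        unfold rf
        by_cases hij : i = j
        · subst hij
          rw [if_pos (Finset.mem_insert_self _ _), Function.update_self]
          show |x i| = -(if i ∈ s then |x i| else x i)
          rw [if_neg hj, abs_of_nonpos h]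
        · rw [Function.update_of_ne hij]
          simp only [Finset.mem_insert, hij, false_or]
  have := key Finset.univ
  simpa using this

theorem av_cube {d : ℕ} (g : (Fin d → ℝ) → ℝ) (hg : Continuous g) (he : Ev g) :
    av g = ∫ x in Icc (0 : Fin d → ℝ) 1, g x := by
  rw [← Pool.Agent.Helper55K1.SF.av_ab hg]
  congr 1
  funext x
  exact (ab_even he x).symm

theorem Ev_wf' {d : ℕ} {f : (Fin d → ℝ) → ℝ} (hf : ContDiff ℝ 1 f) (he : Ev f) : Ev (wf f) := by
  intro j x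
  unfold wf
  rw [he j x]
  congr 2
  apply Finset.sum_congr rfl
  intro i _
  rw [D_Ev hf he i j x]
  split_ifs <;> ring

theorem pos_lower {d : ℕ} {f : (Fin d → ℝ) → ℝ} (hf : Continuous f) (hp : Pe f)
    (h0 : ∀ x, 0 < f x) : ∃ c, 0 < c ∧ ∀ x, c ≤ f x := by
  have h1 : Continuous (fun x => (f x)⁻¹) := hf.inv₀ fun x => (h0 x).ne'
  have h2 : Pe (fun x => (f x)⁻¹) := fun i x => by
    show (f (x + Pi.single i 2))⁻¹ = (f x)⁻¹
    rw [hp i x]
  obtain ⟨C, hC0, hC⟩ := Pe_bdd h1 h2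
  refine ⟨(C + 1)⁻¹, by positivity, fun y => ?_⟩
  have h3 := hC y
  have h4 := h0 y
  rw [abs_of_pos (by positivity)] at h3
  rw [inv_le_comm₀ (by positivity) h4]
  linarith

theorem av_mem {d : ℕ} {f : (Fin d → ℝ) → ℝ} (hf : Continuous f) (hp : Pe f)
    (h01 : ∀ x, 0 < f x ∧ f x < 1) : av f ∈ Ioo (0:ℝ) 1 := by
  constructor
  · obtain ⟨c, hc, h⟩ := pos_lower hf hp fun x => (h01 x).1
    exact lt_of_lt_of_le hc (const_le_av hf h)
  · obtain ⟨c, hc, h⟩ := pos_lower (f := fun x => 1 - f x) (by fun_prop)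
      (fun i x => by
        show 1 - f (x + Pi.single i 2) = 1 - f x
        rw [hp i x]) (fun x => by have := (h01 x).2; linarith)
    have h2 : av f ≤ 1 - c := av_le_const hf fun x => by have := h x; linarith
    linarith

/-! ### the profile over all dimensions -/

/-- infimum of the perimeters at volume `v` over all dimensions -/
noncomputable def Y (v : ℝ) : ℝ := sInf {C : ℝ | ∃ d : ℕ, Ach d v C}

theorem bddY (v : ℝ) : BddBelow {C : ℝ | ∃ d : ℕ, Ach d v C} := by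
  refine ⟨0, ?_⟩
  rintro C ⟨d, E, hE, hEU, hv, hP⟩
  exact Pool.Agent.Helper55K1.SF.PB_nonneg hP

theorem Ach_nonneg {d : ℕ} {v C : ℝ} (h : Ach d v C) : 0 ≤ C := by
  obtain ⟨E, hE, hEU, hv, hP⟩ := h
  exact Pool.Agent.Helper55K1.SF.PB_nonneg hP

theorem Ach_zero : Ach 0 0 0 := by
  refine ⟨∅, MeasurableSet.empty, empty_subset _, by simp, fun ξ _ => ?_⟩
  simp

theorem Ach_sq {ρ : ℝ} (h0 : 0 ≤ ρ) (h1 : ρ ≤ 1) : Ach 2 (ρ ^ 2) (2 * ρ) := by
  have := (corner 0 0 ρ le_rfl zero_le_one le_rfl h0 h1 Ach_zero).1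
  simpa using this

theorem nonemptyY {v : ℝ} (hv : v ∈ Ioo (0:ℝ) 1) : {C : ℝ | ∃ d : ℕ, Ach d v C}.Nonempty := by
  refine ⟨2 * √v, 2, ?_⟩
  have h1 : √v ≤ 1 := by rw [Real.sqrt_le_one]; exact hv.2.le
  have := Ach_sq (Real.sqrt_nonneg v) h1
  rwa [Real.sq_sqrt hv.1.le] at this

theorem Ach_up {d : ℕ} {v C : ℝ} (hv : 0 ≤ v) (hv1 : v ≤ 1) (h : Ach d v C) (m : ℕ) :
    Ach (d + 2 * m) v C := by
  induction m with
  | zero => exact h
  | succ m ih =>
    have h1 := (corner v C 0 hv hv1 (Ach_nonneg h) le_rfl zero_le_one ih).1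
    have e : d + 2 * m + 2 = d + 2 * (m + 1) := by ring
    rw [e] at h1
    simpa using h1

theorem Y_contact : ∃ l ∈ Ioo (0:ℝ) 1, ∃ H K r : ℝ, 1000 ≤ H ∧ 0 ≤ K ∧ 0 < r ∧
      ∀ v ∈ Ioo (0:ℝ) 1, |v - l| < r → Y l + H * (v - l) - K * (v - l) ^ 2 ≤ Y v := by
  apply contact Y 1000
  · intro v hv
    exact le_csInf (nonemptyY hv) fun C ⟨d, h⟩ => Ach_nonneg h
  · intro ρ hρ
    exact csInf_le (bddY _) ⟨2, Ach_sq hρ.1.le hρ.2.le⟩
  · intro v hv
    exact le_csInf (nonemptyY hv) fun C ⟨d, h⟩ =>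
      Pool.Agent.H38K1.lower_bound v C hv.1 hv.2 h
  · intro v hv ρ hρ
    have h1 : Y (v + (1 - v) * ρ ^ 2) - 2 * ρ ≤ Y v := by
      apply le_csInf (nonemptyY hv)
      rintro C ⟨d, h⟩
      have h2 := (corner v C ρ hv.1.le hv.2.le (Ach_nonneg h) hρ.1.le hρ.2.le h).1
      have h3 : Y (v + (1 - v) * ρ ^ 2) ≤ C + 2 * ρ := csInf_le (bddY _) ⟨_, h2⟩
      linarith
    linarith
  · intro v hv ρ hρ
    have h1 : Y (v * (1 - ρ ^ 2)) - 2 * ρ ≤ Y v := by
      apply le_csInf (nonemptyY hv)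
      rintro C ⟨d, h⟩
      have h2 := (corner v C ρ hv.1.le hv.2.le (Ach_nonneg h) hρ.1.le hρ.2.le h).2
      have h3 : Y (v * (1 - ρ ^ 2)) ≤ C + 2 * ρ := csInf_le (bddY _) ⟨_, h2⟩
      linarith
    linarith

theorem Y_pos {v : ℝ} (hv : v ∈ Ioo (0:ℝ) 1) : 0 < Y v := by
  have h1 : v * (√(1 - Real.log v) - 1) ≤ Y v :=
    le_csInf (nonemptyY hv) fun C ⟨d, h⟩ => Pool.Agent.H38K1.lower_bound v C hv.1 hv.2 h
  have h2 : Real.log v < 0 := Real.log_neg hv.1 hv.2
  have h3 : 1 < √(1 - Real.log v) := by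
    rw [Real.lt_sqrt zero_le_one]
    linarith
  have h4 : 0 < v * (√(1 - Real.log v) - 1) := mul_pos hv.1 (by linarith)
  linarith

/-- lower bound of the functional by the contact parabola -/
theorem A1_of_contact {l H K r : ℝ}
    (hc : ∀ v ∈ Ioo (0:ℝ) 1, |v - l| < r → Y l + H * (v - l) - K * (v - l) ^ 2 ≤ Y v)
    {d : ℕ} (f : (Fin d → ℝ) → ℝ) (hf : ContDiff ℝ 1 f) (he : Ev f) (hp : Pe f)
    (h01 : ∀ x, 0 < f x ∧ f x < 1) (hr : |av f - l| < r) :
    Y l + H * (av f - l) - K * (av f - l) ^ 2 ≤ Fn f := by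
  have hav : av f = ∫ x in Icc (0 : Fin d → ℝ) 1, f x := av_cube f hf.continuous he
  have hFn : Fn f = ∫ x in Icc (0 : Fin d → ℝ) 1, wf f x :=
    av_cube (wf f) (continuous_wf hf) (Ev_wf' hf he)
  have hmem := av_mem hf.continuous hp h01
  have hseq : ∀ n : ℕ, ∃ v : ℝ, |v - av f| ≤ 1 / ((n:ℝ) + 1) ∧
      ∃ m, Ach m v (Fn f + 1 / ((n:ℝ) + 1)) := by
    intro n
    obtain ⟨m, v, h1, h2⟩ := Pool.Agent.Helper80K1.FtoS f hf h01 (1 / ((n:ℝ) + 1)) (by positivity)
    rw [← hav] at h1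
    rw [← hFn] at h2
    exact ⟨v, h1, m, h2⟩
  choose v hv m hm using hseq
  have hε : Tendsto (fun n : ℕ => 1 / ((n:ℝ) + 1)) atTop (𝓝 0) :=
    tendsto_one_div_add_atTop_nhds_zero_nat
  have hvt : Tendsto v atTop (𝓝 (av f)) := by
    rw [tendsto_iff_dist_tendsto_zero]
    refine squeeze_zero (fun n => dist_nonneg) (fun n => ?_) hε
    rw [Real.dist_eq]
    exact hv n
  have t1 : Tendsto (fun n => Y l + H * (v n - l) - K * (v n - l) ^ 2) atTop
      (𝓝 (Y l + H * (av f - l) - K * (av f - l) ^ 2)) :=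
    (((hvt.sub_const l).const_mul H).const_add _).sub (((hvt.sub_const l).pow 2).const_mul K)
  have t2 : Tendsto (fun n : ℕ => Fn f + 1 / ((n:ℝ) + 1)) atTop (𝓝 (Fn f + 0)) :=
    tendsto_const_nhds.add hε
  rw [add_zero] at t2
  apply le_of_tendsto_of_tendsto t1 t2
  have e1 : ∀ᶠ n in atTop, v n ∈ Ioo (0:ℝ) 1 := hvt.eventually (Ioo_mem_nhds hmem.1 hmem.2)
  have e2 : ∀ᶠ n in atTop, |v n - l| < r := by
    have t3 : Tendsto (fun n => |v n - l|) atTop (𝓝 |av f - l|) := (hvt.sub_const l).abs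
    exact t3.eventually (gt_mem_nhds hr)
  filter_upwards [e1, e2] with n h1 h2
  exact (hc (v n) h1 h2).trans (csInf_le (bddY _) ⟨_, hm n⟩)

/-- the statement in terms of `Ach`: no fixed dimension realises `Y l` -/
theorem not_attained : ∃ l ∈ Ioo (0:ℝ) 1, ∀ d : ℕ, 0 < d →
    ∃ ε > 0, ¬ Ach d l (Y l + ε) := by
  obtain ⟨l, hl, H, K, r, hH, hK, hr, hc⟩ := Y_contact
  refine ⟨l, hl, fun d hd => ?_⟩
  by_contra hcon
  push Not at hcon
  refine thmM two_point hd l (Y l) H K r (Y_pos hl) hH hK hr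
    (fun f hf he hp h01 hr => A1_of_contact hc f hf he hp h01 hr) (fun ε hε => ?_)
  obtain ⟨W, h1, h2, h3, h4, h5, h6, h7⟩ := Pool.Agent.Helper55K1.SF.StoF l (Y l + ε / 2) hl.1 hl.2
    (hcon (ε / 2) (by linarith)) (ε / 2) (by linarith)
  exact ⟨W, h1, h2, h3, h4, by linarith, by linarith, by linarith⟩

/-- the cube as written in the problem -/
theorem U_eq (d : ℕ) : U d = {x : Fin d → ℝ | ∀ i, x i ∈ Set.Ioo (0:ℝ) 1} := rfl

theorem not_eventually_constant (I : ℕ → ℝ → ENNReal)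
    (hI : ∀ (d : ℕ) (t : ℝ), I d t =
        ⨅ (E : Set (Fin d → ℝ)) (_ : MeasurableSet E)
          (_ : E ⊆ {x : Fin d → ℝ | ∀ i, x i ∈ Set.Ioo (0:ℝ) 1})
          (_ : MeasureTheory.volume E = ENNReal.ofReal t),
          ⨆ (φ : (Fin d → ℝ) → (Fin d → ℝ)) (_ : ContDiff ℝ 1 φ)
            (_ : HasCompactSupport φ)
            (_ : tsupport φ ⊆ {x : Fin d → ℝ | ∀ i, x i ∈ Set.Ioo (0:ℝ) 1})
            (_ : ∀ x, ∑ i, (φ x i) ^ 2 ≤ 1),
            ENNReal.ofReal (∫ x in E, ∑ i, fderiv ℝ φ x (Pi.single i 1) i))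
    (h : ∀ t ∈ Set.Icc (0:ℝ) 1, ∃ N : ℕ, ∀ d ≥ N, I d t = I N t) : False := by
  obtain ⟨l, hl, hnot⟩ := not_attained
  obtain ⟨N, hN⟩ := h l ⟨hl.1.le, hl.2.le⟩
  -- work in dimension N + 1
  obtain ⟨ε, hε, hno⟩ := hnot (N + 1) (by omega)
  apply hno
  -- a competitor in some dimension
  have hlt : Y l < Y l + ε := by linarith
  obtain ⟨C, ⟨d', hd'⟩, hC⟩ := exists_lt_of_csInf_lt (nonemptyY hl) hlt
  -- move it to a large dimension
  have hup := Ach_up hl.1.le hl.2.le hd' (N + 1)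
  have hge : N ≤ d' + 2 * (N + 1) := by omega
  have hle : I (d' + 2 * (N + 1)) l ≤ ENNReal.ofReal C := by
    rw [hI]
    obtain ⟨E, hE, hEU, hv, hP⟩ := hup
    refine iInf_le_of_le E (iInf_le_of_le hE (iInf_le_of_le hEU (iInf_le_of_le hv ?_)))
    refine iSup_le fun ξ => iSup_le fun h1 => iSup_le fun h2 => iSup_le fun h3 =>
      iSup_le fun h4 => ?_
    exact ENNReal.ofReal_le_ofReal (hP ξ ⟨h1, h2, h3, h4⟩)
  have hEq : I (N + 1) l = I (d' + 2 * (N + 1)) l := by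
    rw [hN (N + 1) (by omega), hN _ hge]
  have hC0 : 0 ≤ C := Ach_nonneg hd'
  have hlt2 : I (N + 1) l < ENNReal.ofReal (Y l + ε) := by
    rw [hEq]
    refine lt_of_le_of_lt hle ?_
    rw [ENNReal.ofReal_lt_ofReal_iff (by linarith)]
    exact hC
  rw [hI] at hlt2
  simp only [iInf_lt_iff] at hlt2
  obtain ⟨E, hE, hEU, hv, hsup⟩ := hlt2
  refine ⟨E, hE, hEU, hv, fun ξ hξ => ?_⟩
  have h5 : ENNReal.ofReal (∫ x in E, ∑ i, fderiv ℝ ξ x (Pi.single i 1) i) ≤
      ENNReal.ofReal (Y l + ε) := by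
    refine le_trans ?_ hsup.le
    refine le_iSup_of_le ξ (le_iSup_of_le hξ.1 (le_iSup_of_le hξ.2.1
      (le_iSup_of_le hξ.2.2.1 (le_iSup_of_le hξ.2.2.2 le_rfl))))
  rw [ENNReal.ofReal_le_ofReal_iff (by linarith)] at h5
  exact h5

end Pool.Agent.H62
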