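import Pool.Agent.Helper62K1.Tele2
import Pool.Agent.Helper62K1.Bob

/-!
# The loss of the quadratic quantity is controlled by the elapsed time
-/

set_option autoImplicit false

namespace Pool.Agent.H62

open MeasureTheory Set Filter Topology
open Pool.Agent.H48R3.CP (D continuous_D)
open scoped ContDiff

variable {d : ℕ} {W : (Fin d → ℝ) → ℝ}

theorem Iso_op_bound (TP : TwoPoint) (hW : Good W) : ∃ C, 0 ≤ C ∧ ∀ h : ℝ, 0 < h → h ≤ 1 →
    ∀ k : ℕ, ∀ x, Iso (op h (rounds d k) W x) ≤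
      op h (rounds d k) (fun x => Iso (W x)) x +
        √(k * h ^ 2) * (mL W h (rounds d k) x + C * h) := by
  have h2 : UB 2 (fun _ : Unit => W) := UB.single 2 hW.sm hW.pe
  have h2' := fun i => ((h2.2 i).2 i).bdd
  choose C2 h20 hC2 using h2'
  set C := ∑ i, C2 i with hC
  have hCi : ∀ i, C2 i ≤ C := fun i => Finset.single_le_sum (fun j _ => h20 j) (Finset.mem_univ i)
  have hC0 : 0 ≤ C := Finset.sum_nonneg fun j _ => h20 j
  have hDD : ∀ i x, |D (D W i) i x| ≤ C := fun i x => (hC2 i () x).trans (hCi i)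
  refine ⟨d * (2 * C), by positivity, fun h hh hh1 k x => ?_⟩
  set a : Fin d → (Fin d → ℝ) → ℝ := fun j x => h * (|D W j x| + 2 * C * h) with ha
  have ha1 : ∀ i (x : Fin d → ℝ), |W (x + Pi.single i (2 * h)) - W x| / 2 ≤ a i x := by
    intro i x
    have h1 := taylor1 i hW.sm C (hDD i) x (2 * h)
    have h3 : |W (x + Pi.single i (2 * h)) - W x| ≤ (2 * h) ^ 2 * C + 2 * h * |D W i x| := by
      have e : W (x + Pi.single i (2 * h)) - W x =
          (W (x + Pi.single i (2 * h)) - W x - 2 * h * D W i x) + 2 * h * D W i x := by ring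
      rw [e]
      refine (abs_add_le _ _).trans (add_le_add h1 ?_)
      rw [abs_mul, abs_of_pos (by positivity : 0 < 2 * h)]
    simp only [ha]
    nlinarith
  have ha2 : ∀ i (x : Fin d → ℝ), |W (x - Pi.single i (2 * h)) - W x| / 2 ≤ a i x := by
    intro i x
    have e0 : x - (Pi.single i (2 * h) : Fin d → ℝ) = x + Pi.single i (-(2 * h)) := by
      rw [Pi.single_neg, ← sub_eq_add_neg]
    rw [e0]
    have h1 := taylor1 i hW.sm C (hDD i) x (-(2 * h))
    have h3 : |W (x + Pi.single i (-(2 * h))) - W x| ≤ (2 * h) ^ 2 * C + 2 * h * |D W i x| := by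
      have e : W (x + Pi.single i (-(2 * h))) - W x =
          (W (x + Pi.single i (-(2 * h))) - W x - -(2 * h) * D W i x) + -(2 * h) * D W i x := by ring
      rw [e]
      refine (abs_add_le _ _).trans (add_le_add (by rwa [neg_sq] at h1) ?_)
      rw [abs_mul, abs_neg, abs_of_pos (by positivity : 0 < 2 * h)]
    simp only [ha]
    nlinarith
  have hk := kstep TP h W hW.z1 a ha1 ha2 (rounds d k) x
  refine hk.trans ?_
  have hgoal : op h (rounds d k) (fun x => Iso (W x)) x +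
        √(k * h ^ 2) * (mL W h (rounds d k) x + (d * (2 * C)) * h) =
      op h (rounds d k) (fun x => Iso (W x) + √(k * h ^ 2) * (wf W x + (d * (2 * C)) * h)) x := by
    rw [op_add h (rounds d k) (fun x => Iso (W x)) (fun x => √(k * h ^ 2) * (wf W x + (d * (2 * C)) * h)),
      op_smul h (rounds d k) (√(k * h ^ 2)) (fun x => (wf W x + (d * (2 * C)) * h)),
      op_add h (rounds d k) (wf W) (fun _ => (d * (2 * C)) * h), op_const]
    rfl
  rw [hgoal]
  apply op_mono
  intro z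
  simp only [count_rounds]
  have hw0 := wf_nonneg (W := W) z
  have hI0 := Iso_nonneg (W z)
  have hτ := Real.sqrt_nonneg (k * h ^ 2)
  have hτ2 : √(k * h ^ 2) ^ 2 = k * h ^ 2 := Real.sq_sqrt (by positivity)
  rw [Real.sqrt_le_left (by positivity), ← Finset.mul_sum]
  have hsum : ∑ j, a j z ^ 2 ≤ h ^ 2 * (wf W z + (d * (2 * C)) * h) ^ 2 := by
    have h5 : ∑ j, a j z ^ 2 = h ^ 2 * ∑ j, (|D W j z| + 2 * C * h) ^ 2 := by
      rw [Finset.mul_sum]
      apply Finset.sum_congr rfl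
      intro j _
      simp only [ha]
      ring
    rw [h5]
    apply mul_le_mul_of_nonneg_left _ (by positivity)
    have h6 : ∑ j, (|D W j z| + 2 * C * h) ^ 2 = ∑ j, D W j z ^ 2 +
        ∑ j, (2 * (2 * C * h) * |D W j z| + (2 * C * h) ^ 2) := by
      rw [← Finset.sum_add_distrib]
      apply Finset.sum_congr rfl
      intro j _
      rw [← sq_abs (D W j z)]
      ring
    rw [h6]
    have h7 : ∑ j, D W j z ^ 2 ≤ wf W z ^ 2 := by
      rw [wf_sq]
      have : 0 ≤ Real.pi ^ 2 * Iso (W z) ^ 2 := by positivity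
      linarith
    have h8 : ∑ j, (2 * (2 * C * h) * |D W j z| + (2 * C * h) ^ 2) ≤
        ∑ _j : Fin d, (2 * (2 * C * h) * wf W z + (2 * C * h) ^ 2) := by
      apply Finset.sum_le_sum
      intro j _
      have := mul_le_mul_of_nonneg_left (D_le_wf (W := W) j z) (by positivity : 0 ≤ 2 * (2 * C * h))
      linarith
    rw [Finset.sum_const, Finset.card_univ, Fintype.card_fin, nsmul_eq_mul] at h8
    have h9 : (d:ℝ) * (2 * C * h) ^ 2 ≤ (d:ℝ) ^ 2 * (2 * C * h) ^ 2 := by
      apply mul_le_mul_of_nonneg_right _ (sq_nonneg _)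
      rcases Nat.eq_zero_or_pos d with h0 | h0
      · rw [h0]; simp
      · have : (1:ℝ) ≤ d := by exact_mod_cast h0
        nlinarith
    nlinarith
  have h10 : (k:ℝ) * ∑ j, a j z ^ 2 ≤ (√(k * h ^ 2) * (wf W z + (d * (2 * C)) * h)) ^ 2 := by
    rw [mul_pow, hτ2]
    have := mul_le_mul_of_nonneg_left hsum (Nat.cast_nonneg (α := ℝ) k)
    linarith
  have h11 : 0 ≤ Iso (W z) * (√(k * h ^ 2) * (wf W z + (d * (2 * C)) * h)) := by positivity
  nlinarith

theorem E1_bound (TP : TwoPoint) (hW : Good W) (l y H K r : ℝ) (hH : 0 ≤ H) (hK : 0 ≤ K)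
    (A1 : ∀ f : (Fin d → ℝ) → ℝ, ContDiff ℝ 1 f → Ev f → Pe f → (∀ x, 0 < f x ∧ f x < 1) →
      |av f - l| < r → y + H * (av f - l) - K * (av f - l) ^ 2 ≤ Fn f)
    (ε : ℝ) (hεr : ε < r) (hF : Fn W ≤ y + ε) (hv : |av W - l| ≤ ε)
    (hI : av (fun x => Iso (W x)) ≤ ε) :
    ∃ C, 0 ≤ C ∧ ∀ h : ℝ, 0 < h → h ≤ 1 → ∀ k : ℕ, k * h ^ 2 ≤ 1 →
      Fn W - Qf W h (rounds d k) ≤ 2 * (1 + H) * ε + 2 * K * ε ^ 2 +
        Real.pi ^ 2 * (3 * ε + k * h ^ 2 * Fn W + C * h) := by
  obtain ⟨C3, hC30, hC3⟩ := Iso_op_bound TP hW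
  obtain ⟨m0, hm00, hm0⟩ := mL_lower hW
  have hε : 0 ≤ ε := (abs_nonneg _).trans hv
  refine ⟨2 * C3 / m0 + 2 * C3 + C3 ^ 2 / m0, by positivity, fun h hh hh1 k hk => ?_⟩
  set L := rounds d k with hL
  set f := op h L W with hf
  have hfs : ContDiff ℝ 1 f := contDiff_op (n := 1) h L (cd1 hW.sm)
  have hav : av f = av W := av_op hW.sm.continuous hW.pe h L
  have hA := A1 f hfs (op_Ev h L hW.ev) (op_Pe h L hW.pe)
    (fun x => ⟨const_lt_op h L (fun y => (hW.z1 y).1) x, op_lt_const h L (fun y => (hW.z1 y).2) x⟩)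
    (by rw [hav]; exact lt_of_le_of_lt hv hεr)
  rw [hav] at hA
  set m := mL W h L with hm
  have hmp : ∀ x, 0 < m x := mL_pos hW h L
  have hmc : Continuous m := (smooth_mL hW h L).continuous
  have hmi : Continuous (fun x => (m x)⁻¹) := hmc.inv₀ fun x => (hmp x).ne'
  have hac := fun b => (smooth_aL hW h L b).continuous
  have hfc := hfs.continuous
  have hIc := continuous_Iso
  have hWc := hW.sm.continuous
  have havm : av m = Fn W := av_op (contDiff_wf hW.sm hW.z1).continuous (Pe_wf hW.pe) h L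
  -- upper bound of Fn f
  have hDf : ∀ i, D f i = aL W h L i := fun i => D_op h L (cd1 hW.sm) i
  have h1 : Fn f ≤ av (fun x => (Real.pi ^ 2 / 2) * (Iso (f x) ^ 2 * (m x)⁻¹) +
      ((1/2) * ((∑ b, aL W h L b x ^ 2) * (m x)⁻¹) + (1/2) * m x)) := by
    apply av_mono (continuous_wf hfs) (by fun_prop)
    intro x
    have h2 : wf f x ^ 2 = Real.pi ^ 2 * Iso (f x) ^ 2 + ∑ b, aL W h L b x ^ 2 := by
      rw [wf_sq]
      simp only [hDf]
    have h3 := hmp x
    have h4 : wf f x ≤ (wf f x ^ 2 + m x ^ 2) / (2 * m x) := by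
      rw [le_div_iff₀ (by positivity)]
      nlinarith [sq_nonneg (wf f x - m x)]
    refine h4.trans (le_of_eq ?_)
    rw [h2]
    field_simp
    ring
  rw [av_add (u := fun x => (Real.pi ^ 2 / 2) * (Iso (f x) ^ 2 * (m x)⁻¹))
    (v := fun x => ((1/2) * ((∑ b, aL W h L b x ^ 2) * (m x)⁻¹) + (1/2) * m x))
    (by fun_prop) (by fun_prop), av_mul_left,
    av_add (u := fun x => (1/2) * ((∑ b, aL W h L b x ^ 2) * (m x)⁻¹))
    (v := fun x => (1/2) * m x) (by fun_prop) (by fun_prop), av_mul_left, av_mul_left, havm] at h1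
  have hQ : av (fun x => (∑ b, aL W h L b x ^ 2) * (m x)⁻¹) = Qf W h L := rfl
  rw [hQ] at h1
  -- the main term
  set A := op h L (fun x => Iso (W x)) with hAdef
  have hAc : Continuous A := continuous_op h L (by fun_prop)
  have havA : av A = av (fun x => Iso (W x)) := by
    apply av_op (by fun_prop)
    intro i x
    show Iso (W (x + Pi.single i 2)) = Iso (W x)
    rw [hW.pe i x]
  set C := 2 * C3 / m0 + 2 * C3 + C3 ^ 2 / m0 with hC
  have h5 : av (fun x => Iso (f x) ^ 2 * (m x)⁻¹) ≤ av (fun x => 3 * A x + (k * h ^ 2 * m x + C * h)) := by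
    apply av_mono (by fun_prop) (by fun_prop)
    intro x
    have h6 := hC3 h hh hh1 k x
    have hmx := hmp x
    have hm0x : m0 ≤ m x := hm0 h L x
    have hA0 : 0 ≤ A x := const_le_op h L (fun y => Iso_nonneg _) x
    have hAm : A x ≤ m x := by
      apply op_mono
      intro z
      have h7 : Real.pi * Iso (W z) ≤ wf W z := by
        unfold wf
        apply Real.le_sqrt_of_sq_le
        have : 0 ≤ ∑ i, D W i z ^ 2 := Finset.sum_nonneg fun _ _ => sq_nonneg _
        nlinarith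
      have h8 := Real.pi_gt_three
      have h9 := Iso_nonneg (W z)
      nlinarith
    have hA1 : A x ≤ 1 := op_le_const h L (fun y => (Iso_le_half _).trans (by norm_num)) x
    set τ := √(k * h ^ 2) with hτ
    have hτ0 : 0 ≤ τ := Real.sqrt_nonneg _
    have hτ2 : τ ^ 2 = k * h ^ 2 := Real.sq_sqrt (by positivity)
    have hτ1 : τ ≤ 1 := by
      rw [hτ, Real.sqrt_le_one]
      exact hk
    set c := C3 * h with hc
    have hc0 : 0 ≤ c := by positivity
    have h10 : Iso (f x) ^ 2 ≤ (A x + τ * (m x + c)) ^ 2 :=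
      pow_le_pow_left₀ (Iso_nonneg _) h6 2
    show Iso (f x) ^ 2 * (m x)⁻¹ ≤ 3 * A x + (k * h ^ 2 * m x + C * h)
    rw [← div_eq_mul_inv, div_le_iff₀ hmx]
    refine h10.trans ?_
    rw [← hτ2]
    have h11 : (A x + τ * (m x + c)) ^ 2 = A x ^ 2 + 2 * τ * A x * m x + 2 * τ * A x * c +
        τ ^ 2 * m x ^ 2 + τ ^ 2 * (2 * m x * c) + τ ^ 2 * c ^ 2 := by ring
    rw [h11]
    have i1 : A x ^ 2 ≤ A x * m x := by nlinarith
    have i2 : 2 * τ * A x * m x ≤ 2 * A x * m x := by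
      have : 0 ≤ A x * m x := by positivity
      nlinarith
    have i3 : 2 * τ * A x * c ≤ 2 * (c / m0) * m x := by
      have j1 : 2 * τ * A x * c ≤ 2 * c := by
        have : τ * A x ≤ 1 := mul_le_one₀ hτ1 hA0 hA1
        nlinarith
      have j2 : c ≤ c / m0 * m x := by
        rw [div_mul_eq_mul_div, le_div_iff₀ hm00]
        exact mul_le_mul_of_nonneg_left hm0x hc0
      linarith
    have hτ21 : τ ^ 2 ≤ 1 := by nlinarith
    have i4 : τ ^ 2 * (2 * m x * c) ≤ 2 * c * m x := by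
      have : 0 ≤ 2 * m x * c := by positivity
      nlinarith
    have i5 : τ ^ 2 * c ^ 2 ≤ c ^ 2 / m0 * m x := by
      have j1 : τ ^ 2 * c ^ 2 ≤ c ^ 2 := by nlinarith [sq_nonneg c]
      have j2 : c ^ 2 ≤ c ^ 2 / m0 * m x := by
        rw [div_mul_eq_mul_div, le_div_iff₀ hm00]
        exact mul_le_mul_of_nonneg_left hm0x (sq_nonneg c)
      linarith
    have i6 : c ^ 2 / m0 * m x ≤ C3 ^ 2 / m0 * h * m x := by
      apply mul_le_mul_of_nonneg_right _ hmx.le
      rw [hc, mul_pow]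
      rw [div_mul_eq_mul_div]
      apply div_le_div_of_nonneg_right _ hm00.le
      have : h ^ 2 ≤ h := by nlinarith
      nlinarith [sq_nonneg C3]
    have e1 : (3 * A x + (τ ^ 2 * m x + C * h)) * m x = 3 * A x * m x + τ ^ 2 * m x ^ 2 +
        (2 * (c / m0) * m x + 2 * c * m x + C3 ^ 2 / m0 * h * m x) := by
      rw [hC, hc]; ring
    rw [e1]
    linarith
  rw [av_add (u := fun x => 3 * A x) (v := fun x => (k * h ^ 2 * m x + C * h))
    (by fun_prop) (by fun_prop), av_mul_left,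
    av_add (u := fun x => k * h ^ 2 * m x) (v := fun _ => C * h)
    (by fun_prop) (by fun_prop), av_mul_left, havA, havm, av_const] at h5
  have h12 : H * (av W - l) ≥ - (H * ε) := by
    have := mul_le_mul_of_nonneg_left (abs_le.1 hv).1 hH
    linarith
  have h13 : K * (av W - l) ^ 2 ≤ K * ε ^ 2 := by
    apply mul_le_mul_of_nonneg_left _ hK
    rw [← sq_abs]
    exact pow_le_pow_left₀ (abs_nonneg _) hv 2
  have h14 : Real.pi ^ 2 / 2 * av (fun x => Iso (f x) ^ 2 * (m x)⁻¹) ≤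
      Real.pi ^ 2 / 2 * (3 * ε + k * h ^ 2 * Fn W + C * h) := by
    apply mul_le_mul_of_nonneg_left _ (by positivity)
    linarith
  linarith

end Pool.Agent.H62
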