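import Pool.Agent.Helper62K1.XBds
import Pool.Agent.Helper62K1.QBound

/-!
# The inequality for a fixed almost minimiser
-/

set_option autoImplicit false

namespace Pool.Agent.H62

open MeasureTheory Set Filter Topology
open Pool.Agent.H48R3.CP (D continuous_D)
open scoped ContDiff

variable {d : ℕ} {W : (Fin d → ℝ) → ℝ}

attribute [local irreducible] Af pf th

/-- the size of the test field -/
noncomputable def Bd (κ H ρ : ℝ) : ℝ :=
  (κ * Real.tan (κ / 2) + H) + ((κ * Real.tan (κ / 2) + H) / √(ρ / 4) + 1) +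
    (((κ * Real.tan (κ / 2) + H) / √(ρ / 4) + 1) / √(ρ / 4) + 1)

/-- the bound of the loss -/
noncomputable def Eb (H K ε T N : ℝ) : ℝ :=
  2 * (1 + H) * ε + 2 * K * ε ^ 2 + Real.pi ^ 2 * (3 * ε + T * N)

theorem tan_half_nonneg {κ : ℝ} (hκ : 0 < κ) (hκπ : κ < Real.pi) : 0 ≤ κ * Real.tan (κ / 2) := by
  apply mul_nonneg hκ.le
  apply Real.tan_nonneg_of_nonneg_of_le_pi_div_two <;> linarith

theorem time_exists {h ρ T : ℝ} (hh : 0 < h) (hρ : 0 < ρ) (hT : 0 < T)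
    (hsm : 0 < T - ρ - 2 * h ^ 2) : ∃ k0 k1 : ℕ, k0 < k1 ∧ ρ ≤ k0 * h ^ 2 ∧ k1 * h ^ 2 ≤ T ∧
      T - ρ - 2 * h ^ 2 ≤ h ^ 2 * ((k1:ℝ) - k0) := by
  have hh2 : 0 < h ^ 2 := by positivity
  refine ⟨⌈ρ / h ^ 2⌉₊, ⌊T / h ^ 2⌋₊, ?_, ?_, ?_, ?_⟩
  · have h1 := Nat.ceil_lt_add_one (a := ρ / h ^ 2) (by positivity)
    have h2 := Nat.lt_floor_add_one (T / h ^ 2)
    have h3 : ρ / h ^ 2 + 1 < T / h ^ 2 - 1 := by
      rw [div_add_one hh2.ne', div_sub_one hh2.ne', div_lt_div_iff_of_pos_right hh2]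
      linarith
    have h4 : ((⌈ρ / h ^ 2⌉₊ : ℕ) : ℝ) < ((⌊T / h ^ 2⌋₊ : ℕ) : ℝ) := by linarith
    exact_mod_cast h4
  · have h1 := Nat.le_ceil (ρ / h ^ 2)
    rwa [div_le_iff₀ hh2] at h1
  · have h1 := Nat.floor_le (a := T / h ^ 2) (by positivity)
    rwa [le_div_iff₀ hh2] at h1
  · have h1 := Nat.ceil_lt_add_one (a := ρ / h ^ 2) (by positivity)
    have h2 := Nat.lt_floor_add_one (T / h ^ 2)
    have h3 : T / h ^ 2 - ρ / h ^ 2 - 2 ≤ ((⌊T / h ^ 2⌋₊ : ℕ) : ℝ) - ((⌈ρ / h ^ 2⌉₊ : ℕ) : ℝ) := by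
      linarith
    have h4 := mul_le_mul_of_nonneg_left h3 hh2.le
    have h5 : h ^ 2 * (T / h ^ 2 - ρ / h ^ 2 - 2) = T - ρ - 2 * h ^ 2 := by
      field_simp
    linarith

theorem fixed_aux (TP : TwoPoint) (hd : 0 < d) (hW : Good W) (l y H K r : ℝ) (hH : 1000 ≤ H)
    (hK : 0 ≤ K)
    (A1 : ∀ f : (Fin d → ℝ) → ℝ, ContDiff ℝ 1 f → Ev f → Pe f → (∀ x, 0 < f x ∧ f x < 1) →
      |av f - l| < r → y + H * (av f - l) - K * (av f - l) ^ 2 ≤ Fn f)
    (ε : ℝ) (hF : Fn W ≤ y + ε) (hv : |av W - l| ≤ ε)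
    (hI : av (fun x => Iso (W x)) ≤ ε)
    {κ τ ρ T s q : ℝ} (hκ : 0 < κ) (hκπ : κ < Real.pi) (hτ : 0 < τ) (hρ : 0 < ρ) (hρT : ρ < T)
    (hT : T ≤ 1) (hs : 0 < s) (hsB : s * Bd κ H ρ ≤ 1 / 2) (hr : ε + 3 * s * Bd κ H ρ < r)
    (hq : 0 < q) (CL : ℝ)
    (hCL : ∀ (h : ℝ) (l : List (Fin d)) (i : Fin d) (x : Fin d → ℝ),
      |ML W h l i x| ≤ CL * |Real.sin (Real.pi * x i)|) :
    ∃ C1 C2 h0 : ℝ, 0 ≤ C1 ∧ 0 ≤ C2 ∧ 0 < h0 ∧ ∀ h : ℝ, 0 < h → h < h0 →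
      κ ^ 2 * (Fn W - (Eb H K ε T (Fn W) + C1 * h)) +
        (1 / d) * (Fn W - 2 * (Eb H K ε T (Fn W) + C1 * h)) ≤
      (1 + (32 * (κ * Real.tan (κ / 2)) + H) * τ) *
        ((Eb H K ε T (Fn W) + C1 * h) / (T - ρ - 2 * h ^ 2) + C2 * h) +
      d * (((1 + H) * ε + K * (ε + 3 * s * Bd κ H ρ) ^ 2 +
        s ^ 2 * Bd κ H ρ ^ 2 * (4 * H + (5 * d + 4) * Fn W)) / s) +
      d * ((κ ^ 2 + (κ * Real.tan (κ / 2)) ^ 2) + (32 * (κ * Real.tan (κ / 2)) + H) / (4 * τ)) *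
        (Eb H K ε T (Fn W) + C1 * h) +
      d * (2 * (κ ^ 2 + (κ * Real.tan (κ / 2)) ^ 2) * (CL ^ 2 * q) * Fn W) := by
  have hH0 : 0 ≤ H := by linarith
  have hA0 := tan_half_nonneg hκ hκπ
  have hρ4 : 0 < √(ρ / 4) := Real.sqrt_pos.2 (by linarith)
  have hε : 0 ≤ ε := (abs_nonneg _).trans hv
  have hBd0 : 0 ≤ Bd κ H ρ := by unfold Bd; positivity
  have hN0 : 0 ≤ Fn W := Fn_nonneg W
  have hεr : ε < r := by
    have : 0 ≤ 3 * s * Bd κ H ρ := by positivity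
    linarith
  obtain ⟨C1, hC10, hC1⟩ := E1_bound TP hW l y H K r hH0 hK A1 ε hεr hF hv hI
  obtain ⟨C2, hC20, hC2⟩ := select hW
  obtain ⟨C3, hC30, hC3⟩ := X_bounds hW hκ hκπ hq hH0 ρ hρ
  -- smallness of h
  refine ⟨Real.pi ^ 2 * C1, C2, min (min 1 (1 / (C3 + 1))) (min (ρ / 2) ((T - ρ) / 4)),
    by positivity, hC20, by
      have : 0 < T - ρ := by linarith
      positivity, fun h hh hh0 => ?_⟩
  have hh1 : h < 1 := lt_of_lt_of_le hh0 ((min_le_left _ _).trans (min_le_left _ _))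
  have hhC : h < 1 / (C3 + 1) := lt_of_lt_of_le hh0 ((min_le_left _ _).trans (min_le_right _ _))
  have hhρ : h < ρ / 2 := lt_of_lt_of_le hh0 ((min_le_right _ _).trans (min_le_left _ _))
  have hhT : h < (T - ρ) / 4 := lt_of_lt_of_le hh0 ((min_le_right _ _).trans (min_le_right _ _))
  have hh2 : h ^ 2 ≤ h := by nlinarith
  have hhC3 : h * C3 ≤ 1 := by
    rw [lt_div_iff₀ (by linarith)] at hhC
    nlinarith
  have hsm : 0 < T - ρ - 2 * h ^ 2 := by linarith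
  obtain ⟨k0, k1, hk01, hk0, hk1, hk10⟩ := time_exists hh hρ (by linarith : 0 < T) hsm
  obtain ⟨k, hk0k, hkk1, hsel⟩ := hC2 h hh hh1.le k0 k1 hk01
  -- loss at time k1
  set N := Fn W with hN
  set Eh := Eb H K ε T N + Real.pi ^ 2 * C1 * h with hEh
  have hE1 : N - Qf W h (rounds d k1) ≤ Eh := by
    have h1 := hC1 h hh hh1.le k1 (hk1.trans hT)
    refine h1.trans ?_
    rw [hEh]
    unfold Eb
    have h2 : k1 * h ^ 2 * N ≤ T * N := mul_le_mul_of_nonneg_right hk1 hN0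
    have h3 : 0 ≤ Real.pi ^ 2 := by positivity
    have h4 := mul_le_mul_of_nonneg_left h2 h3
    nlinarith
  have hQk : Qf W h (rounds d k1) ≤ Qf W h (rounds d k) := by
    have e : rounds d k1 = rounds d (k1 - k) ++ rounds d k := by
      rw [← rounds_add]
      congr 1
      omega
    rw [e]
    exact Qf_anti' hW h _ _
  have hEk : N - Qf W h (rounds d k) ≤ Eh := by linarith
  have hEh0 : 0 ≤ Eh := by
    have := Qf_le hW h (rounds d k1)
    linarith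
  -- gradient term
  have hSd : ∑ i, Sd W h (rounds d k) i ≤ Eh / (T - ρ - 2 * h ^ 2) + C2 * h := by
    have hpos : 0 < h ^ 2 * ((k1:ℝ) - k0) := lt_of_lt_of_le hsm hk10
    have h1 : (∑ i, Sd W h (rounds d k) i) * (h ^ 2 * ((k1:ℝ) - k0)) ≤
        Eh + C2 * h ^ 3 * ((k1:ℝ) - k0) := hsel.trans (by linarith)
    have h2 : ∑ i, Sd W h (rounds d k) i ≤ Eh / (h ^ 2 * ((k1:ℝ) - k0)) + C2 * h := by
      have h3 : Eh / (h ^ 2 * ((k1:ℝ) - k0)) + C2 * h =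
          (Eh + C2 * h ^ 3 * ((k1:ℝ) - k0)) / (h ^ 2 * ((k1:ℝ) - k0)) := by
        have : (k1:ℝ) - k0 ≠ 0 := by
          intro h0
          rw [h0, mul_zero] at hpos
          exact lt_irrefl _ hpos
        field_simp
      rw [h3, le_div_iff₀ hpos]
      exact h1
    have h3 : Eh / (h ^ 2 * ((k1:ℝ) - k0)) ≤ Eh / (T - ρ - 2 * h ^ 2) :=
      div_le_div_of_nonneg_left hEh0 hsm hk10
    linarith
  -- the stationarity terms
  have hkρ : ρ ≤ k * h ^ 2 := by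
    have : (k0:ℝ) ≤ k := by exact_mod_cast hk0k
    nlinarith
  have hSf : ∀ i, Sf W H i (op h (rounds d k) (Th W κ q H h (rounds d k) i)) ≤
      ((1 + H) * ε + K * (ε + 3 * s * Bd κ H ρ) ^ 2 +
        s ^ 2 * Bd κ H ρ ^ 2 * (4 * H + (5 * d + 4) * N)) / s := by
    intro i
    obtain ⟨b1, b2, b3⟩ := hC3 h hh (by linarith) k hkρ i
    set X := op h (rounds d k) (Th W κ q H h (rounds d k) i) with hX
    have hXs : ContDiff ℝ ∞ X :=
      contDiff_op (n := ⊤) h _ (smooth_Th hκ hκπ hq hW h (rounds d k) i)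
    have hB1 : κ * Real.tan (κ / 2) + H ≤ Bd κ H ρ := by
      unfold Bd
      have : 0 ≤ (κ * Real.tan (κ / 2) + H) / √(ρ / 4) := by positivity
      have : 0 ≤ ((κ * Real.tan (κ / 2) + H) / √(ρ / 4) + 1) / √(ρ / 4) := by positivity
      linarith
    have hB2 : (κ * Real.tan (κ / 2) + H) / √(ρ / 4) + h * C3 ≤ Bd κ H ρ := by
      unfold Bd
      have : 0 ≤ (κ * Real.tan (κ / 2) + H) := by positivity
      have : 0 ≤ ((κ * Real.tan (κ / 2) + H) / √(ρ / 4) + 1) / √(ρ / 4) := by positivity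
      linarith
    have hB3 : ((κ * Real.tan (κ / 2) + H) / √(ρ / 4) + h * C3) / √(ρ / 4) + h * C3 ≤
        Bd κ H ρ := by
      unfold Bd
      have h1 : 0 ≤ (κ * Real.tan (κ / 2) + H) := by positivity
      have h2 : 0 ≤ (κ * Real.tan (κ / 2) + H) / √(ρ / 4) := by positivity
      have h3 : ((κ * Real.tan (κ / 2) + H) / √(ρ / 4) + h * C3) / √(ρ / 4) ≤
          ((κ * Real.tan (κ / 2) + H) / √(ρ / 4) + 1) / √(ρ / 4) :=
        div_le_div_of_nonneg_right (by linarith) hρ4.le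
      linarith
    have hst := stat l y H K r hH0 hK A1 hW.sm hW.ev hW.pe hW.z1 i hXs
      (op_Pe h _ (Pe_Th hW h (rounds d k) i))
      (fun x => by
        rw [hX, op_rf]
        have : (fun y => Th W κ q H h (rounds d k) i (rf i y)) =
          fun y => - Th W κ q H h (rounds d k) i y := funext fun y => Th_odd hW h _ i y
        rw [this, op_neg])
      (fun j hj x => by
        rw [hX, op_rf]
        congr 1
        funext y
        exact Th_even hW h _ i j hj y)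
      (Bd κ H ρ) hBd0 (fun x => (b1 x).trans hB1) (fun j x => (b2 j x).trans hB2)
      (fun j x => (b3 j x).trans hB3) ε hε hF hv s hs hsB hr
    rw [le_div_iff₀ hs]
    linarith
  have hSfsum : ∑ i, Sf W H i (op h (rounds d k) (Th W κ q H h (rounds d k) i)) ≤
      d * (((1 + H) * ε + K * (ε + 3 * s * Bd κ H ρ) ^ 2 +
        s ^ 2 * Bd κ H ρ ^ 2 * (4 * H + (5 * d + 4) * N)) / s) := by
    have h1 := Finset.sum_le_sum (s := Finset.univ) fun i (_ : i ∈ Finset.univ) => hSf i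
    rw [Finset.sum_const, Finset.card_univ, Fintype.card_fin, nsmul_eq_mul] at h1
    exact h1
  have hmain := main_ineq hW hd hκ hκπ hq hH hτ h (rounds d k) (hCL h (rounds d k))
  -- combine
  set Q := Qf W h (rounds d k) with hQ
  set Cν := 32 * (κ * Real.tan (κ / 2)) + H with hCν
  have hCν0 : 0 ≤ Cν := by positivity
  have hc1 : (1 + Cν * τ) * ∑ i, Sd W h (rounds d k) i ≤
      (1 + Cν * τ) * (Eh / (T - ρ - 2 * h ^ 2) + C2 * h) :=
    mul_le_mul_of_nonneg_left hSd (by positivity)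
  set C4 := (d:ℝ) * ((κ ^ 2 + (κ * Real.tan (κ / 2)) ^ 2) + Cν / (4 * τ)) with hC4
  have hC40 : 0 ≤ C4 := by positivity
  have hc2 : C4 * (N - Q) ≤ C4 * Eh := mul_le_mul_of_nonneg_left hEk hC40
  have hc3 : κ ^ 2 * (N - Eh) ≤ κ ^ 2 * Q := mul_le_mul_of_nonneg_left (by linarith) (sq_nonneg _)
  have hd' : (0:ℝ) < d := by exact_mod_cast hd
  have hc4 : (1 / (d:ℝ)) * (N - 2 * Eh) ≤ (1 / d) * (2 * Q - N) :=
    mul_le_mul_of_nonneg_left (by linarith) (by positivity)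
  linarith

theorem fixedW (TP : TwoPoint) (hd : 0 < d) (hW : Good W) (l y H K r : ℝ) (hH : 1000 ≤ H)
    (hK : 0 ≤ K)
    (A1 : ∀ f : (Fin d → ℝ) → ℝ, ContDiff ℝ 1 f → Ev f → Pe f → (∀ x, 0 < f x ∧ f x < 1) →
      |av f - l| < r → y + H * (av f - l) - K * (av f - l) ^ 2 ≤ Fn f)
    (ε : ℝ) (hF : Fn W ≤ y + ε) (hv : |av W - l| ≤ ε)
    (hI : av (fun x => Iso (W x)) ≤ ε)
    {κ τ ρ T s : ℝ} (hκ : 0 < κ) (hκπ : κ < Real.pi) (hτ : 0 < τ) (hρ : 0 < ρ) (hρT : ρ < T)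
    (hT : T ≤ 1) (hs : 0 < s) (hsB : s * Bd κ H ρ ≤ 1 / 2) (hr : ε + 3 * s * Bd κ H ρ < r) :
      κ ^ 2 * (Fn W - Eb H K ε T (Fn W)) +
        (1 / d) * (Fn W - 2 * Eb H K ε T (Fn W)) ≤
      (1 + (32 * (κ * Real.tan (κ / 2)) + H) * τ) * (Eb H K ε T (Fn W) / (T - ρ)) +
      d * (((1 + H) * ε + K * (ε + 3 * s * Bd κ H ρ) ^ 2 +
        s ^ 2 * Bd κ H ρ ^ 2 * (4 * H + (5 * d + 4) * Fn W)) / s) +
      d * ((κ ^ 2 + (κ * Real.tan (κ / 2)) ^ 2) + (32 * (κ * Real.tan (κ / 2)) + H) / (4 * τ)) *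
        Eb H K ε T (Fn W) := by
  obtain ⟨CL, hCL0, hCL⟩ := ML_sin hW
  set N := Fn W with hN
  set E := Eb H K ε T N with hE
  set Cν := 32 * (κ * Real.tan (κ / 2)) + H with hCν
  set G0 := κ ^ 2 + (κ * Real.tan (κ / 2)) ^ 2 with hG0
  set M := ((1 + H) * ε + K * (ε + 3 * s * Bd κ H ρ) ^ 2 +
        s ^ 2 * Bd κ H ρ ^ 2 * (4 * H + (5 * d + 4) * N)) / s with hM
  have hN0 : 0 ≤ N := Fn_nonneg W
  -- let q tend to zero
  have key : ∀ q : ℝ, 0 < q → κ ^ 2 * (N - E) + (1 / d) * (N - 2 * E) ≤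
      (1 + Cν * τ) * (E / (T - ρ)) + d * M + d * (G0 + Cν / (4 * τ)) * E +
      d * (2 * G0 * (CL ^ 2 * q) * N) := by
    intro q hq
    obtain ⟨C1, C2, h0, hC1, hC2, hh0, hmain⟩ := fixed_aux TP hd hW l y H K r hH hK A1 ε hF hv hI
      hκ hκπ hτ hρ hρT hT hs hsB hr hq CL hCL
    have hTρ : T - ρ ≠ 0 := by
      have : 0 < T - ρ := by linarith
      exact this.ne'
    have t1 : Tendsto (fun h : ℝ => κ ^ 2 * (N - (E + C1 * h)) + (1 / d) * (N - 2 * (E + C1 * h)))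
        (𝓝[>] 0) (𝓝 (κ ^ 2 * (N - E) + (1 / d) * (N - 2 * E))) := by
      have h1 : ContinuousAt (fun h : ℝ => κ ^ 2 * (N - (E + C1 * h)) +
        (1 / d) * (N - 2 * (E + C1 * h))) 0 := by fun_prop
      have h2 := h1.tendsto
      simp only [mul_zero, add_zero] at h2
      exact h2.mono_left nhdsWithin_le_nhds
    have t2 : Tendsto (fun h : ℝ => (1 + Cν * τ) * ((E + C1 * h) / (T - ρ - 2 * h ^ 2) + C2 * h) +
        d * M + d * (G0 + Cν / (4 * τ)) * (E + C1 * h) + d * (2 * G0 * (CL ^ 2 * q) * N))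
        (𝓝[>] 0) (𝓝 ((1 + Cν * τ) * (E / (T - ρ)) + d * M + d * (G0 + Cν / (4 * τ)) * E +
      d * (2 * G0 * (CL ^ 2 * q) * N))) := by
      have h1 : ContinuousAt (fun h : ℝ => (1 + Cν * τ) *
        ((E + C1 * h) / (T - ρ - 2 * h ^ 2) + C2 * h) +
        d * M + d * (G0 + Cν / (4 * τ)) * (E + C1 * h) + d * (2 * G0 * (CL ^ 2 * q) * N)) 0 := by
        have h3 : ContinuousAt (fun h : ℝ => (E + C1 * h) / (T - ρ - 2 * h ^ 2)) 0 := by
          apply ContinuousAt.div (by fun_prop) (by fun_prop)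
          simpa using hTρ
        fun_prop
      have h2 := h1.tendsto
      simp only [mul_zero, add_zero, ne_eq, OfNat.ofNat_ne_zero, not_false_eq_true, zero_pow,
        sub_zero] at h2
      exact h2.mono_left nhdsWithin_le_nhds
    apply le_of_tendsto_of_tendsto t1 t2
    have hev : ∀ᶠ h : ℝ in 𝓝[>] 0, h < h0 := by
      apply eventually_nhdsWithin_of_eventually_nhds
      exact gt_mem_nhds hh0
    filter_upwards [hev, self_mem_nhdsWithin] with h h1 h2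
    exact hmain h h2 h1
  apply le_of_forall_pos_le_add
  intro δ hδ
  have hG00 : 0 ≤ G0 := by positivity
  set Z := (d:ℝ) * (2 * G0 * CL ^ 2 * N) with hZ
  have hZ0 : 0 ≤ Z := by positivity
  have h1 := key (δ / (Z + 1)) (by positivity)
  have h2 : (d:ℝ) * (2 * G0 * (CL ^ 2 * (δ / (Z + 1))) * N) = Z * (δ / (Z + 1)) := by
    rw [hZ]; ring
  have h3 : Z * (δ / (Z + 1)) ≤ δ := by
    rw [mul_div_assoc', div_le_iff₀ (by linarith)]
    nlinarith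
  rw [h2] at h1
  linarith

end Pool.Agent.H62
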