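import Pool.Agent.Helper62K1.Defs

/-!
# Basic facts about the Gaussian isoperimetric profile
-/

set_option autoImplicit false

namespace Pool.Agent.H62

open MeasureTheory Set Filter Topology
open Pool.Agent.R755.Tr
open Pool.Agent.H460BZ (φ φ_eq φ_cont φ_nonneg)
open scoped ContDiff

theorem Iso_eq {v : ℝ} (h0 : 0 < v) (h1 : v < 1) : Iso v = φ (Ps v) := by
  unfold Iso; rw [if_pos ⟨h0, h1⟩]

theorem Iso_of_nonpos {v : ℝ} (h : v ≤ 0) : Iso v = 0 := by
  unfold Iso; rw [if_neg]; rintro ⟨h1, _⟩; linarith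

theorem Iso_of_one_le {v : ℝ} (h : 1 ≤ v) : Iso v = 0 := by
  unfold Iso; rw [if_neg]; rintro ⟨_, h1⟩; linarith

theorem Iso_zero : Iso 0 = 0 := Iso_of_nonpos le_rfl

theorem Iso_one : Iso 1 = 0 := Iso_of_one_le le_rfl

theorem Iso_pos {v : ℝ} (h0 : 0 < v) (h1 : v < 1) : 0 < Iso v := by
  rw [Iso_eq h0 h1]; exact φ_pos _

theorem Iso_nonneg (v : ℝ) : 0 ≤ Iso v := by
  unfold Iso
  split_ifs with h
  · exact φ_nonneg _
  · exact le_rfl

theorem φ_le_half (x : ℝ) : φ x ≤ 1 / 2 := by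
  rw [φ_eq]
  have h1 : (2:ℝ) ≤ √(2 * Real.pi) := by
    apply Real.le_sqrt_of_sq_le
    have := Real.pi_gt_three
    linarith
  have h2 : (√(2 * Real.pi))⁻¹ ≤ 1 / 2 := by
    rw [one_div]
    exact inv_anti₀ (by norm_num) h1
  have h3 : Real.exp (-(x ^ 2 / 2)) ≤ 1 := Real.exp_le_one_iff.2 (by nlinarith [sq_nonneg x])
  have h4 : 0 < Real.exp (-(x ^ 2 / 2)) := Real.exp_pos _
  have h5 : 0 ≤ (√(2 * Real.pi))⁻¹ := by positivity
  nlinarith

theorem Iso_le_half (v : ℝ) : Iso v ≤ 1 / 2 := by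
  unfold Iso
  split_ifs with h
  · exact φ_le_half _
  · norm_num

theorem Iso_Ph (x : ℝ) : Iso (Ph x) = φ x := by
  rw [Iso_eq (Ph_pos x) (Ph_lt_one x), Ps_Ph]

theorem hasDerivAt_Iso {v : ℝ} (h0 : 0 < v) (h1 : v < 1) : HasDerivAt Iso (-(Ps v)) v := by
  have h2 : HasDerivAt (fun v => φ (Ps v)) (-(Ps v * φ (Ps v)) * (φ (Ps v))⁻¹) v :=
    (φ_deriv (Ps v)).comp v (Ps_deriv h0 h1)
  have h3 : -(Ps v * φ (Ps v)) * (φ (Ps v))⁻¹ = -(Ps v) := by
    have := (φ_pos (Ps v)).ne'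
    field_simp
  rw [h3] at h2
  refine h2.congr_of_eventuallyEq ?_
  filter_upwards [Ioo_mem_nhds h0 h1] with y hy
  exact Iso_eq hy.1 hy.2

theorem hasDerivAt_Ps {v : ℝ} (h0 : 0 < v) (h1 : v < 1) : HasDerivAt Ps (1 / Iso v) v := by
  rw [Iso_eq h0 h1, one_div]; exact Ps_deriv h0 h1

theorem Ps_symm {v : ℝ} (h0 : 0 < v) (h1 : v < 1) : Ps (1 - v) = -(Ps v) := by
  apply Ph_strict.injective
  rw [Ph_Ps (by linarith) (by linarith), Ph_neg, Ph_Ps h0 h1]

theorem Iso_symm (v : ℝ) : Iso (1 - v) = Iso v := by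
  by_cases h : 0 < v ∧ v < 1
  · rw [Iso_eq h.1 h.2, Iso_eq (by linarith [h.2]) (by linarith [h.1]), Ps_symm h.1 h.2, φ_even]
  · have h2 : ¬ (0 < 1 - v ∧ 1 - v < 1) := by
      rintro ⟨h3, h4⟩; exact h ⟨by linarith, by linarith⟩
    unfold Iso
    rw [if_neg h, if_neg h2]

theorem φ_tendsto_atBot : Tendsto φ atBot (𝓝 0) := by
  have h1 : φ = fun x => (Real.sqrt (2 * Real.pi))⁻¹ * Real.exp (-(x ^ 2 / 2)) := funext φ_eq
  rw [h1]
  have h2 : Tendsto (fun x : ℝ => x ^ 2 / 2) atBot atTop := by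
    apply Tendsto.atTop_div_const (by norm_num)
    have : (fun x : ℝ => x ^ 2) = fun x => x * x := by funext x; ring
    rw [this]
    exact tendsto_id.atBot_mul_atBot₀ tendsto_id
  have h3 : Tendsto (fun x : ℝ => Real.exp (-(x ^ 2 / 2))) atBot (𝓝 0) :=
    Real.tendsto_exp_neg_atTop_nhds_zero.comp h2
  simpa using h3.const_mul (Real.sqrt (2 * Real.pi))⁻¹

theorem Iso_contAt_zero : ContinuousAt Iso 0 := by
  rw [Metric.continuousAt_iff]
  intro ε hε
  have h1 := (φ_tendsto_atBot.eventually (gt_mem_nhds hε))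
  rw [eventually_atBot] at h1
  obtain ⟨x, hx⟩ := h1
  refine ⟨Ph x, Ph_pos x, ?_⟩
  intro v hv
  rw [Iso_zero, Real.dist_eq, sub_zero, abs_of_nonneg (Iso_nonneg v)]
  rw [Real.dist_eq, sub_zero, abs_lt] at hv
  rcases le_or_gt v 0 with h | h
  · rw [Iso_of_nonpos h]; exact hε
  have h2 : v < 1 := hv.2.trans (Ph_lt_one x)
  rw [Iso_eq h h2]
  exact hx _ ((lt_Ps_iff h h2).2 hv.2).le

theorem continuous_Iso : Continuous Iso := by
  rw [continuous_iff_continuousAt]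
  intro v
  rcases lt_trichotomy v 0 with h | h | h
  · have : Iso =ᶠ[𝓝 v] fun _ => 0 := by
      filter_upwards [Iio_mem_nhds h] with y hy
      exact Iso_of_nonpos (le_of_lt hy)
    exact (continuousAt_const).congr this.symm
  · rw [h]; exact Iso_contAt_zero
  rcases lt_trichotomy v 1 with h' | h' | h'
  · exact (hasDerivAt_Iso h h').continuousAt
  · have h1 : Iso = fun v => Iso (1 - v) := funext fun v => (Iso_symm v).symm
    rw [h1]
    have h2 : ContinuousAt (fun v : ℝ => 1 - v) v := by fun_prop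
    apply ContinuousAt.comp (g := Iso) _ h2
    rw [h']
    simpa using Iso_contAt_zero
  · have : Iso =ᶠ[𝓝 v] fun _ => 0 := by
      filter_upwards [Ioi_mem_nhds h'] with y hy
      exact Iso_of_one_le (le_of_lt hy)
    exact (continuousAt_const).congr this.symm

theorem contDiffOn_aux (n : ℕ) :
    ContDiffOn ℝ n Iso (Ioo 0 1) ∧ ContDiffOn ℝ n Ps (Ioo 0 1) := by
  induction n with
  | zero =>
    constructor
    · exact contDiffOn_zero.2 continuous_Iso.continuousOn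
    · refine contDiffOn_zero.2 fun v hv => (Ps_contAt hv.1 hv.2).continuousWithinAt
  | succ n ih =>
    constructor
    · push_cast
      rw [contDiffOn_succ_iff_deriv_of_isOpen isOpen_Ioo]
      refine ⟨fun v hv => (hasDerivAt_Iso hv.1 hv.2).differentiableAt.differentiableWithinAt,
        by simp, ?_⟩
      refine ih.2.neg.congr fun v hv => ?_
      rw [(hasDerivAt_Iso hv.1 hv.2).deriv]
    · push_cast
      rw [contDiffOn_succ_iff_deriv_of_isOpen isOpen_Ioo]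
      refine ⟨fun v hv => (hasDerivAt_Ps hv.1 hv.2).differentiableAt.differentiableWithinAt,
        by simp, ?_⟩
      refine (ih.1.inv fun v hv => (Iso_pos hv.1 hv.2).ne').congr fun v hv => ?_
      rw [(hasDerivAt_Ps hv.1 hv.2).deriv, one_div]
      rfl

theorem contDiffOn_Iso : ContDiffOn ℝ ∞ Iso (Ioo 0 1) :=
  contDiffOn_infty.2 fun n => (contDiffOn_aux n).1

theorem contDiffOn_Ps : ContDiffOn ℝ ∞ Ps (Ioo 0 1) :=
  contDiffOn_infty.2 fun n => (contDiffOn_aux n).2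

theorem contDiff_Iso_comp {d : ℕ} {f : (Fin d → ℝ) → ℝ} (hf : ContDiff ℝ ∞ f)
    (h01 : ∀ x, 0 < f x ∧ f x < 1) : ContDiff ℝ ∞ (fun x => Iso (f x)) := by
  rw [← contDiffOn_univ]
  exact contDiffOn_Iso.comp hf.contDiffOn fun x _ => h01 x

end Pool.Agent.H62
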