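import Pool.Agent.Helper62K1.Core

/-!
# The first variation at averaged fields
-/

set_option autoImplicit false

namespace Pool.Agent.H62

open MeasureTheory Set Filter Topology
open Pool.Agent.H48R3.CP (D continuous_D)
open scoped ContDiff

variable {d : ℕ} {W : (Fin d → ℝ) → ℝ}

/-- the weight functions -/
noncomputable def Rj (W : (Fin d → ℝ) → ℝ) (i j : Fin d) (x : Fin d → ℝ) : ℝ :=
  D W i x * D W j x / wf W x

theorem kern_pt (hW : Good W) (h : ℝ) (l : List (Fin d)) (i : Fin d) (ξ : Fin d → ℝ)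
    (x : Fin d → ℝ) :
    |∑ j, op h l (Rj W i j) x * ξ j - mL W h l x * (ML W h l i x * ∑ j, ML W h l j x * ξ j)| ≤
      mL W h l x * (1 - ∑ j, ML W h l j x ^ 2) * √(∑ j, ξ j ^ 2) := by
  set c : Fin d → ℝ := fun j => ML W h l j x with hc
  set m := mL W h l x with hm
  have hmp : 0 < m := mL_pos hW h l x
  have ha : ∀ j, aL W h l j x = m * c j := fun j => (mul_ML hW h l j x).symm
  -- the function under the average
  set Fz : (Fin d → ℝ) → ℝ := fun z => ∑ j, ξ j * ((1 * Rj W i j z + (- c j) * D W i z) +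
      ((- c i) * D W j z + (c i * c j) * wf W z)) with hFz
  have hop : op h l Fz x = ∑ j, op h l (Rj W i j) x * ξ j -
      m * (c i * ∑ j, c j * ξ j) := by
    have e1 : op h l Fz = fun z => ∑ j, ξ j * ((1 * op h l (Rj W i j) z +
        (- c j) * op h l (D W i) z) + ((- c i) * op h l (D W j) z +
        (c i * c j) * op h l (wf W) z)) := by
      rw [hFz, op_sum h l Finset.univ (fun j z => ξ j * ((1 * Rj W i j z + (- c j) * D W i z) +
        ((- c i) * D W j z + (c i * c j) * wf W z)))]
      funext z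
      apply Finset.sum_congr rfl
      intro j _
      rw [op_smul h l (ξ j) (fun z => ((1 * Rj W i j z + (- c j) * D W i z) +
        ((- c i) * D W j z + (c i * c j) * wf W z))),
        op_add h l (fun z => (1 * Rj W i j z + (- c j) * D W i z))
          (fun z => ((- c i) * D W j z + (c i * c j) * wf W z)),
        op_lin h l 1 (- c j) (Rj W i j) (D W i), op_lin h l (- c i) (c i * c j) (D W j) (wf W)]
    rw [e1]
    simp only
    have e2 : ∀ j, op h l (D W j) x = m * c j := ha
    have e3 : op h l (wf W) x = m := rfl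
    simp only [e2, e3]
    rw [Finset.mul_sum, Finset.mul_sum, ← Finset.sum_sub_distrib]
    apply Finset.sum_congr rfl
    intro j _
    ring
  rw [← hop]
  set T := √(∑ j, ξ j ^ 2) with hT
  have hT0 : 0 ≤ T := Real.sqrt_nonneg _
  -- comparison function
  set Gz : (Fin d → ℝ) → ℝ := fun z => T * (((1 + ∑ j, c j ^ 2) * wf W z) +
      (-2) * ∑ j, c j * D W j z) with hGz
  have hGop : op h l Gz x = m * (1 - ∑ j, c j ^ 2) * T := by
    have e1 : op h l Gz = fun z => T * (((1 + ∑ j, c j ^ 2) * op h l (wf W) z) +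
        (-2) * ∑ j, c j * op h l (D W j) z) := by
      rw [hGz, op_smul h l T (fun z => (((1 + ∑ j, c j ^ 2) * wf W z) +
        (-2) * ∑ j, c j * D W j z)),
        op_lin h l (1 + ∑ j, c j ^ 2) (-2) (wf W) (fun z => ∑ j, c j * D W j z)]
      rw [op_sum h l Finset.univ (fun j z => c j * D W j z)]
      funext z
      simp only [op_smul h l]
    rw [e1]
    simp only
    have e2 : ∀ j, op h l (D W j) x = m * c j := ha
    have e3 : op h l (wf W) x = m := rfl
    simp only [e2, e3]
    have e4 : ∑ j, c j * (m * c j) = m * ∑ j, c j ^ 2 := by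
      rw [Finset.mul_sum]
      apply Finset.sum_congr rfl
      intro j _
      ring
    rw [e4]
    ring
  rw [← hGop]
  refine (abs_op_le h l Fz x).trans (op_mono h l (fun z => ?_) x)
  -- pointwise estimate
  have hw := wf_pos hW.z1 z
  set w := wf W z with hwdef
  set N : Fin d → ℝ := fun j => D W j z / w with hN
  have hNe : ∀ j, D W j z = w * N j := fun j => by
    simp only [hN]; field_simp
  have hF1 : Fz z = w * ((N i - c i) * ∑ j, (N j - c j) * ξ j) := by
    simp only [hFz, Rj]
    rw [← hwdef]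
    simp only [hNe]
    rw [Finset.mul_sum, Finset.mul_sum]
    apply Finset.sum_congr rfl
    intro j _
    field_simp
    ring
  have hcs : |∑ j, (N j - c j) * ξ j| ≤ √(∑ j, (N j - c j) ^ 2) * T := by
    rw [hT, ← Real.sqrt_mul (Finset.sum_nonneg fun _ _ => sq_nonneg _)]
    exact Real.abs_le_sqrt (Finset.sum_mul_sq_le_sq_mul_sq _ _ _)
  set V := √(∑ j, (N j - c j) ^ 2) with hV
  have hV0 : 0 ≤ V := Real.sqrt_nonneg _
  have hV2 : V ^ 2 = ∑ j, (N j - c j) ^ 2 :=
    Real.sq_sqrt (Finset.sum_nonneg fun _ _ => sq_nonneg _)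
  have hNi : |N i - c i| ≤ V := by
    apply Real.abs_le_sqrt
    exact Finset.single_le_sum (f := fun j => (N j - c j) ^ 2) (fun _ _ => sq_nonneg _)
      (Finset.mem_univ i)
  have h1 : |Fz z| ≤ w * (V ^ 2 * T) := by
    rw [hF1, abs_mul, abs_of_pos hw, abs_mul]
    apply mul_le_mul_of_nonneg_left _ hw.le
    calc |N i - c i| * |∑ j, (N j - c j) * ξ j| ≤ V * (V * T) :=
          mul_le_mul hNi hcs (abs_nonneg _) hV0
      _ = _ := by ring
  refine h1.trans ?_
  have h2 : w * V ^ 2 ≤ (1 + ∑ j, c j ^ 2) * w + (-2) * ∑ j, c j * D W j z := by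
    have hN1 : ∑ j, N j ^ 2 ≤ 1 := by
      have h3 := wf_sq (W := W) z
      rw [← hwdef] at h3
      have h4 : ∑ j, D W j z ^ 2 ≤ w ^ 2 := by
        have : 0 ≤ Real.pi ^ 2 * Iso (W z) ^ 2 := by positivity
        linarith
      simp only [hNe, mul_pow] at h4
      rw [← Finset.mul_sum] at h4
      have h5 : 0 < w ^ 2 := by positivity
      by_contra hcon
      push Not at hcon
      nlinarith
    have h6 : w * V ^ 2 = w * ∑ j, N j ^ 2 + (∑ j, c j ^ 2) * w + (-2) * ∑ j, c j * D W j z := by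
      rw [hV2]
      simp only [hNe]
      rw [Finset.mul_sum, Finset.mul_sum, Finset.mul_sum, Finset.sum_mul,
        ← Finset.sum_add_distrib, ← Finset.sum_add_distrib]
      apply Finset.sum_congr rfl
      intro j _
      ring
    rw [h6]
    nlinarith
  simp only [hGz]
  rw [← hwdef]
  nlinarith [mul_le_mul_of_nonneg_left h2 hT0]

theorem Rj_cont (hW : Good W) (i j : Fin d) : Continuous (Rj W i j) := by
  have h1 := continuous_D W (cd1 hW.sm) i
  have h2 := continuous_D W (cd1 hW.sm) j
  have h3 := continuous_wf (cd1 hW.sm)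
  unfold Rj
  exact (h1.mul h2).div h3 fun x => (wf_pos hW.z1 x).ne'

theorem Rj_Pe (hW : Good W) (i j : Fin d) : Pe (Rj W i j) := by
  intro k x
  unfold Rj
  rw [Pe_D hW.pe i k x, Pe_D hW.pe j k x, Pe_wf hW.pe k x]

theorem kern (hW : Good W) (h : ℝ) (l : List (Fin d)) (H : ℝ) (i : Fin d)
    {Θ : (Fin d → ℝ) → ℝ} (hΘ : ContDiff ℝ ∞ Θ) (hΘp : Pe Θ) :
    av (fun x => mL W h l x * (D Θ i x - ML W h l i x * ∑ j, ML W h l j x * D Θ j x +
        H * ML W h l i x * Θ x)) ≤
      Sf W H i (op h l Θ) +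
      av (fun x => mL W h l x * (1 - ∑ j, ML W h l j x ^ 2) * √(∑ j, D Θ j x ^ 2)) := by
  have hΘ1 := cd1 hΘ
  have hΘc := hΘ.continuous
  have hDΘ := fun j => continuous_D Θ hΘ1 j
  have hmc := (smooth_mL hW h l).continuous
  have hMc := fun j => (smooth_ML hW h l j).continuous
  have hRc := fun j => Rj_cont hW i j
  have hopR := fun j => continuous_op h l (hRc j)
  have hac := (smooth_aL hW h l i).continuous
  have hwc := continuous_wf (cd1 hW.sm)
  have hDW := continuous_D W (cd1 hW.sm) i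
  -- rewrite Sf
  have h1 : Sf W H i (op h l Θ) = av (fun x => mL W h l x * D Θ i x) -
      ∑ j, av (fun x => op h l (Rj W i j) x * D Θ j x) + H * av (fun x => aL W h l i x * Θ x) := by
    unfold Sf
    rw [D_op h l hΘ1 i, av_mul_op hwc (hDΘ i) (Pe_wf hW.pe) (Pe_D hΘp i) h l,
      av_mul_op hDW hΘc (Pe_D hW.pe i) hΘp h l]
    have h2 : ∀ j, av (fun x => D W i x * D W j x / wf W x * D (op h l Θ) j x) =
        av (fun x => op h l (Rj W i j) x * D Θ j x) := by
      intro j
      rw [D_op h l hΘ1 j]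
      exact av_mul_op (hRc j) (hDΘ j) (Rj_Pe hW i j) (Pe_D hΘp j) h l
    simp only [h2]
    rfl
  rw [h1]
  have h3 : ∑ j, av (fun x => op h l (Rj W i j) x * D Θ j x) =
      av (fun x => ∑ j, op h l (Rj W i j) x * D Θ j x) := by
    rw [av_sum Finset.univ (u := fun j x => op h l (Rj W i j) x * D Θ j x)
      (fun j => (hopR j).mul (hDΘ j))]
  rw [h3, ← av_mul_left]
  have hc1 : Continuous (fun x => ∑ j, op h l (Rj W i j) x * D Θ j x) := by fun_prop
  have h4 : av (fun x => mL W h l x * D Θ i x) -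
      av (fun x => ∑ j, op h l (Rj W i j) x * D Θ j x) +
      av (fun x => H * (aL W h l i x * Θ x)) +
      av (fun x => mL W h l x * (1 - ∑ j, ML W h l j x ^ 2) * √(∑ j, D Θ j x ^ 2)) =
      av (fun x => mL W h l x * D Θ i x - (∑ j, op h l (Rj W i j) x * D Θ j x) +
        H * (aL W h l i x * Θ x) +
        mL W h l x * (1 - ∑ j, ML W h l j x ^ 2) * √(∑ j, D Θ j x ^ 2)) := by
    rw [av_add (u := fun x => mL W h l x * D Θ i x - (∑ j, op h l (Rj W i j) x * D Θ j x) +
        H * (aL W h l i x * Θ x)) (v := fun x => mL W h l x * (1 - ∑ j, ML W h l j x ^ 2) *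
        √(∑ j, D Θ j x ^ 2)) (by fun_prop) (by fun_prop),
      av_add (u := fun x => mL W h l x * D Θ i x - (∑ j, op h l (Rj W i j) x * D Θ j x))
        (v := fun x => H * (aL W h l i x * Θ x)) (by fun_prop) (by fun_prop),
      av_sub (u := fun x => mL W h l x * D Θ i x)
        (v := fun x => ∑ j, op h l (Rj W i j) x * D Θ j x) (by fun_prop) (by fun_prop)]
  rw [h4]
  apply av_mono (by fun_prop) (by fun_prop)
  intro x
  have h5 := kern_pt hW h l i (fun j => D Θ j x) x
  have h6 := (abs_le.1 h5).2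
  have h7 := mul_ML hW h l i x
  rw [← h7]
  nlinarith

end Pool.Agent.H62
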