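import Pool.Agent.Helper62K1.Theta

/-!
# The main inequality
-/

set_option autoImplicit false

namespace Pool.Agent.H62

open MeasureTheory Set Filter Topology
open Pool.Agent.H48R3.CP (D continuous_D)
open scoped ContDiff

variable {d : ℕ} {W : (Fin d → ℝ) → ℝ}

attribute [local irreducible] Af pf th

theorem av_mL (hW : Good W) (h : ℝ) (l : List (Fin d)) : av (mL W h l) = Fn W :=
  av_op (contDiff_wf hW.sm hW.z1).continuous (Pe_wf hW.pe) h l

theorem Qf_eq (hW : Good W) (h : ℝ) (l : List (Fin d)) :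
    Qf W h l = av (fun x => mL W h l x * ∑ b, ML W h l b x ^ 2) := by
  unfold Qf
  congr 1
  funext x
  have := (mL_pos hW h l x).ne'
  unfold ML
  simp only [mul_pow]
  rw [← Finset.sum_mul]
  field_simp

/-- norm of the gradient of the test function -/
theorem grad_Th (hW : Good W) {κ q H : ℝ} (hκ : 0 < κ) (hκπ : κ < Real.pi) (hq : 0 < q)
    (hH : 0 ≤ H) (h : ℝ) (l : List (Fin d)) (i : Fin d) (x : Fin d → ℝ) :
    √(∑ j, D (Th W κ q H h l i) j x ^ 2) ≤
      (κ ^ 2 + (κ * Real.tan (κ / 2)) ^ 2) * (1 + pf q (x i)) * et (ML W h l i x) +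
      (32 * (κ * Real.tan (κ / 2)) + H) * √(∑ j, D (ML W h l i) j x ^ 2) := by
  set A0 := κ * Real.tan (κ / 2) with hA0
  have hA := Af_bound (q := q) hκ hκπ (x i)
  have hM := ML_sq_le hW h l i x
  have hp := pf_nonneg hq (x i)
  have het := et_nonneg (ML W h l i x)
  set α := (κ ^ 2 + Af κ q (x i) ^ 2) * (1 - pf q (x i)) * et (ML W h l i x) with hα
  set β := Af κ q (x i) * et' (ML W h l i x) + H * be' (ML W h l i x) with hβ
  set g : Fin d → ℝ := fun j => D (ML W h l i) j x with hg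
  have hA00 : 0 ≤ A0 := (abs_nonneg _).trans hA
  have hA2 : Af κ q (x i) ^ 2 ≤ A0 ^ 2 := by
    rw [← sq_abs]
    exact pow_le_pow_left₀ (abs_nonneg _) hA 2
  have hα1 : |α| ≤ (κ ^ 2 + A0 ^ 2) * (1 + pf q (x i)) * et (ML W h l i x) := by
    rw [hα, abs_mul, abs_mul, abs_of_nonneg het, abs_of_nonneg (by positivity :
      0 ≤ κ ^ 2 + Af κ q (x i) ^ 2)]
    apply mul_le_mul_of_nonneg_right _ het
    apply mul_le_mul (by linarith) _ (abs_nonneg _) (by positivity)
    rw [abs_le]
    constructor <;> linarith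
  have hβ1 : |β| ≤ 32 * A0 + H := by
    have h1 := et'_le hM
    have h2 := be'_le hM
    rw [hβ]
    refine (abs_add_le _ _).trans (add_le_add ?_ ?_)
    · rw [abs_mul]
      have := mul_le_mul hA h1 (abs_nonneg _) hA00
      linarith
    · rw [abs_mul, abs_of_nonneg hH]
      nlinarith
  have h1 : ∀ j, D (Th W κ q H h l i) j x = (if j = i then α else 0) + β * g j := fun j =>
    D_Th hκ hκπ hq hW h l i j x
  simp only [h1]
  -- triangle inequality
  set V := √(∑ j, g j ^ 2) with hV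
  have hV0 : 0 ≤ V := Real.sqrt_nonneg _
  have hV2 : V ^ 2 = ∑ j, g j ^ 2 := Real.sq_sqrt (Finset.sum_nonneg fun _ _ => sq_nonneg _)
  have hgi : |g i| ≤ V := by
    apply Real.abs_le_sqrt
    exact Finset.single_le_sum (f := fun j => g j ^ 2) (fun _ _ => sq_nonneg _)
      (Finset.mem_univ i)
  have h2 : √(∑ j, ((if j = i then α else 0) + β * g j) ^ 2) ≤ |α| + |β| * V := by
    rw [Real.sqrt_le_left (by positivity)]
    have h3 : ∑ j, ((if j = i then α else 0) + β * g j) ^ 2 =
        α ^ 2 + 2 * α * β * g i + β ^ 2 * V ^ 2 := by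
      have h4 : ∀ j, ((if j = i then α else 0) + β * g j) ^ 2 =
          (if j = i then α ^ 2 + 2 * α * β * g j else 0) + β ^ 2 * g j ^ 2 := by
        intro j
        split_ifs <;> ring
      simp only [h4]
      rw [Finset.sum_add_distrib, ← Finset.mul_sum, hV2]
      simp
    rw [h3]
    have h5 : α * β * g i ≤ |α| * |β| * V := by
      calc α * β * g i ≤ |α * β * g i| := le_abs_self _
        _ = |α| * |β| * |g i| := by rw [abs_mul, abs_mul]
        _ ≤ _ := mul_le_mul_of_nonneg_left hgi (by positivity)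
    have h6 : (|α| + |β| * V) ^ 2 = α ^ 2 + 2 * (|α| * |β| * V) + β ^ 2 * V ^ 2 := by
      rw [← sq_abs α, ← sq_abs β]; ring
    rw [h6]
    linarith
  refine h2.trans ?_
  have h7 : |β| * V ≤ (32 * A0 + H) * V := mul_le_mul_of_nonneg_right hβ1 hV0
  linarith

theorem main_one (hW : Good W) {κ q H τ CL : ℝ} (hκ : 0 < κ) (hκπ : κ < Real.pi) (hq : 0 < q)
    (hH : 1000 ≤ H) (hτ : 0 < τ) (h : ℝ) (l : List (Fin d)) (i : Fin d)
    (hCL : ∀ x, |ML W h l i x| ≤ CL * |Real.sin (Real.pi * x i)|) :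
    av (fun x => mL W h l x * (κ ^ 2 * ML W h l i x ^ 2 + ML W h l i x ^ 4)) ≤
      (1 + (32 * (κ * Real.tan (κ / 2)) + H) * τ) *
        av (fun x => mL W h l x * ∑ j, D (ML W h l i) j x ^ 2) +
      Sf W H i (op h l (Th W κ q H h l i)) +
      ((κ ^ 2 + (κ * Real.tan (κ / 2)) ^ 2) + (32 * (κ * Real.tan (κ / 2)) + H) / (4 * τ)) *
        (Fn W - Qf W h l) +
      2 * (κ ^ 2 + (κ * Real.tan (κ / 2)) ^ 2) * (CL ^ 2 * q) * Fn W := by
  set A0 := κ * Real.tan (κ / 2) with hA0
  set G0 := κ ^ 2 + A0 ^ 2 with hG0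
  set Cν := 32 * A0 + H with hCν
  have hA00 : 0 ≤ A0 := (abs_nonneg _).trans (Af_bound (q := q) hκ hκπ 0)
  have hG00 : 0 ≤ G0 := by positivity
  have hCν0 : 0 ≤ Cν := by positivity
  have hsM := smooth_ML hW h l
  have hMc := fun j => (hsM j).continuous
  have hDM := fun j => continuous_D _ (cd1 (hsM i)) j
  have hmc := (smooth_mL hW h l).continuous
  have hmp := mL_pos hW h l
  have hsT := smooth_Th (H := H) hκ hκπ hq hW h l i
  have hTc := hsT.continuous
  have hDT := fun j => continuous_D _ (cd1 hsT) j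
  have hκ10 : κ ^ 2 ≤ 10 := by
    have h1 := Real.pi_lt_d2
    nlinarith
  have hk := kern hW h l H i hsT (Pe_Th hW h l i)
  set N := Fn W with hN
  have havm : av (mL W h l) = N := av_mL hW h l
  -- the pointwise bound of the error function
  have hpM : ∀ x, pf q (x i) * et (ML W h l i x) ≤ CL ^ 2 * q := by
    intro x
    have h1 := et_le_sq (ML_sq_le hW h l i x)
    have h2 := pf_mul_sin hq (x i)
    have h3 := pf_nonneg hq (x i)
    have h4 : ML W h l i x ^ 2 ≤ CL ^ 2 * Real.sin (Real.pi * x i) ^ 2 := by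
      rw [← sq_abs (ML W h l i x), ← sq_abs (Real.sin (Real.pi * x i)), ← mul_pow]
      exact pow_le_pow_left₀ (abs_nonneg _) (hCL x) 2
    calc pf q (x i) * et (ML W h l i x) ≤ pf q (x i) * (CL ^ 2 * Real.sin (Real.pi * x i) ^ 2) :=
          mul_le_mul_of_nonneg_left (h1.trans h4) h3
      _ = CL ^ 2 * (pf q (x i) * Real.sin (Real.pi * x i) ^ 2) := by ring
      _ ≤ CL ^ 2 * q := mul_le_mul_of_nonneg_left h2 (sq_nonneg _)
  have hA : ∀ x : Fin d → ℝ, Af κ q (x i) ^ 2 ≤ A0 ^ 2 := by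
    intro x
    rw [← sq_abs]
    exact pow_le_pow_left₀ (abs_nonneg _) (Af_bound (q := q) hκ hκπ (x i)) 2
  -- first inequality
  have h1 : av (fun x => mL W h l x * (κ ^ 2 * ML W h l i x ^ 2 + ML W h l i x ^ 4)) ≤
      av (fun x => mL W h l x * ∑ j, D (ML W h l i) j x ^ 2) +
      av (fun x => mL W h l x * (D (Th W κ q H h l i) i x -
        ML W h l i x * ∑ j, ML W h l j x * D (Th W κ q H h l i) j x +
        H * ML W h l i x * Th W κ q H h l i x)) + G0 * (CL ^ 2 * q) * N := by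
    rw [← havm, ← av_mul_left, ← av_add (by fun_prop) (by fun_prop),
      ← av_add (by fun_prop) (by fun_prop)]
    apply av_mono (by fun_prop) (by fun_prop)
    intro x
    have h2 := hj i (fun j => ML W h l j x) (fun j => D (ML W h l i) j x) (Af κ q (x i)) H
      (κ ^ 2) (sum_ML_sq hW h l x) hH (sq_nonneg κ) hκ10
    have h3 : D (Th W κ q H h l i) i x -
        ML W h l i x * ∑ j, ML W h l j x * D (Th W κ q H h l i) j x +
        H * ML W h l i x * Th W κ q H h l i x =
        (κ ^ 2 + Af κ q (x i) ^ 2) * (1 - pf q (x i)) * et (ML W h l i x) *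
          (1 - ML W h l i x ^ 2) +
        (Af κ q (x i) * et' (ML W h l i x) + H * be' (ML W h l i x)) *
          (D (ML W h l i) i x - ML W h l i x * ∑ j, ML W h l j x * D (ML W h l i) j x) +
        H * ML W h l i x * (Af κ q (x i) * et (ML W h l i x) + H * be (ML W h l i x)) := by
      have h4 : ∀ j, D (Th W κ q H h l i) j x = _ := fun j => D_Th hκ hκπ hq hW h l i j x
      have h5 : ∑ j, ML W h l j x * D (Th W κ q H h l i) j x =
          ML W h l i x * ((κ ^ 2 + Af κ q (x i) ^ 2) * (1 - pf q (x i)) * et (ML W h l i x)) +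
          (Af κ q (x i) * et' (ML W h l i x) + H * be' (ML W h l i x)) *
            ∑ j, ML W h l j x * D (ML W h l i) j x := by
        simp only [h4, mul_add]
        rw [Finset.sum_add_distrib]
        congr 1
        · simp
        · rw [Finset.mul_sum]
          apply Finset.sum_congr rfl
          intro j _
          ring
      rw [h5, h4 i, if_pos rfl]
      unfold Th
      ring
    rw [h3]
    have hm := hmp x
    have hp := hpM x
    have hM := ML_sq_le hW h l i x
    have hAx := hA x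
    have h6 : (κ ^ 2 + Af κ q (x i) ^ 2) * (pf q (x i) * et (ML W h l i x)) *
        (1 - ML W h l i x ^ 2) ≤ G0 * (CL ^ 2 * q) := by
      have h7 : 0 ≤ pf q (x i) * et (ML W h l i x) :=
        mul_nonneg (pf_nonneg hq _) (et_nonneg _)
      have h8 : (κ ^ 2 + Af κ q (x i) ^ 2) * (pf q (x i) * et (ML W h l i x)) ≤
          G0 * (CL ^ 2 * q) := mul_le_mul (by rw [hG0]; linarith) hp h7 hG00
      have h9 : 0 ≤ (κ ^ 2 + Af κ q (x i) ^ 2) * (pf q (x i) * et (ML W h l i x)) := by
        positivity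
      nlinarith [sq_nonneg (ML W h l i x)]
    have h10 : κ ^ 2 * ML W h l i x ^ 2 + ML W h l i x ^ 4 ≤
        ∑ j, D (ML W h l i) j x ^ 2 + ((κ ^ 2 + Af κ q (x i) ^ 2) * (1 - pf q (x i)) *
          et (ML W h l i x) * (1 - ML W h l i x ^ 2) +
        (Af κ q (x i) * et' (ML W h l i x) + H * be' (ML W h l i x)) *
          (D (ML W h l i) i x - ML W h l i x * ∑ j, ML W h l j x * D (ML W h l i) j x) +
        H * ML W h l i x * (Af κ q (x i) * et (ML W h l i x) + H * be (ML W h l i x))) +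
        G0 * (CL ^ 2 * q) := by
      linarith
    have h11 := mul_le_mul_of_nonneg_left h10 hm.le
    linarith
  -- second inequality
  have h2 : av (fun x => mL W h l x * (1 - ∑ j, ML W h l j x ^ 2) *
      √(∑ j, D (Th W κ q H h l i) j x ^ 2)) ≤
      (G0 + Cν / (4 * τ)) * (N - Qf W h l) + G0 * (CL ^ 2 * q) * N +
      Cν * τ * av (fun x => mL W h l x * ∑ j, D (ML W h l i) j x ^ 2) := by
    rw [Qf_eq hW, ← havm, ← av_sub (by fun_prop) (by fun_prop), ← av_mul_left, ← av_mul_left,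
      ← av_mul_left, ← av_add (by fun_prop) (by fun_prop), ← av_add (by fun_prop) (by fun_prop)]
    apply av_mono (by fun_prop) (by fun_prop)
    intro x
    have h3 := grad_Th (q := q) hW hκ hκπ hq (by linarith : 0 ≤ H) h l i x
    rw [← hA0, ← hG0, ← hCν] at h3
    have hm := hmp x
    have hS := sum_ML_sq hW h l x
    have hS0 : 0 ≤ ∑ j, ML W h l j x ^ 2 := Finset.sum_nonneg fun _ _ => sq_nonneg _
    set S := ∑ j, ML W h l j x ^ 2 with hSdef
    have hp := hpM x
    have hpp := pf_nonneg hq (x i)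
    have het := et_nonneg (ML W h l i x)
    have het1 := et_le_one (ML_sq_le hW h l i x)
    set V := √(∑ j, D (ML W h l i) j x ^ 2) with hV
    have hV0 : 0 ≤ V := Real.sqrt_nonneg _
    have hV2 : V ^ 2 = ∑ j, D (ML W h l i) j x ^ 2 :=
      Real.sq_sqrt (Finset.sum_nonneg fun _ _ => sq_nonneg _)
    rw [← hV2]
    have hE0 : 0 ≤ 1 - S := by linarith
    have h4 : (1 - S) * (G0 * (1 + pf q (x i)) * et (ML W h l i x)) ≤
        G0 * (1 - S) + G0 * (CL ^ 2 * q) := by
      have h5 : (1 - S) * et (ML W h l i x) ≤ 1 - S := by nlinarith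
      have h6 : (1 - S) * (pf q (x i) * et (ML W h l i x)) ≤ CL ^ 2 * q := by
        have h7 : 0 ≤ pf q (x i) * et (ML W h l i x) := mul_nonneg hpp het
        nlinarith
      have h8 := mul_le_mul_of_nonneg_left h5 hG00
      have h9 := mul_le_mul_of_nonneg_left h6 hG00
      nlinarith
    have h5 : (1 - S) * V ≤ (1 - S) / (4 * τ) + τ * V ^ 2 := by
      have h6 : (1 - S) * V ≤ (1 - S) ^ 2 / (4 * τ) + τ * V ^ 2 := by
        have h7 : (1 - S) ^ 2 / (4 * τ) + τ * V ^ 2 - (1 - S) * V =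
            ((1 - S) - 2 * τ * V) ^ 2 / (4 * τ) := by
          field_simp
          ring
        have h8 : 0 ≤ ((1 - S) - 2 * τ * V) ^ 2 / (4 * τ) := by positivity
        linarith
      have h7 : (1 - S) ^ 2 / (4 * τ) ≤ (1 - S) / (4 * τ) := by
        apply div_le_div_of_nonneg_right _ (by positivity)
        nlinarith
      linarith
    have h6 : (1 - S) * √(∑ j, D (Th W κ q H h l i) j x ^ 2) ≤
        G0 * (1 - S) + G0 * (CL ^ 2 * q) + Cν * ((1 - S) / (4 * τ) + τ * V ^ 2) := by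
      have h7 := mul_le_mul_of_nonneg_left h3 hE0
      have h8 := mul_le_mul_of_nonneg_left h5 hCν0
      nlinarith
    have h7 := mul_le_mul_of_nonneg_left h6 hm.le
    have h8 : Cν * ((1 - S) / (4 * τ)) = Cν / (4 * τ) * (1 - S) := by ring
    nlinarith
  linarith

theorem main_ineq (hW : Good W) (hd : 0 < d) {κ q H τ CL : ℝ} (hκ : 0 < κ) (hκπ : κ < Real.pi)
    (hq : 0 < q) (hH : 1000 ≤ H) (hτ : 0 < τ) (h : ℝ) (l : List (Fin d))
    (hCL : ∀ i x, |ML W h l i x| ≤ CL * |Real.sin (Real.pi * x i)|) :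
    κ ^ 2 * Qf W h l + (1 / d) * (2 * Qf W h l - Fn W) ≤
      (1 + (32 * (κ * Real.tan (κ / 2)) + H) * τ) * (∑ i, Sd W h l i) +
      ∑ i, Sf W H i (op h l (Th W κ q H h l i)) +
      d * ((κ ^ 2 + (κ * Real.tan (κ / 2)) ^ 2) + (32 * (κ * Real.tan (κ / 2)) + H) / (4 * τ)) *
        (Fn W - Qf W h l) +
      d * (2 * (κ ^ 2 + (κ * Real.tan (κ / 2)) ^ 2) * (CL ^ 2 * q) * Fn W) := by
  have h1 := Finset.sum_le_sum (s := Finset.univ)
    fun i (_ : i ∈ Finset.univ) => main_one hW hκ hκπ hq hH hτ h l i (hCL i)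
  rw [Finset.sum_add_distrib, Finset.sum_add_distrib, Finset.sum_add_distrib, Finset.sum_const,
    Finset.sum_const, Finset.card_univ, Fintype.card_fin, nsmul_eq_mul, nsmul_eq_mul,
    ← Finset.mul_sum] at h1
  have hsM := smooth_ML hW h l
  have hMc := fun j => (hsM j).continuous
  have hDM := fun i j => continuous_D _ (cd1 (hsM i)) j
  have hmc := (smooth_mL hW h l).continuous
  have hmp := mL_pos hW h l
  have havm : av (mL W h l) = Fn W := av_mL hW h l
  -- swap the double sum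
  have h2 : ∑ i, av (fun x => mL W h l x * ∑ j, D (ML W h l i) j x ^ 2) = ∑ i, Sd W h l i := by
    unfold Sd
    rw [← av_sum Finset.univ (u := fun i x => mL W h l x * ∑ j, D (ML W h l i) j x ^ 2)
      (fun i => by fun_prop),
      ← av_sum Finset.univ (u := fun i x => ∑ b, mL W h l x * D (ML W h l b) i x ^ 2)
      (fun i => by fun_prop)]
    congr 1
    funext x
    simp only [Finset.mul_sum]
    exact Finset.sum_comm
  rw [h2] at h1
  have h3 : κ ^ 2 * Qf W h l + (1 / d) * (2 * Qf W h l - Fn W) ≤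
      ∑ i, av (fun x => mL W h l x * (κ ^ 2 * ML W h l i x ^ 2 + ML W h l i x ^ 4)) := by
    rw [← av_sum Finset.univ (u := fun i x => mL W h l x *
      (κ ^ 2 * ML W h l i x ^ 2 + ML W h l i x ^ 4)) (fun i => by fun_prop)]
    have h4 : κ ^ 2 * Qf W h l + (1 / d) * (2 * Qf W h l - Fn W) =
        av (fun x => (κ ^ 2 + 2 / d) * (mL W h l x * ∑ b, ML W h l b x ^ 2) - (1 / d) * mL W h l x) := by
      rw [av_sub (by fun_prop) (by fun_prop), av_mul_left, av_mul_left, ← Qf_eq hW, havm]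
      ring
    rw [h4]
    apply av_mono (by fun_prop) (by fun_prop)
    intro x
    have hm := hmp x
    set S := ∑ b, ML W h l b x ^ 2 with hS
    have h5 : ∑ i, mL W h l x * (κ ^ 2 * ML W h l i x ^ 2 + ML W h l i x ^ 4) =
        mL W h l x * (κ ^ 2 * S + ∑ i, ML W h l i x ^ 4) := by
      rw [← Finset.mul_sum, Finset.sum_add_distrib, ← Finset.mul_sum]
    rw [h5]
    have hd' : (0:ℝ) < d := by exact_mod_cast hd
    have h6 : S ^ 2 ≤ d * ∑ i, ML W h l i x ^ 4 := by
      have h7 := Finset.sum_mul_sq_le_sq_mul_sq (Finset.univ : Finset (Fin d))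
        (fun _ => (1:ℝ)) (fun i => ML W h l i x ^ 2)
      simp only [one_mul, one_pow, Finset.sum_const, Finset.card_univ, Fintype.card_fin,
        nsmul_eq_mul, mul_one] at h7
      have h8 : ∀ i, (ML W h l i x ^ 2) ^ 2 = ML W h l i x ^ 4 := fun i => by ring
      simp only [h8] at h7
      exact h7
    have h9 : (1 / d) * (2 * S - 1) ≤ ∑ i, ML W h l i x ^ 4 := by
      rw [one_div, inv_mul_le_iff₀ hd']
      nlinarith [sq_nonneg (S - 1)]
    have h10 := mul_le_mul_of_nonneg_left h9 hm.le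
    calc (κ ^ 2 + 2 / d) * (mL W h l x * S) - (1 / d) * mL W h l x =
        mL W h l x * (κ ^ 2 * S) + mL W h l x * ((1 / d) * (2 * S - 1)) := by ring
      _ ≤ mL W h l x * (κ ^ 2 * S) + mL W h l x * ∑ i, ML W h l i x ^ 4 := by linarith
      _ = _ := by ring
  refine h3.trans (h1.trans (le_of_eq ?_))
  ring

end Pool.Agent.H62
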