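import Pool.Agent.Helper62K1.IsoApi

/-!
# The symmetric random walk operators
-/

set_option autoImplicit false

namespace Pool.Agent.H62

open MeasureTheory Set Filter Topology
open Pool.Agent.H48R3.CP (D continuous_D)
open scoped ContDiff

variable {d : ℕ}

/-- one averaging step of size `h` in the coordinate `i` -/
noncomputable def P (h : ℝ) (i : Fin d) (g : (Fin d → ℝ) → ℝ) (x : Fin d → ℝ) : ℝ :=
  (g (x + Pi.single i h) + g (x - Pi.single i h)) / 2

/-- composition of the averaging steps along a list of coordinates -/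
noncomputable def op (h : ℝ) : List (Fin d) → ((Fin d → ℝ) → ℝ) → ((Fin d → ℝ) → ℝ)
  | [], g => g
  | i :: l, g => P h i (op h l g)

@[simp] theorem op_nil (h : ℝ) (g : (Fin d → ℝ) → ℝ) : op h [] g = g := rfl

@[simp] theorem op_cons (h : ℝ) (i : Fin d) (l : List (Fin d)) (g : (Fin d → ℝ) → ℝ) :
    op h (i :: l) g = P h i (op h l g) := rfl

theorem op_append (h : ℝ) (l l' : List (Fin d)) (g : (Fin d → ℝ) → ℝ) :
    op h (l ++ l') g = op h l (op h l' g) := by
  induction l with
  | nil => rfl
  | cons i l ih => simp only [List.cons_append, op_cons, ih]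

theorem P_comm (h : ℝ) (i j : Fin d) (g : (Fin d → ℝ) → ℝ) :
    P h i (P h j g) = P h j (P h i g) := by
  funext x
  unfold P
  have e1 : x + Pi.single i h + Pi.single j h = x + Pi.single j h + Pi.single i h := by abel
  have e2 : x + Pi.single i h - Pi.single j h = x - Pi.single j h + Pi.single i h := by abel
  have e3 : x - Pi.single i h + Pi.single j h = x + Pi.single j h - Pi.single i h := by abel
  have e4 : x - Pi.single i h - Pi.single j h = x - Pi.single j h - Pi.single i h := by abel
  rw [e1, e2, e3, e4]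
  ring

theorem op_perm (h : ℝ) {l l' : List (Fin d)} (hl : l.Perm l') (g : (Fin d → ℝ) → ℝ) :
    op h l g = op h l' g := by
  induction hl with
  | nil => rfl
  | cons i _ ih => simp only [op_cons, ih]
  | swap i j l => simp only [op_cons]; exact P_comm _ _ _ _
  | trans _ _ ih1 ih2 => exact ih1.trans ih2

theorem P_lin (h : ℝ) (i : Fin d) (a b : ℝ) (u v : (Fin d → ℝ) → ℝ) :
    P h i (fun x => a * u x + b * v x) = fun x => a * P h i u x + b * P h i v x := by
  funext x; unfold P; ring

theorem op_lin (h : ℝ) (l : List (Fin d)) (a b : ℝ) (u v : (Fin d → ℝ) → ℝ) :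
    op h l (fun x => a * u x + b * v x) = fun x => a * op h l u x + b * op h l v x := by
  induction l with
  | nil => rfl
  | cons i l ih => rw [op_cons, ih, P_lin]; rfl

theorem op_add (h : ℝ) (l : List (Fin d)) (u v : (Fin d → ℝ) → ℝ) :
    op h l (fun x => u x + v x) = fun x => op h l u x + op h l v x := by
  simpa using op_lin h l 1 1 u v

theorem op_sub (h : ℝ) (l : List (Fin d)) (u v : (Fin d → ℝ) → ℝ) :
    op h l (fun x => u x - v x) = fun x => op h l u x - op h l v x := by
  have := op_lin h l 1 (-1) u v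
  simpa [sub_eq_add_neg] using this

theorem op_smul (h : ℝ) (l : List (Fin d)) (a : ℝ) (u : (Fin d → ℝ) → ℝ) :
    op h l (fun x => a * u x) = fun x => a * op h l u x := by
  simpa using op_lin h l a 0 u u

theorem op_neg (h : ℝ) (l : List (Fin d)) (u : (Fin d → ℝ) → ℝ) :
    op h l (fun x => - u x) = fun x => - op h l u x := by
  have := op_smul h l (-1) u
  simpa using this

theorem op_const (h : ℝ) (l : List (Fin d)) (c : ℝ) :
    op h l (fun _ => c) = fun _ => c := by
  induction l with
  | nil => rfl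
  | cons i l ih => rw [op_cons, ih]; funext x; unfold P; ring

theorem op_sum (h : ℝ) (l : List (Fin d)) {ι : Type*} (s : Finset ι)
    (u : ι → (Fin d → ℝ) → ℝ) :
    op h l (fun x => ∑ k ∈ s, u k x) = fun x => ∑ k ∈ s, op h l (u k) x := by
  classical
  induction s using Finset.induction_on with
  | empty => simpa using op_const h l 0
  | insert a s ha ih =>
    simp only [Finset.sum_insert ha]
    rw [op_add h l (u a) (fun x => ∑ k ∈ s, u k x), ih]

theorem P_mono (h : ℝ) (i : Fin d) {u v : (Fin d → ℝ) → ℝ} (huv : ∀ x, u x ≤ v x)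
    (x : Fin d → ℝ) : P h i u x ≤ P h i v x := by
  unfold P
  have h1 := huv (x + Pi.single i h)
  have h2 := huv (x - Pi.single i h)
  linarith

theorem op_mono (h : ℝ) (l : List (Fin d)) {u v : (Fin d → ℝ) → ℝ} (huv : ∀ x, u x ≤ v x)
    (x : Fin d → ℝ) : op h l u x ≤ op h l v x := by
  induction l generalizing x with
  | nil => exact huv x
  | cons i l ih => exact P_mono h i ih x

theorem op_le_const (h : ℝ) (l : List (Fin d)) {u : (Fin d → ℝ) → ℝ} {c : ℝ}
    (hu : ∀ x, u x ≤ c) (x : Fin d → ℝ) : op h l u x ≤ c := by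
  have := op_mono h l (v := fun _ => c) hu x
  rwa [op_const] at this

theorem const_le_op (h : ℝ) (l : List (Fin d)) {u : (Fin d → ℝ) → ℝ} {c : ℝ}
    (hu : ∀ x, c ≤ u x) (x : Fin d → ℝ) : c ≤ op h l u x := by
  have := op_mono h l (u := fun _ => c) hu x
  rwa [op_const] at this

theorem op_lt_const (h : ℝ) (l : List (Fin d)) {u : (Fin d → ℝ) → ℝ} {c : ℝ}
    (hu : ∀ x, u x < c) (x : Fin d → ℝ) : op h l u x < c := by
  induction l generalizing x with
  | nil => exact hu x
  | cons i l ih =>
    have h1 := ih (x + Pi.single i h)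
    have h2 := ih (x - Pi.single i h)
    simp only [op_cons, P]
    linarith

theorem const_lt_op (h : ℝ) (l : List (Fin d)) {u : (Fin d → ℝ) → ℝ} {c : ℝ}
    (hu : ∀ x, c < u x) (x : Fin d → ℝ) : c < op h l u x := by
  induction l generalizing x with
  | nil => exact hu x
  | cons i l ih =>
    have h1 := ih (x + Pi.single i h)
    have h2 := ih (x - Pi.single i h)
    simp only [op_cons, P]
    linarith

theorem abs_op_le (h : ℝ) (l : List (Fin d)) (u : (Fin d → ℝ) → ℝ) (x : Fin d → ℝ) :
    |op h l u x| ≤ op h l (fun x => |u x|) x := by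
  rw [abs_le]
  constructor
  · have := op_mono h l (u := fun x => - |u x|) (v := u) (fun x => neg_abs_le (u x)) x
    rwa [op_neg] at this
  · exact op_mono h l (fun x => le_abs_self (u x)) x

theorem abs_op_le_const (h : ℝ) (l : List (Fin d)) {u : (Fin d → ℝ) → ℝ} {c : ℝ}
    (hu : ∀ x, |u x| ≤ c) (x : Fin d → ℝ) : |op h l u x| ≤ c :=
  (abs_op_le h l u x).trans (op_le_const h l hu x)

theorem op_shift (h : ℝ) (l : List (Fin d)) (u : (Fin d → ℝ) → ℝ) (v x : Fin d → ℝ) :
    op h l (fun x => u (x + v)) x = op h l u (x + v) := by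
  induction l generalizing x with
  | nil => rfl
  | cons i l ih =>
    simp only [op_cons, P]
    rw [ih, ih]
    have e1 : x + Pi.single i h + v = x + v + Pi.single i h := by abel
    have e2 : x - Pi.single i h + v = x + v - Pi.single i h := by abel
    rw [e1, e2]

theorem contDiff_P {n : ℕ∞} (h : ℝ) (i : Fin d) {u : (Fin d → ℝ) → ℝ} (hu : ContDiff ℝ n u) :
    ContDiff ℝ n (P h i u) := by
  unfold P
  have h1 : ContDiff ℝ n (fun x : Fin d → ℝ => u (x + Pi.single i h)) :=
    hu.comp (contDiff_id.add contDiff_const)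
  have h2 : ContDiff ℝ n (fun x : Fin d → ℝ => u (x - Pi.single i h)) :=
    hu.comp (contDiff_id.sub contDiff_const)
  exact (h1.add h2).div_const 2

theorem contDiff_op {n : ℕ∞} (h : ℝ) (l : List (Fin d)) {u : (Fin d → ℝ) → ℝ}
    (hu : ContDiff ℝ n u) : ContDiff ℝ n (op h l u) := by
  induction l with
  | nil => exact hu
  | cons i l ih => exact contDiff_P h i ih

theorem continuous_op (h : ℝ) (l : List (Fin d)) {u : (Fin d → ℝ) → ℝ}
    (hu : Continuous u) : Continuous (op h l u) := by
  induction l with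
  | nil => exact hu
  | cons i l ih =>
    simp only [op_cons]
    unfold P
    fun_prop

theorem D_P (h : ℝ) (i : Fin d) {u : (Fin d → ℝ) → ℝ} (hu : Differentiable ℝ u) (j : Fin d) :
    D (P h i u) j = P h i (D u j) := by
  funext x
  have h1 : HasFDerivAt (fun y : Fin d → ℝ => u (y + Pi.single i h))
      (fderiv ℝ u (x + Pi.single i h)) x := by
    have h0 : HasFDerivAt u (fderiv ℝ u (x + Pi.single i h)) (x + Pi.single i h) :=
      (hu _).hasFDerivAt
    have h5 := HasFDerivAt.comp x (g := u) (f := fun y : Fin d → ℝ => y + Pi.single i h) h0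
      ((hasFDerivAt_id x).add_const (Pi.single i h))
    rw [ContinuousLinearMap.comp_id] at h5
    exact h5
  have h2 : HasFDerivAt (fun y : Fin d → ℝ => u (y - Pi.single i h))
      (fderiv ℝ u (x - Pi.single i h)) x := by
    have h0 : HasFDerivAt u (fderiv ℝ u (x - Pi.single i h)) (x - Pi.single i h) :=
      (hu _).hasFDerivAt
    have h5 := HasFDerivAt.comp x (g := u) (f := fun y : Fin d → ℝ => y - Pi.single i h) h0
      ((hasFDerivAt_id x).sub_const (Pi.single i h))
    rw [ContinuousLinearMap.comp_id] at h5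
    exact h5
  have h3 : HasFDerivAt (P h i u) ((2:ℝ)⁻¹ • (fderiv ℝ u (x + Pi.single i h) +
      fderiv ℝ u (x - Pi.single i h))) x := by
    have h4 := (h1.add h2).const_mul (2:ℝ)⁻¹
    refine h4.congr_of_eventuallyEq (Eventually.of_forall fun y => ?_)
    unfold P
    simp only [Pi.add_apply]
    ring
  unfold D
  rw [h3.fderiv]
  unfold P
  simp only [smul_apply, add_apply, smul_eq_mul]
  ring

theorem D_op (h : ℝ) (l : List (Fin d)) {u : (Fin d → ℝ) → ℝ} (hu : ContDiff ℝ 1 u)
    (j : Fin d) : D (op h l u) j = op h l (D u j) := by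
  induction l with
  | nil => rfl
  | cons i l ih =>
    rw [op_cons, D_P h i ((contDiff_op (n := 1) h l hu).differentiable (by norm_num)), ih]
    rfl

/-! ### reflections and periods -/

theorem rf_add (i j : Fin d) (h : ℝ) (x : Fin d → ℝ) :
    rf j x + Pi.single i h = rf j (if i = j then x - Pi.single i h else x + Pi.single i h) := by
  funext k
  unfold rf
  by_cases hij : i = j
  · subst hij
    rw [if_pos rfl]
    by_cases hk : k = i
    · subst hk; simp; ring
    · simp [Function.update_of_ne hk, hk]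
  · rw [if_neg hij]
    by_cases hk : k = j
    · subst hk
      simp [Ne.symm hij]
    · simp [Function.update_of_ne hk]

theorem rf_sub (i j : Fin d) (h : ℝ) (x : Fin d → ℝ) :
    rf j x - Pi.single i h = rf j (if i = j then x + Pi.single i h else x - Pi.single i h) := by
  have h1 := rf_add i j (-h) x
  rw [Pi.single_neg] at h1
  simpa [sub_eq_add_neg] using h1

theorem P_rf (h : ℝ) (i j : Fin d) (u : (Fin d → ℝ) → ℝ) (x : Fin d → ℝ) :
    P h i u (rf j x) = P h i (fun y => u (rf j y)) x := by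
  unfold P
  rw [rf_add, rf_sub]
  by_cases hij : i = j
  · simp only [if_pos hij]; ring
  · simp only [if_neg hij]

theorem op_rf (h : ℝ) (l : List (Fin d)) (j : Fin d) (u : (Fin d → ℝ) → ℝ) (x : Fin d → ℝ) :
    op h l u (rf j x) = op h l (fun y => u (rf j y)) x := by
  induction l generalizing x with
  | nil => rfl
  | cons i l ih =>
    simp only [op_cons]
    rw [P_rf]
    congr 1
    funext y
    exact ih y

theorem op_Ev (h : ℝ) (l : List (Fin d)) {u : (Fin d → ℝ) → ℝ} (hu : Ev u) :
    Ev (op h l u) := by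
  intro j x
  rw [op_rf]
  congr 1
  funext y
  exact hu j y

theorem op_Pe (h : ℝ) (l : List (Fin d)) {u : (Fin d → ℝ) → ℝ} (hu : Pe u) :
    Pe (op h l u) := by
  intro j x
  rw [← op_shift]
  congr 1
  funext y
  exact hu j y

/-! ### convexity -/

theorem norm_avg {ι : Type*} (s : Finset ι) (u v : ι → ℝ) :
    √(∑ k ∈ s, ((u k + v k) / 2) ^ 2) ≤ (√(∑ k ∈ s, u k ^ 2) + √(∑ k ∈ s, v k ^ 2)) / 2 := by
  set A := √(∑ k ∈ s, u k ^ 2) with hA
  set B := √(∑ k ∈ s, v k ^ 2) with hB
  have hA0 : 0 ≤ A := Real.sqrt_nonneg _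
  have hB0 : 0 ≤ B := Real.sqrt_nonneg _
  have hA2 : A ^ 2 = ∑ k ∈ s, u k ^ 2 := Real.sq_sqrt (Finset.sum_nonneg fun _ _ => sq_nonneg _)
  have hB2 : B ^ 2 = ∑ k ∈ s, v k ^ 2 := Real.sq_sqrt (Finset.sum_nonneg fun _ _ => sq_nonneg _)
  have hcs : (∑ k ∈ s, u k * v k) ≤ A * B := by
    have h1 := Finset.sum_mul_sq_le_sq_mul_sq s u v
    rw [← hA2, ← hB2] at h1
    nlinarith [abs_le_of_sq_le_sq' (by nlinarith : (∑ k ∈ s, u k * v k) ^ 2 ≤ (A * B) ^ 2)
      (by positivity)]
  rw [Real.sqrt_le_left (by positivity)]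
  have h2 : ∑ k ∈ s, ((u k + v k) / 2) ^ 2 =
      ((∑ k ∈ s, u k ^ 2) + 2 * (∑ k ∈ s, u k * v k) + ∑ k ∈ s, v k ^ 2) / 4 := by
    rw [Finset.mul_sum, ← Finset.sum_add_distrib, ← Finset.sum_add_distrib, Finset.sum_div]
    apply Finset.sum_congr rfl
    intro k _
    ring
  rw [h2, ← hA2, ← hB2]
  nlinarith

theorem op_norm_le (h : ℝ) (l : List (Fin d)) {ι : Type*} (s : Finset ι)
    (u : ι → (Fin d → ℝ) → ℝ) (x : Fin d → ℝ) :
    √(∑ k ∈ s, (op h l (u k) x) ^ 2) ≤ op h l (fun x => √(∑ k ∈ s, (u k x) ^ 2)) x := by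
  induction l generalizing x with
  | nil => exact le_rfl
  | cons i l ih =>
    simp only [op_cons, P]
    refine (norm_avg s _ _).trans ?_
    have h1 := ih (x + Pi.single i h)
    have h2 := ih (x - Pi.single i h)
    linarith

theorem op_norm2_le (h : ℝ) (l : List (Fin d)) (u v : (Fin d → ℝ) → ℝ) (x : Fin d → ℝ) :
    √((op h l u x) ^ 2 + (op h l v x) ^ 2) ≤ op h l (fun x => √((u x) ^ 2 + (v x) ^ 2)) x := by
  have := op_norm_le h l (Finset.univ : Finset (Fin 2)) ![u, v] x
  simpa [Fin.sum_univ_two] using this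

end Pool.Agent.H62
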