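import Mathlib

/-!
# The pointwise inequality
-/

set_option autoImplicit false

namespace Pool.Agent.H62

/-- the profile `η` -/
noncomputable def et (v : ℝ) : ℝ := (v * (1 - v ^ 2) * (1 - 7 / 5 * v ^ 2)) ^ 2

/-- derivative of `η` -/
noncomputable def et' (v : ℝ) : ℝ :=
  2 * (v * (1 - v ^ 2) * (1 - 7 / 5 * v ^ 2)) * (1 - 36 / 5 * v ^ 2 + 7 * v ^ 4)

/-- the profile `β` -/
noncomputable def be (v : ℝ) : ℝ := v ^ 3 * (1 / 3 - 4 / 5 * v ^ 2 + 4 / 7 * v ^ 4)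

/-- derivative of `β` -/
noncomputable def be' (v : ℝ) : ℝ := v ^ 2 * (1 - 2 * v ^ 2) ^ 2

theorem quad_nonneg {X Y B a H : ℝ} (hX : 0 ≤ X) (hY : 0 ≤ Y) (hB : B ^ 2 ≤ 4 * X * Y) :
    0 ≤ X * a ^ 2 + a * H * B + Y * H ^ 2 := by
  rcases hX.eq_or_lt with h | h
  · rw [← h] at hB ⊢
    have : B = 0 := by
      have : B ^ 2 ≤ 0 := by linarith
      nlinarith
    rw [this]
    nlinarith [mul_nonneg hY (sq_nonneg H)]
  · have h1 : 0 ≤ 4 * X * (X * a ^ 2 + a * H * B + Y * H ^ 2) := by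
      have h2 : 4 * X * (X * a ^ 2 + a * H * B + Y * H ^ 2) =
          (2 * X * a + B * H) ^ 2 + (4 * X * Y - B ^ 2) * H ^ 2 := by ring
      rw [h2]
      have := mul_nonneg (sub_nonneg.2 hB) (sq_nonneg H)
      nlinarith [sq_nonneg (2 * X * a + B * H)]
    by_contra hc
    push Not at hc
    have : 4 * X * (X * a ^ 2 + a * H * B + Y * H ^ 2) < 0 :=
      mul_neg_of_pos_of_neg (by linarith) hc
    linarith

theorem poly_P {t : ℝ} (h0 : 0 ≤ t) (h1 : t ≤ 1) :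
    0 ≤ 108 / 25 - 5078 / 125 * t + 776904 / 4375 * t ^ 2 - 33559 / 70 * t ^ 3 +
      218881 / 250 * t ^ 4 - 135344 / 125 * t ^ 5 + 107948 / 125 * t ^ 6 - 9912 / 25 * t ^ 7 +
      392 / 5 * t ^ 8 := by
  obtain ⟨u, hu⟩ : ∃ u, u = 1 - t := ⟨_, rfl⟩
  have hu0 : 0 ≤ u := by linarith
  have key : 108 / 25 - 5078 / 125 * t + 776904 / 4375 * t ^ 2 - 33559 / 70 * t ^ 3 +
      218881 / 250 * t ^ 4 - 135344 / 125 * t ^ 5 + 107948 / 125 * t ^ 6 - 9912 / 25 * t ^ 7 +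
      392 / 5 * t ^ 8 = (108/25) * t ^ 0 * u ^ 17 + (4102/125) * t ^ 1 * u ^ 16 +
      (503624/4375) * t ^ 2 * u ^ 15 + (432209/1750) * t ^ 3 * u ^ 14 +
      (17079/50) * t ^ 4 * u ^ 13 + (33357/125) * t ^ 5 * u ^ 12 +
      (8421/125) * t ^ 6 * u ^ 11 + (140937/1250) * t ^ 7 * u ^ 10 +
      (169089/250) * t ^ 8 * u ^ 9 + (247542/175) * t ^ 9 * u ^ 8 +
      (1512778/875) * t ^ 10 * u ^ 7 + (370337/250) * t ^ 11 * u ^ 6 +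
      (1208857/1250) * t ^ 12 * u ^ 5 + (60501/125) * t ^ 13 * u ^ 4 +
      (4329/25) * t ^ 14 * u ^ 3 + (9699/250) * t ^ 15 * u ^ 2 + (7593/1750) * t ^ 16 * u ^ 1 +
      (594/4375) * t ^ 17 * u ^ 0 := by
    rw [hu]; ring
  rw [key]
  positivity

theorem poly_g {t : ℝ} (h0 : 0 ≤ t) (h1 : t ≤ 1) :
    1 / 25 ≤ 1 / 12 + 29 / 20 * t - 52 / 7 * t ^ 2 + 14 * t ^ 3 - 12 * t ^ 4 + 4 * t ^ 5 := by
  obtain ⟨u, hu⟩ : ∃ u, u = 1 - t := ⟨_, rfl⟩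
  have hu0 : 0 ≤ u := by linarith
  have key : 1 / 12 + 29 / 20 * t - 52 / 7 * t ^ 2 + 14 * t ^ 3 - 12 * t ^ 4 + 4 * t ^ 5 =
      1 / 25 + ((13/300) * t ^ 0 * u ^ 10 + (113/60) * t ^ 1 * u ^ 9 + (53/7) * t ^ 2 * u ^ 8 +
      (419/35) * t ^ 3 * u ^ 7 + (89/10) * t ^ 4 * u ^ 6 + (181/50) * t ^ 5 * u ^ 5 +
      (9/5) * t ^ 6 * u ^ 4 + (1) * t ^ 7 * u ^ 3 + (3/20) * t ^ 8 * u ^ 2 +
      (23/420) * t ^ 9 * u ^ 1 + (34/525) * t ^ 10 * u ^ 0) := by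
    rw [hu]; ring
  rw [key]
  have : 0 ≤ (13/300) * t ^ 0 * u ^ 10 + (113/60) * t ^ 1 * u ^ 9 + (53/7) * t ^ 2 * u ^ 8 +
      (419/35) * t ^ 3 * u ^ 7 + (89/10) * t ^ 4 * u ^ 6 + (181/50) * t ^ 5 * u ^ 5 +
      (9/5) * t ^ 6 * u ^ 4 + (1) * t ^ 7 * u ^ 3 + (3/20) * t ^ 8 * u ^ 2 +
      (23/420) * t ^ 9 * u ^ 1 + (34/525) * t ^ 10 * u ^ 0 := by positivity
  linarith

theorem poly_p {t : ℝ} (h0 : 0 ≤ t) (h1 : t ≤ 1) :
    1 - 29 / 5 * t ≤ (1 - t) ^ 3 * (1 - 7 / 5 * t) ^ 2 := by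
  obtain ⟨u, hu⟩ : ∃ u, u = 1 - t := ⟨_, rfl⟩
  have hu0 : 0 ≤ u := by linarith
  have key : (1 - t) ^ 3 * (1 - 7 / 5 * t) ^ 2 = 1 - 29 / 5 * t +
      (334/25 * t ^ 2 * u ^ 3 + 124/5 * t ^ 3 * u ^ 2 + 91/5 * t ^ 4 * u + 24/5 * t ^ 5) := by
    rw [hu]; ring
  rw [key]
  have : 0 ≤ 334/25 * t ^ 2 * u ^ 3 + 124/5 * t ^ 3 * u ^ 2 + 91/5 * t ^ 4 * u + 24/5 * t ^ 5 := by
    positivity
  linarith

/-- the scalar inequality -/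
theorem T_ineq (v A H κ2 : ℝ) (hv : v ^ 2 ≤ 1) (hH : 1000 ≤ H) (hκ0 : 0 ≤ κ2) (hκ : κ2 ≤ 10) :
    κ2 * v ^ 2 + v ^ 4 ≤ (1 - v ^ 2) * (κ2 + A ^ 2) * et v -
      1 / 4 * (1 - v ^ 2) * (A * et' v + H * be' v) ^ 2 + H * v * (A * et v + H * be v) := by
  obtain ⟨t, ht⟩ : ∃ t, t = v ^ 2 := ⟨_, rfl⟩
  have h0 : 0 ≤ t := by rw [ht]; positivity
  have h1 : t ≤ 1 := by rw [ht]; exact hv
  set g := 1 / 12 + 29 / 20 * t - 52 / 7 * t ^ 2 + 14 * t ^ 3 - 12 * t ^ 4 + 4 * t ^ 5 with hg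
  set q := 49 / 5 - 199 / 5 * t + 284 / 5 * t ^ 2 - 28 * t ^ 3 with hq
  set α := (36 / 5 - 7 * t) * (2 - 36 / 5 * t + 7 * t ^ 2) with hα
  have hg1 := poly_g h0 h1
  rw [← hg] at hg1
  have hα0 : 0 ≤ α := by
    apply mul_nonneg
    · linarith
    · nlinarith [sq_nonneg (t - 18 / 35)]
  have hP := poly_P h0 h1
  have hPe : 108 / 25 - 5078 / 125 * t + 776904 / 4375 * t ^ 2 - 33559 / 70 * t ^ 3 +
      218881 / 250 * t ^ 4 - 135344 / 125 * t ^ 5 + 107948 / 125 * t ^ 6 - 9912 / 25 * t ^ 7 +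
      392 / 5 * t ^ 8 = 18 / 5 * α * g - t * (1 - t) * q ^ 2 := by
    rw [hα, hg, hq]; ring
  rw [hPe] at hP
  have hquad : 0 ≤ ((1 - t) * (t * α)) * (A * (v * (1 - v ^ 2) * (1 - 7 / 5 * v ^ 2))) ^ 2 +
      (A * (v * (1 - v ^ 2) * (1 - 7 / 5 * v ^ 2))) * H * (t ^ 2 * (1 - t) * q) +
      (9 / 10 * (t ^ 2 * g)) * H ^ 2 := by
    apply quad_nonneg
    · have : 0 ≤ 1 - t := by linarith
      positivity
    · have : 0 ≤ g := by linarith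
      positivity
    · have h3 : 0 ≤ t ^ 3 * (1 - t) * (18 / 5 * α * g - t * (1 - t) * q ^ 2) := by
        have : 0 ≤ 1 - t := by linarith
        positivity
      nlinarith
  have hp := poly_p h0 h1
  have hT : (1 - v ^ 2) * (κ2 + A ^ 2) * et v -
      1 / 4 * (1 - v ^ 2) * (A * et' v + H * be' v) ^ 2 + H * v * (A * et v + H * be v) =
      κ2 * (t * ((1 - t) ^ 3 * (1 - 7 / 5 * t) ^ 2)) +
      (((1 - t) * (t * α)) * (A * (v * (1 - v ^ 2) * (1 - 7 / 5 * v ^ 2))) ^ 2 +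
      (A * (v * (1 - v ^ 2) * (1 - 7 / 5 * v ^ 2))) * H * (t ^ 2 * (1 - t) * q) +
      (9 / 10 * (t ^ 2 * g)) * H ^ 2) + 1 / 10 * (t ^ 2 * g) * H ^ 2 := by
    rw [hα, hg, hq, ht]
    unfold et et' be be'
    ring
  rw [hT]
  generalize (((1 - t) * (t * α)) * (A * (v * (1 - v ^ 2) * (1 - 7 / 5 * v ^ 2))) ^ 2 +
      (A * (v * (1 - v ^ 2) * (1 - 7 / 5 * v ^ 2))) * H * (t ^ 2 * (1 - t) * q) +
      (9 / 10 * (t ^ 2 * g)) * H ^ 2) = E at hquad ⊢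
  clear hT hP hPe
  have h4 : κ2 * (t * (1 - 29 / 5 * t)) ≤ κ2 * (t * ((1 - t) ^ 3 * (1 - 7 / 5 * t) ^ 2)) :=
    mul_le_mul_of_nonneg_left (mul_le_mul_of_nonneg_left hp h0) hκ0
  have h5 : (1:ℝ) / 10 * (t ^ 2 * (1 / 25)) * 1000 ^ 2 ≤ 1 / 10 * (t ^ 2 * g) * H ^ 2 := by
    have h6 : (1000:ℝ) ^ 2 ≤ H ^ 2 := pow_le_pow_left₀ (by norm_num) hH 2
    have h7 : (1:ℝ) / 10 * (t ^ 2 * (1 / 25)) ≤ 1 / 10 * (t ^ 2 * g) := by
      have := mul_le_mul_of_nonneg_left hg1 (sq_nonneg t)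
      linarith
    exact mul_le_mul h7 h6 (by norm_num) (by
      have : 0 ≤ g := by linarith
      positivity)
  have h8 : v ^ 4 = t ^ 2 := by rw [ht]; ring
  rw [h8, ← ht]
  have h9 : κ2 * t ^ 2 ≤ 10 * t ^ 2 := mul_le_mul_of_nonneg_right hκ (sq_nonneg t)
  have h10 : κ2 * (t * (1 - 29 / 5 * t)) = κ2 * t - 29 / 5 * (κ2 * t ^ 2) := by ring
  have h11 : 0 ≤ t ^ 2 := sq_nonneg t
  linarith

/-- the pointwise inequality -/
theorem hj {d : ℕ} (i : Fin d) (M g : Fin d → ℝ) (A H κ2 : ℝ) (hM : ∑ j, M j ^ 2 ≤ 1)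
    (hH : 1000 ≤ H) (hκ0 : 0 ≤ κ2) (hκ : κ2 ≤ 10) :
    κ2 * M i ^ 2 + M i ^ 4 ≤ ∑ j, g j ^ 2 + (κ2 + A ^ 2) * et (M i) * (1 - M i ^ 2) +
      (A * et' (M i) + H * be' (M i)) * (g i - M i * ∑ j, M j * g j) +
      H * M i * (A * et (M i) + H * be (M i)) := by
  set v := M i with hv
  have hv1 : v ^ 2 ≤ 1 := le_trans
    (Finset.single_le_sum (f := fun j => M j ^ 2) (fun _ _ => sq_nonneg _) (Finset.mem_univ i)) hM
  have hT := T_ineq v A H κ2 hv1 hH hκ0 hκ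
  set θ := A * et' v + H * be' v with hθ
  -- completing the square
  set b : Fin d → ℝ := fun j => (if j = i then 1 else 0) - v * M j with hb
  have h1 : ∑ j, b j * g j = g i - v * ∑ j, M j * g j := by
    simp only [hb, sub_mul]
    rw [Finset.sum_sub_distrib, Finset.mul_sum]
    congr 1
    · simp
    · apply Finset.sum_congr rfl; intro j _; ring
  have h2 : ∑ j, b j ^ 2 ≤ 1 - v ^ 2 := by
    have h3 : ∑ j, b j ^ 2 = 1 - 2 * v ^ 2 + v ^ 2 * ∑ j, M j ^ 2 := by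
      have h4 : ∀ j, b j ^ 2 = (if j = i then 1 - 2 * v * M j else 0) + v ^ 2 * M j ^ 2 := by
        intro j
        simp only [hb]
        split_ifs with h
        · ring
        · ring
      simp only [h4]
      rw [Finset.sum_add_distrib, ← Finset.mul_sum]
      simp only [Finset.sum_ite_eq', Finset.mem_univ, if_true]
      rw [← hv]
      ring
    rw [h3]
    nlinarith [mul_le_mul_of_nonneg_left hM (sq_nonneg v)]
  have h5 : 0 ≤ ∑ j, (g j + θ / 2 * b j) ^ 2 := Finset.sum_nonneg fun _ _ => sq_nonneg _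
  have h6 : ∑ j, (g j + θ / 2 * b j) ^ 2 =
      ∑ j, g j ^ 2 + θ * ∑ j, b j * g j + θ ^ 2 / 4 * ∑ j, b j ^ 2 := by
    rw [Finset.mul_sum, Finset.mul_sum, ← Finset.sum_add_distrib, ← Finset.sum_add_distrib]
    apply Finset.sum_congr rfl
    intro j _
    ring
  rw [h6, h1] at h5
  have h7 : θ ^ 2 / 4 * ∑ j, b j ^ 2 ≤ θ ^ 2 / 4 * (1 - v ^ 2) :=
    mul_le_mul_of_nonneg_left h2 (by positivity)
  nlinarith

end Pool.Agent.H62
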