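import Pool.Agent.Helper62K1.Avg

/-!
# Gradient bounds for the random walk, uniform bounds for families
-/

set_option autoImplicit false

namespace Pool.Agent.H62

open MeasureTheory Set Filter Topology
open Pool.Agent.H48R3.CP (D continuous_D)
open scoped ContDiff

variable {d : ℕ}

/-- the symmetric difference -/
noncomputable def Q (h : ℝ) (i : Fin d) (g : (Fin d → ℝ) → ℝ) (x : Fin d → ℝ) : ℝ :=
  (g (x + Pi.single i h) - g (x - Pi.single i h)) / 2

theorem P_sq (h : ℝ) (i : Fin d) (g : (Fin d → ℝ) → ℝ) (x : Fin d → ℝ) :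
    P h i (fun y => g y ^ 2) x = (P h i g x) ^ 2 + (Q h i g x) ^ 2 := by
  unfold P Q; ring

theorem P_sq_le (h : ℝ) (i : Fin d) (g : (Fin d → ℝ) → ℝ) (x : Fin d → ℝ) :
    (P h i g x) ^ 2 ≤ P h i (fun y => g y ^ 2) x := by
  rw [P_sq]; nlinarith [sq_nonneg (Q h i g x)]

theorem Q_P_comm (h : ℝ) (i j : Fin d) (g : (Fin d → ℝ) → ℝ) :
    Q h i (P h j g) = P h j (Q h i g) := by
  funext x
  unfold P Q
  beta_reduce
  have e1 : x + Pi.single i h + Pi.single j h = x + Pi.single j h + Pi.single i h := by abel
  have e2 : x + Pi.single i h - Pi.single j h = x - Pi.single j h + Pi.single i h := by abel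
  have e3 : x - Pi.single i h + Pi.single j h = x + Pi.single j h - Pi.single i h := by abel
  have e4 : x - Pi.single i h - Pi.single j h = x - Pi.single j h - Pi.single i h := by abel
  rw [e1, e2, e3, e4]
  ring

theorem Q_op_comm (h : ℝ) (i : Fin d) (l : List (Fin d)) (g : (Fin d → ℝ) → ℝ) :
    Q h i (op h l g) = op h l (Q h i g) := by
  induction l with
  | nil => rfl
  | cons j l ih => rw [op_cons, Q_P_comm, ih]; rfl

theorem grad_aux (h : ℝ) (i : Fin d) (g : (Fin d → ℝ) → ℝ) (k : ℕ) :
    ∀ x, (op h (List.replicate (k + 1) i) g x) ^ 2 +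
      ((k : ℝ) + 1) * (Q h i (op h (List.replicate k i) g) x) ^ 2 ≤
      op h (List.replicate (k + 1) i) (fun y => g y ^ 2) x := by
  induction k with
  | zero =>
    intro x
    have := P_sq h i g x
    simp only [zero_add, List.replicate_one, op_cons, op_nil, Nat.cast_zero, one_mul,
      List.replicate_zero]
    rw [this]
  | succ k ih =>
    intro x
    have h1 := P_mono h i ih x
    have e0 : P h i (op h (List.replicate (k + 1) i) (fun y => g y ^ 2)) x =
      op h (List.replicate (k + 1 + 1) i) (fun y => g y ^ 2) x := rfl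
    rw [e0] at h1
    refine le_trans ?_ h1
    have e1 : P h i (fun x => (op h (List.replicate (k + 1) i) g x) ^ 2 +
      ((k : ℝ) + 1) * (Q h i (op h (List.replicate k i) g) x) ^ 2) x =
      P h i (fun x => (op h (List.replicate (k + 1) i) g x) ^ 2) x +
      ((k : ℝ) + 1) * P h i (fun x => (Q h i (op h (List.replicate k i) g) x) ^ 2) x := by
      unfold P; ring
    rw [e1, P_sq]
    have h2 := P_sq_le h i (Q h i (op h (List.replicate k i) g)) x
    rw [← Q_P_comm] at h2
    have e2 : P h i (op h (List.replicate k i) g) = op h (List.replicate (k + 1) i) g := rfl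
    have e3 : P h i (op h (List.replicate (k + 1) i) g) x =
      op h (List.replicate (k + 1 + 1) i) g x := rfl
    rw [e2] at h2
    rw [e3]
    have h3 : ((k : ℝ) + 1) * (Q h i (op h (List.replicate (k + 1) i) g) x) ^ 2 ≤
      ((k : ℝ) + 1) * P h i (fun x => (Q h i (op h (List.replicate k i) g) x) ^ 2) x :=
      mul_le_mul_of_nonneg_left h2 (by positivity)
    push_cast
    linarith

theorem list_perm_count (i : Fin d) (l : List (Fin d)) :
    (List.replicate (l.count i) i ++ l.filter (fun j => !(j == i))).Perm l := by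
  have h1 := List.filter_append_perm (fun j => j == i) l
  rwa [List.filter_beq] at h1

theorem Q_bound (h : ℝ) (i : Fin d) (l : List (Fin d)) (g : (Fin d → ℝ) → ℝ) (B : ℝ)
    (hg : ∀ x, |g x| ≤ B) (x : Fin d → ℝ) :
    (l.count i : ℝ) * (Q h i (op h l g) x) ^ 2 ≤ B ^ 2 := by
  rw [← op_perm h (list_perm_count i l) g, op_append]
  set r := l.filter (fun j => !(j == i)) with hr
  set k := l.count i with hk
  set g' := op h r g with hg'
  have hg'B : ∀ x, |g' x| ≤ B := fun x => abs_op_le_const h r hg x
  have h1 := grad_aux h i g' k x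
  have h2 : op h (List.replicate (k + 1) i) (fun y => g' y ^ 2) x ≤ B ^ 2 := by
    apply op_le_const
    intro y
    rw [← sq_abs]
    exact pow_le_pow_left₀ (abs_nonneg _) (hg'B y) 2
  nlinarith [sq_nonneg (op h (List.replicate (k + 1) i) g' x),
    sq_nonneg (Q h i (op h (List.replicate k i) g') x)]

theorem contDiff_D {g : (Fin d → ℝ) → ℝ} (hg : ContDiff ℝ ∞ g) (i : Fin d) :
    ContDiff ℝ ∞ (D g i) := by
  unfold D
  have : ContDiff ℝ ∞ (fderiv ℝ g) := hg.fderiv_right (m := ∞) (by simp)
  exact this.clm_apply contDiff_const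

theorem cd1 {g : (Fin d → ℝ) → ℝ} (hg : ContDiff ℝ ∞ g) : ContDiff ℝ 1 g :=
  hg.of_le (by exact_mod_cast le_top)

/-- difference quotient and derivative -/
theorem Q_D (h : ℝ) (hh : 0 < h) (i : Fin d) {g : (Fin d → ℝ) → ℝ} (hg : ContDiff ℝ ∞ g) (C : ℝ)
    (hC : ∀ x, |D (D g i) i x| ≤ C) (x : Fin d → ℝ) :
    |D g i x - Q h i g x / h| ≤ h * C := by
  have hg1 : ContDiff ℝ 1 g := cd1 hg
  have hDg : ContDiff ℝ 1 (D g i) := cd1 (contDiff_D hg i)
  have hl : ∀ t, HasDerivAt (fun t => g (Function.update x i t)) (D g i (Function.update x i t)) t :=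
    fun t => hasDerivAt_line hg1 i x t
  have hl2 : ∀ t, HasDerivAt (fun t => D g i (Function.update x i t))
      (D (D g i) i (Function.update x i t)) t := fun t => hasDerivAt_line hDg i x t
  -- Lipschitz bound of the derivative
  have hlip : ∀ t, |D g i (Function.update x i t) - D g i x| ≤ C * |t - x i| := by
    intro t
    have h1 := Convex.norm_image_sub_le_of_norm_hasDerivWithin_le (s := univ)
      (f := fun t => D g i (Function.update x i t))
      (f' := fun t => D (D g i) i (Function.update x i t)) (C := C) (x := x i) (y := t)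
      (fun u _ => (hl2 u).hasDerivWithinAt) (fun u _ => hC _) convex_univ (mem_univ _) (mem_univ _)
    simpa [Function.update_eq_self] using h1
  have hcont : Continuous (fun t => D g i (Function.update x i t)) :=
    (continuous_D g hg1 i).comp (continuous_update i x)
  have hint : g (Function.update x i (x i + h)) - g (Function.update x i (x i - h)) =
      ∫ t in (x i - h)..(x i + h), D g i (Function.update x i t) := by
    rw [intervalIntegral.integral_eq_sub_of_hasDerivAt (fun t _ => hl t)
      (hcont.intervalIntegrable _ _)]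
  have e1 : x + Pi.single i h = Function.update x i (x i + h) := add_single_eq i x h
  have e2 : x - Pi.single i h = Function.update x i (x i - h) := by
    rw [sub_eq_add_neg, ← Pi.single_neg, add_single_eq, sub_eq_add_neg]
  have hval : Q h i g x / h - D g i x =
      (1 / (2 * h)) * ∫ t in (x i - h)..(x i + h), (D g i (Function.update x i t) - D g i x) := by
    rw [intervalIntegral.integral_sub (hcont.intervalIntegrable _ _)
      (continuous_const.intervalIntegrable _ _), ← hint, intervalIntegral.integral_const]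
    unfold Q
    rw [e1, e2]
    simp only [smul_eq_mul]
    field_simp
    ring
  rw [abs_sub_comm, hval, abs_mul, abs_of_pos (by positivity)]
  have hb := intervalIntegral.norm_integral_le_of_norm_le_const
    (a := x i - h) (b := x i + h) (f := fun t => D g i (Function.update x i t) - D g i x)
    (C := C * h) (fun t ht => by
      rw [uIoc_of_le (by linarith)] at ht
      refine (hlip t).trans ?_
      have hC0 : 0 ≤ C := (abs_nonneg _).trans (hC x)
      apply mul_le_mul_of_nonneg_left _ hC0
      rw [abs_le]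
      constructor <;> linarith [ht.1, ht.2])
  rw [Real.norm_eq_abs] at hb
  have e3 : |x i + h - (x i - h)| = 2 * h := by
    rw [show x i + h - (x i - h) = 2 * h by ring, abs_of_pos (by positivity)]
  rw [e3] at hb
  calc _ ≤ 1 / (2 * h) * (C * h * (2 * h)) := mul_le_mul_of_nonneg_left hb (by positivity)
    _ = h * C := by field_simp

/-- gradient bound -/
theorem grad_bound (h : ℝ) (hh : 0 < h) (i : Fin d) (l : List (Fin d)) {g : (Fin d → ℝ) → ℝ}
    (hg : ContDiff ℝ ∞ g) (B C : ℝ) (hB : ∀ x, |g x| ≤ B) (hC : ∀ x, |D (D g i) i x| ≤ C)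
    (ρ : ℝ) (hρ : 0 < ρ) (hk : ρ ≤ l.count i * h ^ 2) (x : Fin d → ℝ) :
    |D (op h l g) i x| ≤ B / √ρ + h * C := by
  have hg1 : ContDiff ℝ 1 g := hg.of_le (by exact_mod_cast le_top)
  have hB0 : 0 ≤ B := (abs_nonneg _).trans (hB x)
  rw [D_op h l hg1 i]
  have e1 : op h l (D g i) x = op h l (fun y => D g i y - (1 / h) * Q h i g y) x +
      (1 / h) * Q h i (op h l g) x := by
    rw [op_sub h l (D g i) (fun y => (1 / h) * Q h i g y), op_smul h l (1 / h) (Q h i g),
      Q_op_comm]
    ring
  rw [e1]
  have h1 : |op h l (fun y => D g i y - (1 / h) * Q h i g y) x| ≤ h * C := by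
    apply abs_op_le_const
    intro y
    have := Q_D h hh i hg C hC y
    rwa [show (1 / h) * Q h i g y = Q h i g y / h by ring]
  have h2 : |(1 / h) * Q h i (op h l g) x| ≤ B / √ρ := by
    have h3 := Q_bound h i l g B hB x
    set q := Q h i (op h l g) x with hq
    have h4 : ρ * (1 / h * q) ^ 2 ≤ B ^ 2 := by
      have h5 : ρ * (1 / h * q) ^ 2 ≤ (l.count i * h ^ 2) * (1 / h * q) ^ 2 :=
        mul_le_mul_of_nonneg_right hk (sq_nonneg _)
      have h6 : ((l.count i : ℝ) * h ^ 2) * (1 / h * q) ^ 2 = l.count i * q ^ 2 := by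
        field_simp
      linarith
    rw [le_div_iff₀ (Real.sqrt_pos.2 hρ)]
    refine (pow_le_pow_iff_left₀ (by positivity) hB0 two_ne_zero).1 ?_
    rw [mul_pow, sq_abs, Real.sq_sqrt hρ.le]
    linarith
  calc _ ≤ _ := abs_add_le _ _
    _ ≤ h * C + B / √ρ := add_le_add h1 h2
    _ = _ := by ring

end Pool.Agent.H62
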