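import Pool.Agent.Helper62K1.UB

/-!
# Almost minimisers are almost stationary
-/

set_option autoImplicit false

namespace Pool.Agent.H62

open MeasureTheory Set Filter Topology
open Pool.Agent.H48R3.CP (D continuous_D)
open scoped ContDiff

variable {d : ℕ}

theorem wf_pos {W : (Fin d → ℝ) → ℝ} (hW : ∀ x, 0 < W x ∧ W x < 1) (x : Fin d → ℝ) :
    0 < wf W x := by
  unfold wf
  apply Real.sqrt_pos.2
  have h1 := Iso_pos (hW x).1 (hW x).2
  have h2 : 0 ≤ ∑ i, D W i x ^ 2 := Finset.sum_nonneg fun _ _ => sq_nonneg _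
  have := Real.pi_pos
  positivity

theorem wf_sq {W : (Fin d → ℝ) → ℝ} (x : Fin d → ℝ) :
    wf W x ^ 2 = Real.pi ^ 2 * Iso (W x) ^ 2 + ∑ i, D W i x ^ 2 := by
  unfold wf
  rw [Real.sq_sqrt]
  have h2 : 0 ≤ ∑ i, D W i x ^ 2 := Finset.sum_nonneg fun _ _ => sq_nonneg _
  positivity

theorem wf_nonneg {W : (Fin d → ℝ) → ℝ} (x : Fin d → ℝ) : 0 ≤ wf W x := Real.sqrt_nonneg _

theorem D_le_wf {W : (Fin d → ℝ) → ℝ} (i : Fin d) (x : Fin d → ℝ) : |D W i x| ≤ wf W x := by
  unfold wf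
  apply Real.abs_le_sqrt
  have h1 : D W i x ^ 2 ≤ ∑ j, D W j x ^ 2 :=
    Finset.single_le_sum (f := fun j => D W j x ^ 2) (fun _ _ => sq_nonneg _) (Finset.mem_univ i)
  have : 0 ≤ Real.pi ^ 2 * Iso (W x) ^ 2 := by positivity
  linarith

theorem contDiff_wf {W : (Fin d → ℝ) → ℝ} (hs : ContDiff ℝ ∞ W) (hW : ∀ x, 0 < W x ∧ W x < 1) :
    ContDiff ℝ ∞ (wf W) := by
  have h1 : ContDiff ℝ ∞ (fun x => Real.pi ^ 2 * Iso (W x) ^ 2 + ∑ i, D W i x ^ 2) := by
    apply ContDiff.add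
    · exact contDiff_const.mul ((contDiff_Iso_comp hs hW).pow 2)
    · exact ContDiff.sum fun i _ => (contDiff_D hs i).pow 2
  unfold wf
  apply h1.sqrt
  intro x
  rw [← wf_sq]
  exact (pow_pos (wf_pos hW x) 2).ne'

theorem continuous_wf {W : (Fin d → ℝ) → ℝ} (hs : ContDiff ℝ 1 W) : Continuous (wf W) := by
  unfold wf
  have h1 := continuous_Iso
  have h2 := hs.continuous
  have h3 := fun i => continuous_D W hs i
  fun_prop

theorem Pe_wf {W : (Fin d → ℝ) → ℝ} (hp : Pe W) : Pe (wf W) := by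
  intro i x
  unfold wf
  rw [hp i x]
  simp only [Pe_D hp _ i x]

theorem Fn_nonneg (W : (Fin d → ℝ) → ℝ) : 0 ≤ Fn W := av_nonneg fun x => wf_nonneg x

/-- the shift along the `i`-th coordinate -/
noncomputable def Tm (i : Fin d) (s : ℝ) (X : (Fin d → ℝ) → ℝ) (x : Fin d → ℝ) : Fin d → ℝ :=
  x + Pi.single i (s * X x)

theorem contDiff_Tm {n : ℕ∞} (i : Fin d) (s : ℝ) {X : (Fin d → ℝ) → ℝ} (hX : ContDiff ℝ n X) :
    ContDiff ℝ n (Tm i s X) := by
  unfold Tm
  apply contDiff_id.add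
  rw [contDiff_pi]
  intro j
  by_cases hj : j = i
  · subst hj
    simp only [Pi.single_eq_same]
    exact contDiff_const.mul hX
  · have : (fun x : Fin d → ℝ => (Pi.single i (s * X x) : Fin d → ℝ) j) = fun _ => 0 := by
      funext x; simp [hj]
    rw [this]
    exact contDiff_const

theorem D_comp_Tm {W X : (Fin d → ℝ) → ℝ} (hW : ContDiff ℝ 1 W) (hX : ContDiff ℝ 1 X) (i : Fin d)
    (s : ℝ) (j : Fin d) (x : Fin d → ℝ) :
    D (fun x => W (Tm i s X x)) j x =
      D W j (Tm i s X x) + s * D W i (Tm i s X x) * D X j x := by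
  have hT : HasFDerivAt (Tm i s X)
      (ContinuousLinearMap.id ℝ (Fin d → ℝ) +
        (ContinuousLinearMap.single ℝ (fun _ : Fin d => ℝ) i).comp (s • fderiv ℝ X x)) x := by
    unfold Tm
    apply (hasFDerivAt_id x).add
    have h1 := ((hX.differentiable (by norm_num) x).hasFDerivAt).const_smul s
    exact (ContinuousLinearMap.hasFDerivAt (ContinuousLinearMap.single ℝ (fun _ : Fin d => ℝ) i)).comp x h1
  have h2 := (hW.differentiable (by norm_num) (Tm i s X x)).hasFDerivAt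
  have h3 := h2.comp x hT
  unfold D
  have h4 : fderiv ℝ (fun x => W (Tm i s X x)) x = _ := h3.fderiv
  rw [h4]
  have e : (Pi.single i (s * (fderiv ℝ X x) (Pi.single j 1)) : Fin d → ℝ) =
      (s * (fderiv ℝ X x) (Pi.single j 1)) • Pi.single i 1 := by
    rw [← Pi.single_smul, smul_eq_mul, mul_one]
  simp only [ContinuousLinearMap.comp_apply, add_apply, ContinuousLinearMap.id_apply, smul_apply,
    smul_eq_mul, map_add, ContinuousLinearMap.single_apply]
  rw [e, map_smul, smul_eq_mul]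
  ring

theorem comp_bound {W X : (Fin d → ℝ) → ℝ} (hW : ContDiff ℝ 1 W) (hX : ContDiff ℝ 1 X)
    (h01 : ∀ x, 0 < W x ∧ W x < 1) (i : Fin d) (s : ℝ) (x : Fin d → ℝ) :
    wf (fun x => W (Tm i s X x)) x ≤ wf W (Tm i s X x) +
      s * ∑ j, (D W i (Tm i s X x) * D W j (Tm i s X x) / wf W (Tm i s X x)) * D X j x +
      (s ^ 2 / 2) * (wf W (Tm i s X x) * ∑ j, D X j x ^ 2) := by
  set y := Tm i s X x with hy
  set a := wf W y with ha
  have ha0 : 0 < a := wf_pos h01 y
  have ha2 := wf_sq (W := W) y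
  rw [← ha] at ha2
  have e1 : wf (fun x => W (Tm i s X x)) x ^ 2 =
      a ^ 2 + 2 * s * (D W i y * ∑ j, D W j y * D X j x) +
        s ^ 2 * D W i y ^ 2 * ∑ j, D X j x ^ 2 := by
    rw [wf_sq, ha2]
    simp only [D_comp_Tm hW hX i s]
    rw [← hy]
    have : ∑ j, (D W j y + s * D W i y * D X j x) ^ 2 = ∑ j, D W j y ^ 2 +
        2 * s * (D W i y * ∑ j, D W j y * D X j x) + s ^ 2 * D W i y ^ 2 * ∑ j, D X j x ^ 2 := by
      rw [Finset.mul_sum, Finset.mul_sum, Finset.mul_sum, ← Finset.sum_add_distrib,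
        ← Finset.sum_add_distrib]
      apply Finset.sum_congr rfl
      intro j _
      ring
    rw [this]
    ring
  have e2 : s * ∑ j, (D W i y * D W j y / a) * D X j x =
      s * (D W i y * ∑ j, D W j y * D X j x) / a := by
    rw [Finset.mul_sum, Finset.mul_sum, Finset.mul_sum, Finset.sum_div]
    apply Finset.sum_congr rfl
    intro j _
    field_simp
  rw [e2]
  set S := D W i y * ∑ j, D W j y * D X j x with hS
  set V := ∑ j, D X j x ^ 2 with hV
  have hV0 : 0 ≤ V := Finset.sum_nonneg fun _ _ => sq_nonneg _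
  set z := wf (fun x => W (Tm i s X x)) x with hz
  have hz0 : 0 ≤ z := wf_nonneg _
  have hDi : D W i y ^ 2 ≤ a ^ 2 := by
    rw [← sq_abs]
    exact pow_le_pow_left₀ (abs_nonneg _) (D_le_wf i y) 2
  have h1 : z ^ 2 ≤ a ^ 2 + 2 * s * S + s ^ 2 * a ^ 2 * V := by
    rw [e1]
    have : s ^ 2 * D W i y ^ 2 * V ≤ s ^ 2 * a ^ 2 * V :=
      mul_le_mul_of_nonneg_right (mul_le_mul_of_nonneg_left hDi (sq_nonneg s)) hV0
    linarith
  -- z ≤ (z² + a²)/(2a)
  have h2 : z ≤ (z ^ 2 + a ^ 2) / (2 * a) := by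
    rw [le_div_iff₀ (by positivity)]
    nlinarith [sq_nonneg (z - a)]
  refine h2.trans ?_
  rw [div_le_iff₀ (by positivity)]
  have e3 : (a + s * S / a + s ^ 2 / 2 * (a * V)) * (2 * a) =
      2 * a ^ 2 + 2 * s * S + s ^ 2 * a ^ 2 * V := by
    field_simp
  rw [e3]
  linarith

/-- replacing a factor -/
theorem replace_bound {G V X Z : (Fin d → ℝ) → ℝ} (hG : Continuous G) (hGp : Pe G)
    (hV : Continuous V) (hVp : Pe V) (hGV : ∀ x, |G x| ≤ V x)
    (hX : ContDiff ℝ 1 X) (hXp : Pe X) (hZ : ContDiff ℝ 1 Z) (hZp : Pe Z) (i : Fin d) (s B : ℝ)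
    (hs : 0 ≤ s) (hB : 0 ≤ B)
    (hX0 : ∀ x, |X x| ≤ B) (hX1 : ∀ x, |D X i x| ≤ B) (hZ0 : ∀ x, |Z x| ≤ B)
    (hZ1 : ∀ x, |D Z i x| ≤ B) (hsB : s * B ≤ 1 / 2) :
    |av (fun x => G (Tm i s X x) * Z x) - av (fun x => G x * Z x)| ≤ 4 * s * B ^ 2 * av V := by
  have hXc := hX.continuous
  have hZc := hZ.continuous
  have hDc := continuous_D X hX i
  have hTc : Continuous (Tm i s X) := (contDiff_Tm (n := 1) i s hX).continuous
  have h1 := av_subst (G := fun x => G x * Z x) (X := X) (by fun_prop) (Pe_mul hGp hZp) hX hXp i s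
  rw [← h1]
  have e1 : (fun x : Fin d → ℝ => G (x + Pi.single i (s * X x)) * Z (x + Pi.single i (s * X x)) *
      (1 + s * D X i x)) = fun x => G (Tm i s X x) * Z (Tm i s X x) * (1 + s * D X i x) := rfl
  rw [e1, ← av_sub (by fun_prop) (by fun_prop)]
  have h2 : ∀ x, |Z x - Z (Tm i s X x)| ≤ s * B ^ 2 := by
    intro x
    have hl : ∀ t, HasDerivAt (fun t => Z (Function.update x i t))
      (D Z i (Function.update x i t)) t := fun t => hasDerivAt_line hZ i x t
    have h3 := Convex.norm_image_sub_le_of_norm_hasDerivWithin_le (s := univ)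
      (f := fun t => Z (Function.update x i t))
      (f' := fun t => D Z i (Function.update x i t)) (C := B) (x := x i + s * X x) (y := x i)
      (fun u _ => (hl u).hasDerivWithinAt) (fun u _ => hZ1 _) convex_univ (mem_univ _) (mem_univ _)
    simp only [Function.update_eq_self, Real.norm_eq_abs] at h3
    unfold Tm
    rw [add_single_eq]
    refine h3.trans ?_
    have e2 : |x i - (x i + s * X x)| = s * |X x| := by
      rw [show x i - (x i + s * X x) = -(s * X x) by ring, abs_neg, abs_mul, abs_of_nonneg hs]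
    rw [e2]
    have := mul_le_mul_of_nonneg_left (hX0 x) hs
    nlinarith
  have h3 : ∀ x, |G (Tm i s X x) * Z x - G (Tm i s X x) * Z (Tm i s X x) * (1 + s * D X i x)| ≤
      2 * s * B ^ 2 * V (Tm i s X x) := by
    intro x
    have e3 : G (Tm i s X x) * Z x - G (Tm i s X x) * Z (Tm i s X x) * (1 + s * D X i x) =
      G (Tm i s X x) * ((Z x - Z (Tm i s X x)) - s * (Z (Tm i s X x) * D X i x)) := by ring
    rw [e3, abs_mul]
    have h4 : |(Z x - Z (Tm i s X x)) - s * (Z (Tm i s X x) * D X i x)| ≤ 2 * s * B ^ 2 := by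
      have h5 : |s * (Z (Tm i s X x) * D X i x)| ≤ s * B ^ 2 := by
        rw [abs_mul, abs_mul, abs_of_nonneg hs, sq]
        exact mul_le_mul_of_nonneg_left
          (mul_le_mul (hZ0 _) (hX1 _) (abs_nonneg _) hB) hs
      calc _ ≤ |Z x - Z (Tm i s X x)| + |s * (Z (Tm i s X x) * D X i x)| := abs_sub _ _
        _ ≤ _ := by linarith [h2 x]
    have h6 := hGV (Tm i s X x)
    calc |G (Tm i s X x)| * |(Z x - Z (Tm i s X x)) - s * (Z (Tm i s X x) * D X i x)|
        ≤ V (Tm i s X x) * (2 * s * B ^ 2) :=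
          mul_le_mul h6 h4 (abs_nonneg _) ((abs_nonneg _).trans h6)
      _ = _ := by ring
  have h4 : |av (fun x => G (Tm i s X x) * Z x -
      G (Tm i s X x) * Z (Tm i s X x) * (1 + s * D X i x))| ≤
      av (fun x => 2 * s * B ^ 2 * V (Tm i s X x)) := by
    unfold av
    refine (abs_integral_le_integral_abs).trans ?_
    exact av_mono (by fun_prop) (by fun_prop) h3
  refine h4.trans ?_
  rw [av_mul_left]
  have h5 : av (fun x => V (Tm i s X x)) ≤ 2 * av V := by
    have h6 := av_subst (G := V) (X := X) hV hVp hX hXp i s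
    rw [← h6, ← av_mul_left]
    have e4 : (fun x : Fin d → ℝ => 2 * (V (x + Pi.single i (s * X x)) * (1 + s * D X i x))) =
      fun x => 2 * (V (Tm i s X x) * (1 + s * D X i x)) := rfl
    rw [e4]
    apply av_mono (by fun_prop) (by fun_prop)
    intro x
    have h7 : 0 ≤ V (Tm i s X x) := (abs_nonneg _).trans (hGV _)
    have h8 : -(1/2) ≤ s * D X i x := by
      have h9 := (abs_le.1 (hX1 x)).1
      nlinarith
    nlinarith
  have : 0 ≤ 2 * s * B ^ 2 := by positivity
  nlinarith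

end Pool.Agent.H62
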