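import Pool.Agent.Helper62K1.Stat

/-!
# Almost minimisers are almost stationary: the main estimate
-/

set_option autoImplicit false

namespace Pool.Agent.H62

open MeasureTheory Set Filter Topology
open Pool.Agent.H48R3.CP (D continuous_D)
open scoped ContDiff

variable {d : ℕ}

/-- the first variation -/
noncomputable def Sf (W : (Fin d → ℝ) → ℝ) (H : ℝ) (i : Fin d) (X : (Fin d → ℝ) → ℝ) : ℝ :=
  av (fun x => wf W x * D X i x) -
    ∑ j, av (fun x => (D W i x * D W j x / wf W x) * D X j x) + H * av (fun x => D W i x * X x)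

theorem rf_rf (i : Fin d) (x : Fin d → ℝ) : rf i (rf i x) = x := by
  funext k
  unfold rf
  by_cases hk : k = i
  · subst hk; simp
  · simp [Function.update_of_ne hk]

theorem Ev_comp_Tm {W X : (Fin d → ℝ) → ℝ} (hWe : Ev W) (i : Fin d)
    (hodd : ∀ x, X (rf i x) = - X x) (heven : ∀ j, j ≠ i → ∀ x, X (rf j x) = X x) (s : ℝ) :
    Ev (fun x => W (Tm i s X x)) := by
  intro j x
  show W (rf j x + Pi.single i (s * X (rf j x))) = W (x + Pi.single i (s * X x))
  by_cases hji : j = i
  · subst hji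
    rw [hodd, rf_add, if_pos rfl, hWe]
    congr 1
    rw [mul_neg, Pi.single_neg]
    abel
  · rw [heven j hji, rf_add, if_neg (Ne.symm hji), hWe]

theorem Pe_comp_Tm {W X : (Fin d → ℝ) → ℝ} (hWp : Pe W) (i : Fin d) (hXp : Pe X) (s : ℝ) :
    Pe (fun x => W (Tm i s X x)) := by
  intro j x
  show W (x + Pi.single j 2 + Pi.single i (s * X (x + Pi.single j 2))) =
    W (x + Pi.single i (s * X x))
  rw [hXp j x]
  have : x + Pi.single j 2 + Pi.single i (s * X x) = x + Pi.single i (s * X x) + Pi.single j 2 := by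
    abel
  rw [this, hWp]

theorem stat {W X : (Fin d → ℝ) → ℝ} (l y H K r : ℝ) (hH : 0 ≤ H) (hK : 0 ≤ K)
    (A1 : ∀ f : (Fin d → ℝ) → ℝ, ContDiff ℝ 1 f → Ev f → Pe f → (∀ x, 0 < f x ∧ f x < 1) →
      |av f - l| < r → y + H * (av f - l) - K * (av f - l) ^ 2 ≤ Fn f)
    (hWs : ContDiff ℝ ∞ W) (hWe : Ev W) (hWp : Pe W) (h01 : ∀ x, 0 < W x ∧ W x < 1)
    (i : Fin d) (hXs : ContDiff ℝ ∞ X) (hXp : Pe X) (hodd : ∀ x, X (rf i x) = - X x)
    (heven : ∀ j, j ≠ i → ∀ x, X (rf j x) = X x) (B : ℝ) (hB : 0 ≤ B)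
    (hX0 : ∀ x, |X x| ≤ B) (hX1 : ∀ j x, |D X j x| ≤ B) (hX2 : ∀ j x, |D (D X j) i x| ≤ B)
    (ε : ℝ) (hε : 0 ≤ ε) (hF : Fn W ≤ y + ε) (hv : |av W - l| ≤ ε)
    (s : ℝ) (hs : 0 < s) (hsB : s * B ≤ 1 / 2) (hr : ε + 3 * s * B < r) :
    s * Sf W H i X ≤ (1 + H) * ε + K * (ε + 3 * s * B) ^ 2 +
      s ^ 2 * B ^ 2 * (4 * H + (5 * d + 4) * Fn W) := by
  have hW1 := cd1 hWs
  have hX1' := cd1 hXs
  have hWc := hWs.continuous
  have hXc := hXs.continuous
  have hDW := fun j => continuous_D W hW1 j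
  have hDX := fun j => continuous_D X hX1' j
  have hwc : Continuous (wf W) := continuous_wf hW1
  have hw0 : ∀ x, 0 < wf W x := wf_pos h01
  have hwp : Pe (wf W) := Pe_wf hWp
  have hTc : Continuous (Tm i s X) := (contDiff_Tm (n := ⊤) i s hXs).continuous
  set N := Fn W with hN
  have hN0 : 0 ≤ N := Fn_nonneg W
  set f : (Fin d → ℝ) → ℝ := fun x => W (Tm i s X x) with hf
  have hf1 : ContDiff ℝ 1 f := hW1.comp (contDiff_Tm (n := 1) i s hX1')
  -- the functions R j
  set R : Fin d → (Fin d → ℝ) → ℝ := fun j x => D W i x * D W j x / wf W x with hR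
  have hRc : ∀ j, Continuous (R j) := fun j =>
    ((hDW i).mul (hDW j)).div hwc (fun x => (hw0 x).ne')
  have hRp : ∀ j, Pe (R j) := by
    intro j k x
    simp only [hR]
    rw [Pe_D hWp i k x, Pe_D hWp j k x, hwp k x]
  have hRw : ∀ j x, |R j x| ≤ wf W x := by
    intro j x
    simp only [hR]
    rw [abs_div, abs_mul, abs_of_pos (hw0 x), div_le_iff₀ (hw0 x)]
    exact mul_le_mul (D_le_wf i x) (D_le_wf j x) (abs_nonneg _) (hw0 x).le
  -- (a) bound of Fn f
  have hVc : Continuous (fun x => ∑ j, D X j x ^ 2) := by fun_prop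
  have ha : Fn f ≤ av (fun x => wf W (Tm i s X x)) +
      s * ∑ j, av (fun x => R j (Tm i s X x) * D X j x) +
      (s ^ 2 / 2) * av (fun x => wf W (Tm i s X x) * ∑ j, D X j x ^ 2) := by
    have h1 : Fn f ≤ av (fun x => wf W (Tm i s X x) + s * ∑ j, R j (Tm i s X x) * D X j x +
        (s ^ 2 / 2) * (wf W (Tm i s X x) * ∑ j, D X j x ^ 2)) := by
      unfold Fn
      apply av_mono (continuous_wf hf1) (by fun_prop)
      intro x
      exact comp_bound hW1 hX1' h01 i s x
    rw [av_add (u := fun x => wf W (Tm i s X x) + s * ∑ j, R j (Tm i s X x) * D X j x)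
      (v := fun x => (s ^ 2 / 2) * (wf W (Tm i s X x) * ∑ j, D X j x ^ 2))
      (by fun_prop) (by fun_prop),
      av_add (u := fun x => wf W (Tm i s X x)) (v := fun x => s * ∑ j, R j (Tm i s X x) * D X j x)
      (by fun_prop) (by fun_prop), av_mul_left, av_mul_left,
      av_sum Finset.univ (u := fun j x => R j (Tm i s X x) * D X j x)
      (fun j => by fun_prop)] at h1
    exact h1
  -- (b) the leading term
  have hb : av (fun x => wf W (Tm i s X x)) = N - s * av (fun x => wf W (Tm i s X x) * D X i x) := by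
    have h6 := av_subst (G := wf W) (X := X) hwc hwp hX1' hXp i s
    have e : (fun x : Fin d → ℝ => wf W (x + Pi.single i (s * X x)) * (1 + s * D X i x)) =
        fun x => wf W (Tm i s X x) + s * (wf W (Tm i s X x) * D X i x) := by
      funext x
      unfold Tm
      ring
    rw [e, av_add (by fun_prop) (by fun_prop), av_mul_left] at h6
    have : av (wf W) = N := rfl
    linarith
  have hbd : ∀ j : Fin d, ∀ G : (Fin d → ℝ) → ℝ, Continuous G → Pe G → (∀ x, |G x| ≤ wf W x) →
      |av (fun x => G (Tm i s X x) * D X j x) - av (fun x => G x * D X j x)| ≤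
        4 * s * B ^ 2 * N := by
    intro j G hG hGp hGV
    exact replace_bound hG hGp hwc hwp hGV hX1' hXp (cd1 (contDiff_D hXs j)) (Pe_D hXp j) i s B
      hs.le hB hX0 (hX1 i) (hX1 j) (hX2 j) hsB
  have hc1 := hbd i (wf W) hwc hwp (fun x => by rw [abs_of_pos (hw0 x)])
  have hc2 := fun j => hbd j (R j) (hRc j) (hRp j) (hRw j)
  -- (c) the second order term
  have hc3 : av (fun x => wf W (Tm i s X x) * ∑ j, D X j x ^ 2) ≤ 2 * d * B ^ 2 * N := by
    have h1 : av (fun x => wf W (Tm i s X x) * ∑ j, D X j x ^ 2) ≤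
        av (fun x => (d * B ^ 2) * wf W (Tm i s X x)) := by
      apply av_mono (by fun_prop) (by fun_prop)
      intro x
      have h2 : ∑ j, D X j x ^ 2 ≤ ∑ _j : Fin d, B ^ 2 := by
        apply Finset.sum_le_sum
        intro j _
        rw [← sq_abs]
        exact pow_le_pow_left₀ (abs_nonneg _) (hX1 j x) 2
      rw [Finset.sum_const, Finset.card_univ, Fintype.card_fin, nsmul_eq_mul] at h2
      have := mul_le_mul_of_nonneg_left h2 (hw0 (Tm i s X x)).le
      linarith
    rw [av_mul_left] at h1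
    have h5 : av (fun x => wf W (Tm i s X x)) ≤ 2 * N := by
      have h6 := av_subst (G := wf W) (X := X) hwc hwp hX1' hXp i s
      have h7 : N = av (fun x : Fin d → ℝ => wf W (x + Pi.single i (s * X x)) * (1 + s * D X i x)) :=
        h6.symm
      rw [h7, ← av_mul_left]
      have e4 : (fun x : Fin d → ℝ => 2 * (wf W (x + Pi.single i (s * X x)) * (1 + s * D X i x))) =
        fun x => 2 * (wf W (Tm i s X x) * (1 + s * D X i x)) := rfl
      rw [e4]
      apply av_mono (by fun_prop) (by fun_prop)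
      intro x
      have h7 := (hw0 (Tm i s X x)).le
      have h8 : -(1/2) ≤ s * D X i x := by
        have h9 := (abs_le.1 (hX1 i x)).1
        nlinarith
      nlinarith
    have : 0 ≤ (d : ℝ) * B ^ 2 := by positivity
    nlinarith
  -- (d) the volume
  have hW1' : ∀ x, |W x| ≤ 1 := fun x => by
    rw [abs_of_pos (h01 x).1]; exact (h01 x).2.le
  have hd1 : av f = av W - s * av (fun x => W (Tm i s X x) * D X i x) := by
    have h6 := av_subst (G := W) (X := X) hWc hWp hX1' hXp i s
    have e : (fun x : Fin d → ℝ => W (x + Pi.single i (s * X x)) * (1 + s * D X i x)) =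
        fun x => f x + s * (W (Tm i s X x) * D X i x) := by
      funext x
      simp only [hf]
      unfold Tm
      ring
    rw [e, av_add (by fun_prop) (by fun_prop), av_mul_left] at h6
    linarith
  have hd2 : |av (fun x => W (Tm i s X x) * D X i x) - av (fun x => W x * D X i x)| ≤
      4 * s * B ^ 2 * av (fun _ : Fin d → ℝ => (1:ℝ)) :=
    replace_bound hWc hWp continuous_const (Pe_const 1) hW1' hX1' hXp
      (cd1 (contDiff_D hXs i)) (Pe_D hXp i) i s B hs.le hB hX0 (hX1 i) (hX1 i) (hX2 i) hsB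
  rw [av_const, mul_one] at hd2
  have hd3 : av (fun x => W x * D X i x) = - av (fun x => D W i x * X x) :=
    av_ibp hW1 hX1' hWp hXp i
  have hd4 : |av (fun x => W x * D X i x)| ≤ B := by
    have h1 : |av (fun x => W x * D X i x)| ≤ av (fun x => |W x * D X i x|) := by
      unfold av
      exact abs_integral_le_integral_abs
    refine h1.trans (av_le_const (by fun_prop) fun x => ?_)
    rw [abs_mul]
    have := mul_le_mul (hW1' x) (hX1 i x) (abs_nonneg _) zero_le_one
    linarith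
  set a1 := av (fun x => wf W (Tm i s X x) * D X i x) with ha1
  set b1 := av (fun x => wf W x * D X i x) with hb1
  set m1 := av (fun x => W (Tm i s X x) * D X i x) with hm1
  set n1 := av (fun x => W x * D X i x) with hn1
  set p1 := av (fun x => D W i x * X x) with hp1
  rw [abs_le] at hc1 hd2 hd4 hv
  have hsum : ∑ j, av (fun x => R j (Tm i s X x) * D X j x) ≤
      ∑ j, av (fun x => R j x * D X j x) + d * (4 * s * B ^ 2 * N) := by
    have h1 : ∑ j, av (fun x => R j (Tm i s X x) * D X j x) ≤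
        ∑ j, (av (fun x => R j x * D X j x) + 4 * s * B ^ 2 * N) := by
      apply Finset.sum_le_sum
      intro j _
      linarith [(abs_le.1 (hc2 j)).2]
    rw [Finset.sum_add_distrib, Finset.sum_const, Finset.card_univ, Fintype.card_fin,
      nsmul_eq_mul] at h1
    exact h1
  have hSf : Sf W H i X = b1 - ∑ j, av (fun x => R j x * D X j x) + H * p1 := rfl
  rw [hSf]
  set S1 := ∑ j, av (fun x => R j (Tm i s X x) * D X j x) with hS1
  set S2 := ∑ j, av (fun x => R j x * D X j x) with hS2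
  set V := av f with hV
  have hsB0 : 0 ≤ s * B := by positivity
  have hm1le : |m1| ≤ 3 * B := by
    rw [abs_le]
    have : 4 * s * B ^ 2 ≤ 2 * B := by nlinarith
    constructor <;> linarith [hd2.1, hd2.2, hd4.1, hd4.2]
  have hVl : |V - l| ≤ ε + 3 * s * B := by
    rw [abs_le] at hm1le ⊢
    have h1 : s * m1 ≤ s * (3 * B) := mul_le_mul_of_nonneg_left hm1le.2 hs.le
    have h2 : s * (-(3 * B)) ≤ s * m1 := mul_le_mul_of_nonneg_left hm1le.1 hs.le
    constructor <;> nlinarith [hv.1, hv.2]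
  have hA := A1 f hf1 (Ev_comp_Tm hWe i hodd heven s) (Pe_comp_Tm hWp i hXp s)
    (fun x => h01 _) (lt_of_le_of_lt hVl hr)
  rw [← hV] at hA
  have hKsq : K * (V - l) ^ 2 ≤ K * (ε + 3 * s * B) ^ 2 := by
    apply mul_le_mul_of_nonneg_left _ hK
    rw [← sq_abs]
    exact pow_le_pow_left₀ (abs_nonneg _) hVl 2
  -- V - l ≥ (av W - l) + s p1 - 4 s² B²
  have hV2 : V - av W ≤ V - av W := le_rfl
  have hV3 : s * p1 ≤ V - av W + 4 * s ^ 2 * B ^ 2 := by
    have h1 : s * (m1 - n1) ≤ s * (4 * s * B ^ 2) := mul_le_mul_of_nonneg_left hd2.2 hs.le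
    rw [hd3] at h1
    have h2 : V - av W = - (s * m1) := by rw [hd1]; ring
    rw [h2]
    nlinarith
  have hHV : H * (s * p1) ≤ H * (V - av W + 4 * s ^ 2 * B ^ 2) :=
    mul_le_mul_of_nonneg_left hV3 hH
  have e1 : s * a1 ≥ s * (b1 - 4 * s * B ^ 2 * N) :=
    mul_le_mul_of_nonneg_left (by linarith [hc1.1]) hs.le
  have e2 : s * S1 ≤ s * (S2 + d * (4 * s * B ^ 2 * N)) := mul_le_mul_of_nonneg_left hsum hs.le
  have e3 : s ^ 2 / 2 * av (fun x => wf W (Tm i s X x) * ∑ j, D X j x ^ 2) ≤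
      s ^ 2 / 2 * (2 * d * B ^ 2 * N) := mul_le_mul_of_nonneg_left hc3 (by positivity)
  have e4 : H * (av W - l) ≥ - (H * ε) := by
    have := mul_le_mul_of_nonneg_left hv.1 hH
    linarith
  rw [hb] at ha
  linarith

end Pool.Agent.H62
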