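import Mathlib

/-!
# The regularised tangent profile
-/

set_option autoImplicit false

namespace Pool.Agent.H62

open Real
open scoped ContDiff

/-- regularised sawtooth -/
noncomputable def th (q t : ℝ) : ℝ :=
  -(1 / π) * arctan (sin (π * t) * cos (π * t) / (sin (π * t) ^ 2 + q))

/-- the Riccati profile -/
noncomputable def Af (κ q t : ℝ) : ℝ := κ * tan (κ * th q t)

/-- the error profile -/
noncomputable def pf (q t : ℝ) : ℝ := (q + q ^ 2) / ((1 + 2 * q) * sin (π * t) ^ 2 + q ^ 2)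

variable {κ q : ℝ}

theorem th_bound (hκ : 0 < κ) (hκπ : κ ≤ π) (t : ℝ) : |κ * th q t| < κ / 2 := by
  unfold th
  set a := arctan (sin (π * t) * cos (π * t) / (sin (π * t) ^ 2 + q)) with ha
  have h1 := arctan_lt_pi_div_two (sin (π * t) * cos (π * t) / (sin (π * t) ^ 2 + q))
  have h2 := neg_pi_div_two_lt_arctan (sin (π * t) * cos (π * t) / (sin (π * t) ^ 2 + q))
  rw [← ha] at h1 h2
  have h3 : |a| < π / 2 := abs_lt.2 ⟨by linarith, h1⟩
  rw [abs_mul, abs_mul, abs_of_pos hκ, abs_neg, abs_of_pos (by positivity : 0 < 1 / π)]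
  have h4 : 1 / π * |a| < 1 / 2 := by
    rw [one_div, inv_mul_lt_iff₀ pi_pos]
    linarith
  nlinarith

theorem cos_pos_aux (hκ : 0 < κ) (hκπ : κ ≤ π) (t : ℝ) : 0 < cos (κ * th q t) := by
  have h1 := abs_lt.1 (th_bound (q := q) hκ hκπ t)
  apply cos_pos_of_mem_Ioo
  constructor <;> linarith [h1.1, h1.2]

theorem contDiff_th (hq : 0 < q) : ContDiff ℝ ∞ (th q) := by
  unfold th
  apply contDiff_const.mul
  apply contDiff_arctan.comp
  apply ContDiff.div
  · exact (contDiff_sin.comp (contDiff_const.mul contDiff_id)).mul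
      (contDiff_cos.comp (contDiff_const.mul contDiff_id))
  · exact ((contDiff_sin.comp (contDiff_const.mul contDiff_id)).pow 2).add contDiff_const
  · intro t
    positivity

theorem contDiff_Af (hκ : 0 < κ) (hκπ : κ ≤ π) (hq : 0 < q) : ContDiff ℝ ∞ (Af κ q) := by
  unfold Af
  apply contDiff_const.mul
  rw [contDiff_iff_contDiffAt]
  intro t
  have h1 : ContDiffAt ℝ ∞ tan (κ * th q t) := contDiffAt_tan.2 (cos_pos_aux hκ hκπ t).ne'
  have h2 : ContDiffAt ℝ ∞ (fun t => κ * th q t) t :=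
    (contDiff_const.mul (contDiff_th hq)).contDiffAt
  exact ContDiffAt.comp t (g := tan) (f := fun t => κ * th q t) h1 h2

theorem th_add_two (t : ℝ) : th q (t + 2) = th q t := by
  unfold th
  have e : π * (t + 2) = π * t + 2 * π := by ring
  rw [e, sin_add_two_pi, cos_add_two_pi]

theorem th_neg (t : ℝ) : th q (-t) = - th q t := by
  unfold th
  have e : π * (-t) = -(π * t) := by ring
  rw [e, sin_neg, cos_neg]
  have e2 : -sin (π * t) * cos (π * t) / ((-sin (π * t)) ^ 2 + q) =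
      -(sin (π * t) * cos (π * t) / (sin (π * t) ^ 2 + q)) := by
    rw [neg_sq]; ring
  rw [e2, arctan_neg]
  ring

theorem Af_add_two (t : ℝ) : Af κ q (t + 2) = Af κ q t := by
  unfold Af; rw [th_add_two]

theorem Af_neg (t : ℝ) : Af κ q (-t) = - Af κ q t := by
  unfold Af
  rw [th_neg, mul_neg, tan_neg]
  ring

theorem Af_bound (hκ : 0 < κ) (hκπ : κ < π) (t : ℝ) : |Af κ q t| ≤ κ * tan (κ / 2) := by
  have h1 := abs_lt.1 (th_bound (q := q) hκ hκπ.le t)
  unfold Af
  rw [abs_mul, abs_of_pos hκ]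
  apply mul_le_mul_of_nonneg_left _ hκ.le
  have hk : κ / 2 < π / 2 := by linarith
  rw [abs_le]
  constructor
  · rw [← tan_neg]
    exact (tan_lt_tan_of_lt_of_lt_pi_div_two (by linarith) (by linarith [h1.2]) h1.1).le
  · exact (tan_lt_tan_of_lt_of_lt_pi_div_two (by linarith [h1.1]) hk h1.2).le

theorem hasDerivAt_th (hq : 0 < q) (t : ℝ) : HasDerivAt (th q) (1 - pf q t) t := by
  have hlin : HasDerivAt (fun t : ℝ => π * t) π t := by
    simpa using (hasDerivAt_id t).const_mul π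
  have hs : HasDerivAt (fun t => sin (π * t)) (cos (π * t) * π) t := (hasDerivAt_sin _).comp t hlin
  have hc : HasDerivAt (fun t => cos (π * t)) (-sin (π * t) * π) t :=
    (hasDerivAt_cos _).comp t hlin
  have hden : sin (π * t) ^ 2 + q ≠ 0 := by positivity
  have hd : HasDerivAt (fun t => sin (π * t) ^ 2 + q) (2 * sin (π * t) * (cos (π * t) * π)) t := by
    have := (hs.pow 2).add_const q
    simpa using this
  have hr := (hs.mul hc).div hd hden
  have h1 := (hr.arctan).const_mul (-(1 / π))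
  refine h1.congr_deriv ?_
  unfold pf
  have hcs : cos (π * t) ^ 2 = 1 - sin (π * t) ^ 2 := by
    have := sin_sq_add_cos_sq (π * t); linarith
  set S := sin (π * t) with hS
  set C := cos (π * t) with hC
  have hπ : π ≠ 0 := pi_ne_zero
  have hd2 : (1 + 2 * q) * S ^ 2 + q ^ 2 ≠ 0 := by positivity
  have hd3 : 1 + (S * C / (S ^ 2 + q)) ^ 2 = ((1 + 2 * q) * S ^ 2 + q ^ 2) / (S ^ 2 + q) ^ 2 := by
    rw [div_pow, mul_pow, hcs]
    field_simp
    ring
  simp only [Pi.mul_apply, Pi.div_apply, ← hS, ← hC]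
  rw [hd3]
  have hden' : S ^ 2 + q ≠ 0 := hden
  field_simp
  have e : C ^ 2 = 1 - S ^ 2 := hcs
  ring_nf
  rw [show C ^ 2 = 1 - S ^ 2 from e]
  ring

theorem hasDerivAt_Af (hκ : 0 < κ) (hκπ : κ ≤ π) (hq : 0 < q) (t : ℝ) :
    HasDerivAt (Af κ q) ((κ ^ 2 + Af κ q t ^ 2) * (1 - pf q t)) t := by
  have hc := cos_pos_aux (q := q) hκ hκπ t
  have h1 : HasDerivAt (fun t => κ * th q t) (κ * (1 - pf q t)) t := (hasDerivAt_th hq t).const_mul κ
  have h2 := ((hasDerivAt_tan hc.ne').comp t h1).const_mul κ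
  have h3 : HasDerivAt (Af κ q) (κ * (1 / cos (κ * th q t) ^ 2 * (κ * (1 - pf q t)))) t := h2
  refine h3.congr_deriv ?_
  unfold Af
  rw [mul_pow, tan_eq_sin_div_cos, div_pow]
  have hcs : sin (κ * th q t) ^ 2 = 1 - cos (κ * th q t) ^ 2 := by
    have := sin_sq_add_cos_sq (κ * th q t); linarith
  rw [hcs]
  have := hc.ne'
  field_simp
  ring

theorem pf_nonneg (hq : 0 < q) (t : ℝ) : 0 ≤ pf q t := by
  unfold pf; positivity

theorem pf_mul_sin (hq : 0 < q) (t : ℝ) : pf q t * sin (π * t) ^ 2 ≤ q := by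
  unfold pf
  rw [div_mul_eq_mul_div, div_le_iff₀ (by positivity)]
  have : 0 ≤ sin (π * t) ^ 2 := sq_nonneg _
  nlinarith [mul_nonneg (sq_nonneg q) this, pow_pos hq 3]

theorem continuous_pf (hq : 0 < q) : Continuous (pf q) := by
  unfold pf
  apply Continuous.div
  · exact continuous_const
  · fun_prop
  · intro t; positivity

end Pool.Agent.H62
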