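import Pool.Agent.Helper62K1.Core

/-!
# Telescoping
-/

set_option autoImplicit false

namespace Pool.Agent.H62

open MeasureTheory Set Filter Topology
open Pool.Agent.H48R3.CP (D continuous_D)
open scoped ContDiff

variable {d : ℕ} {W : (Fin d → ℝ) → ℝ}

theorem step_id {ι : Type*} (s : Finset ι) (A1 A2 : ι → ℝ) (m1 m2 : ℝ) (h1 : 0 < m1) (h2 : 0 < m2) :
    ((∑ b ∈ s, A1 b ^ 2) * m1⁻¹ + (∑ b ∈ s, A2 b ^ 2) * m2⁻¹) / 2 -
      (∑ b ∈ s, ((A1 b + A2 b) / 2) ^ 2) * ((m1 + m2) / 2)⁻¹ =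
    ∑ b ∈ s, (A1 b * m2 - A2 b * m1) ^ 2 / (2 * (m1 * m2 * (m1 + m2))) := by
  rw [Finset.sum_mul, Finset.sum_mul, Finset.sum_mul, ← Finset.sum_add_distrib, Finset.sum_div,
    ← Finset.sum_sub_distrib]
  apply Finset.sum_congr rfl
  intro b _
  field_simp
  ring

theorem Qf_step (hW : Good W) (h : ℝ) (i : Fin d) (l : List (Fin d)) :
    Qf W h l - Qf W h (i :: l) = av (fun x => ∑ b,
      (aL W h l b (x + Pi.single i h) * mL W h l (x - Pi.single i h) -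
        aL W h l b (x - Pi.single i h) * mL W h l (x + Pi.single i h)) ^ 2 /
      (2 * (mL W h l (x + Pi.single i h) * mL W h l (x - Pi.single i h) *
        (mL W h l (x + Pi.single i h) + mL W h l (x - Pi.single i h))))) := by
  have hac := fun b => (smooth_aL hW h l b).continuous
  have hmc := (smooth_mL hW h l).continuous
  have hm0 := mL_pos hW h l
  have hmi : Continuous (fun x => (mL W h l x)⁻¹) := hmc.inv₀ fun x => (hm0 x).ne'
  set G : (Fin d → ℝ) → ℝ := fun x => (∑ b, aL W h l b x ^ 2) * (mL W h l x)⁻¹ with hG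
  have hGc : Continuous G := by
    show Continuous fun x => (∑ b, aL W h l b x ^ 2) * (mL W h l x)⁻¹
    fun_prop
  have hGp : Pe G := by
    intro j x
    show (∑ b, aL W h l b (x + Pi.single j 2) ^ 2) * (mL W h l (x + Pi.single j 2))⁻¹ =
      (∑ b, aL W h l b x ^ 2) * (mL W h l x)⁻¹
    rw [Pe_mL hW h l j x]
    simp only [Pe_aL hW h l _ j x]
  have h1 : Qf W h l = av (P h i G) := (av_P hGc hGp h i).symm
  have hac' := fun b => (smooth_aL hW h (i :: l) b).continuous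
  have hmc' := (smooth_mL hW h (i :: l)).continuous
  have hm0' := mL_pos hW h (i :: l)
  have hmi' : Continuous (fun x => (mL W h (i :: l) x)⁻¹) := hmc'.inv₀ fun x => (hm0' x).ne'
  have hPc : Continuous (P h i G) := by unfold P; fun_prop
  rw [h1]
  unfold Qf
  rw [← av_sub hPc (by fun_prop)]
  congr 1
  funext x
  have h2 := step_id Finset.univ (fun b => aL W h l b (x + Pi.single i h))
    (fun b => aL W h l b (x - Pi.single i h)) _ _ (hm0 (x + Pi.single i h))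
    (hm0 (x - Pi.single i h))
  rw [← h2]
  rfl

theorem Qf_anti (hW : Good W) (h : ℝ) (i : Fin d) (l : List (Fin d)) :
    Qf W h (i :: l) ≤ Qf W h l := by
  have h1 := Qf_step hW h i l
  have h2 : 0 ≤ Qf W h l - Qf W h (i :: l) := by
    rw [h1]
    apply av_nonneg
    intro x
    apply Finset.sum_nonneg
    intro b _
    have := mL_pos hW h l (x + Pi.single i h)
    have := mL_pos hW h l (x - Pi.single i h)
    positivity
  linarith

theorem Qf_anti' (hW : Good W) (h : ℝ) (l' l : List (Fin d)) :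
    Qf W h (l' ++ l) ≤ Qf W h l := by
  induction l' with
  | nil => exact le_rfl
  | cons i l' ih => exact (Qf_anti hW h i (l' ++ l)).trans ih

theorem drop_alg {h A1 A2 m1 m2 a m α μ C m0 : ℝ} (hh : 0 < h) (hh1 : h ≤ 1) (hC : 1 ≤ C)
    (hm0 : 0 < m0) (hm : m0 ≤ m) (hm1 : m0 ≤ m1) (hm2 : m0 ≤ m2)
    (ha : |a| ≤ C) (hmC : m ≤ C) (hα : |α| ≤ C) (hμ : |μ| ≤ C)
    (e1 : |A1 - (a + h * α)| ≤ C * h ^ 2) (e2 : |A2 - (a - h * α)| ≤ C * h ^ 2)
    (e3 : |m1 - (m + h * μ)| ≤ C * h ^ 2) (e4 : |m2 - (m - h * μ)| ≤ C * h ^ 2) :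
    h ^ 2 * ((α * m - a * μ) ^ 2 / m ^ 3) - (44 * C ^ 7 / m0 ^ 6 + 20 * C ^ 4 / m0 ^ 3) * h ^ 3 ≤
      (A1 * m2 - A2 * m1) ^ 2 / (2 * (m1 * m2 * (m1 + m2))) := by
  have hC0 : 0 < C := by linarith
  have hmp : 0 < m := by linarith
  have hm1p : 0 < m1 := by linarith
  have hm2p : 0 < m2 := by linarith
  have hh2 : h ^ 2 ≤ h := by nlinarith
  have hh2' : h ^ 2 ≤ 1 := by nlinarith
  have hCh : C * h ^ 2 ≤ C := by nlinarith
  have hhμ : |h * μ| ≤ C := by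
    rw [abs_mul, abs_of_pos hh]
    nlinarith [abs_nonneg μ]
  have hhα : |h * α| ≤ C := by
    rw [abs_mul, abs_of_pos hh]
    nlinarith [abs_nonneg α]
  set Z := α * m - a * μ with hZ
  -- bound of Z
  have hZb : |Z| ≤ 2 * C ^ 2 := by
    have h1 : |α * m| ≤ C * C := by
      rw [abs_mul, abs_of_pos hmp]
      exact mul_le_mul hα hmC hmp.le hC0.le
    have h2 : |a * μ| ≤ C * C := by
      rw [abs_mul]
      exact mul_le_mul ha hμ (abs_nonneg _) hC0.le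
    calc |Z| ≤ |α * m| + |a * μ| := abs_sub _ _
      _ ≤ _ := by linarith
  -- products
  have prod : ∀ {x y x' y' : ℝ}, |x'| ≤ 2 * C → |x - x'| ≤ C * h ^ 2 → |y - y'| ≤ C * h ^ 2 →
      |y'| ≤ 2 * C → |x * y - x' * y'| ≤ 5 * C ^ 2 * h ^ 2 := by
    intro x y x' y' hx hxx hyy hy
    have h1 : x * y - x' * y' = (x - x') * y + x' * (y - y') := by ring
    rw [h1]
    have h2 : |y| ≤ 3 * C := by
      have : |y| ≤ |y - y'| + |y'| := by
        calc |y| = |(y - y') + y'| := by ring_nf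
          _ ≤ _ := abs_add_le _ _
      linarith
    have h3 : |(x - x') * y| ≤ C * h ^ 2 * (3 * C) := by
      rw [abs_mul]
      exact mul_le_mul hxx h2 (abs_nonneg _) (by positivity)
    have h4 : |x' * (y - y')| ≤ 2 * C * (C * h ^ 2) := by
      rw [abs_mul]
      exact mul_le_mul hx hyy (abs_nonneg _) (by positivity)
    calc _ ≤ |(x - x') * y| + |x' * (y - y')| := abs_add_le _ _
      _ ≤ _ := by linarith
  have b1 : |a + h * α| ≤ 2 * C := (abs_add_le _ _).trans (by linarith)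
  have b2 : |a - h * α| ≤ 2 * C := (abs_sub _ _).trans (by linarith)
  have hmabs : |m| ≤ C := by rw [abs_of_pos hmp]; exact hmC
  have b3 : |m + h * μ| ≤ 2 * C := (abs_add_le _ _).trans (by linarith)
  have b4 : |m - h * μ| ≤ 2 * C := (abs_sub _ _).trans (by linarith)
  have p1 := prod b1 e1 e4 b4
  have p2 := prod b2 e2 e3 b3
  have p3 := prod b3 e3 e4 b4
  -- numerator
  set N := A1 * m2 - A2 * m1 with hN
  have hNr : |N - 2 * h * Z| ≤ 10 * C ^ 2 * h ^ 2 := by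
    have h1 : N - 2 * h * Z = (A1 * m2 - (a + h * α) * (m - h * μ)) -
        (A2 * m1 - (a - h * α) * (m + h * μ)) := by
      rw [hN, hZ]; ring
    rw [h1]
    refine (abs_sub _ _).trans ?_
    linarith
  have hN2 : 4 * h ^ 2 * Z ^ 2 - 80 * C ^ 4 * h ^ 3 ≤ N ^ 2 := by
    obtain ⟨ρ, hρ⟩ : ∃ ρ, ρ = N - 2 * h * Z := ⟨_, rfl⟩
    have h1 : N = 2 * h * Z + ρ := by rw [hρ]; ring
    rw [← hρ] at hNr
    rw [h1]
    have h2 : |h * Z * ρ| ≤ 20 * C ^ 4 * h ^ 3 := by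
      rw [abs_mul, abs_mul, abs_of_pos hh]
      calc h * |Z| * |ρ| ≤ h * (2 * C ^ 2) * (10 * C ^ 2 * h ^ 2) := by
            apply mul_le_mul (mul_le_mul_of_nonneg_left hZb hh.le) hNr (abs_nonneg _)
            positivity
        _ = _ := by ring
    have h3 := (abs_le.1 h2).1
    nlinarith [sq_nonneg ρ]
  -- denominator
  set Dn := m1 * m2 * (m1 + m2) with hDn
  have hDn0 : 2 * m0 ^ 3 ≤ Dn := by
    have h1 : m0 * m0 ≤ m1 * m2 := mul_le_mul hm1 hm2 hm0.le hm1p.le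
    have h2 : 2 * m0 ≤ m1 + m2 := by linarith
    have := mul_le_mul h1 h2 (by positivity) (by positivity)
    nlinarith
  have hDnp : 0 < Dn := by positivity
  have hDn1 : Dn ≤ 2 * m ^ 3 + 22 * C ^ 3 * h := by
    have h1 : m1 * m2 ≤ m ^ 2 + 5 * C ^ 2 * h ^ 2 := by
      have := (abs_le.1 p3).2
      nlinarith [sq_nonneg (h * μ)]
    have h2 : m1 + m2 ≤ 2 * m + 2 * (C * h ^ 2) := by
      have := (abs_le.1 e3).2
      have := (abs_le.1 e4).2
      linarith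
    have h3 : Dn ≤ (m ^ 2 + 5 * C ^ 2 * h ^ 2) * (2 * m + 2 * (C * h ^ 2)) :=
      mul_le_mul h1 h2 (by positivity) (by positivity)
    have h4 : (m ^ 2 + 5 * C ^ 2 * h ^ 2) * (2 * m + 2 * (C * h ^ 2)) =
        2 * m ^ 3 + m ^ 2 * (2 * (C * h ^ 2)) + 5 * C ^ 2 * h ^ 2 * (2 * m + 2 * (C * h ^ 2)) := by
      ring
    have h5 : m ^ 2 ≤ C ^ 2 := pow_le_pow_left₀ hmp.le hmC 2
    have h6 : m ^ 2 * (2 * (C * h ^ 2)) ≤ C ^ 2 * (2 * (C * h ^ 2)) :=
      mul_le_mul_of_nonneg_right h5 (by positivity)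
    have h7 : 5 * C ^ 2 * h ^ 2 * (2 * m + 2 * (C * h ^ 2)) ≤ 5 * C ^ 2 * h ^ 2 * (4 * C) :=
      mul_le_mul_of_nonneg_left (by linarith) (by positivity)
    have h8 : 22 * C ^ 3 * h ^ 2 ≤ 22 * C ^ 3 * h :=
      mul_le_mul_of_nonneg_left hh2 (by positivity)
    nlinarith
  rw [show N ^ 2 / (2 * Dn) = (N ^ 2 / Dn) / 2 by field_simp]
  -- N²/Dn ≥ (4h²Z²)/Dn - 80C⁴h³/Dn
  have hq1 : 80 * C ^ 4 * h ^ 3 / Dn ≤ 40 * C ^ 4 * h ^ 3 / m0 ^ 3 := by
    rw [div_le_div_iff₀ hDnp (by positivity)]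
    have : 0 ≤ 40 * C ^ 4 * h ^ 3 := by positivity
    nlinarith
  have hq2 : 2 * h ^ 2 * Z ^ 2 / m ^ 3 - 88 * C ^ 7 * h ^ 3 / m0 ^ 6 ≤ 4 * h ^ 2 * Z ^ 2 / Dn := by
    have hZ2 : Z ^ 2 ≤ 4 * C ^ 4 := by
      rw [← sq_abs]
      calc |Z| ^ 2 ≤ (2 * C ^ 2) ^ 2 := pow_le_pow_left₀ (abs_nonneg _) hZb 2
        _ = _ := by ring
    have h1 : 2 * h ^ 2 * Z ^ 2 / m ^ 3 - 4 * h ^ 2 * Z ^ 2 / Dn =
        2 * h ^ 2 * Z ^ 2 * (Dn - 2 * m ^ 3) / (m ^ 3 * Dn) := by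
      field_simp
      ring
    have h2 : 2 * h ^ 2 * Z ^ 2 * (Dn - 2 * m ^ 3) / (m ^ 3 * Dn) ≤
        88 * C ^ 7 * h ^ 3 / m0 ^ 6 := by
      have h3 : 2 * h ^ 2 * Z ^ 2 * (Dn - 2 * m ^ 3) ≤ 2 * h ^ 2 * (4 * C ^ 4) * (22 * C ^ 3 * h) := by
        calc _ ≤ 2 * h ^ 2 * Z ^ 2 * (22 * C ^ 3 * h) :=
              mul_le_mul_of_nonneg_left (by linarith) (by positivity)
          _ ≤ _ := by
              apply mul_le_mul_of_nonneg_right _ (by positivity)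
              exact mul_le_mul_of_nonneg_left hZ2 (by positivity)
      have h4 : 2 * m0 ^ 6 ≤ m ^ 3 * Dn := by
        have h5 : m0 ^ 3 ≤ m ^ 3 := pow_le_pow_left₀ hm0.le hm 3
        have := mul_le_mul h5 hDn0 (by positivity) (by positivity)
        nlinarith
      rw [div_le_div_iff₀ (by positivity) (by positivity)]
      have h6 : 2 * h ^ 2 * Z ^ 2 * (Dn - 2 * m ^ 3) * m0 ^ 6 ≤
          2 * h ^ 2 * (4 * C ^ 4) * (22 * C ^ 3 * h) * m0 ^ 6 :=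
        mul_le_mul_of_nonneg_right h3 (by positivity)
      have h7 : 88 * C ^ 7 * h ^ 3 * (2 * m0 ^ 6) ≤ 88 * C ^ 7 * h ^ 3 * (m ^ 3 * Dn) :=
        mul_le_mul_of_nonneg_left h4 (by positivity)
      nlinarith
    linarith
  have hq3 : 4 * h ^ 2 * Z ^ 2 / Dn - 80 * C ^ 4 * h ^ 3 / Dn ≤ N ^ 2 / Dn := by
    rw [← sub_div]
    exact div_le_div_of_nonneg_right hN2 hDnp.le
  have e5 : h ^ 2 * (Z ^ 2 / m ^ 3) = (2 * h ^ 2 * Z ^ 2 / m ^ 3) / 2 := by ring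
  have e6 : (44 * C ^ 7 / m0 ^ 6 + 20 * C ^ 4 / m0 ^ 3) * h ^ 3 =
      (88 * C ^ 7 * h ^ 3 / m0 ^ 6 + 40 * C ^ 4 * h ^ 3 / m0 ^ 3) / 2 := by ring
  rw [e5, e6]
  linarith

end Pool.Agent.H62
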