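import Pool.Agent.Helper62K1.Tele

/-!
# Telescoping over rounds
-/

set_option autoImplicit false

namespace Pool.Agent.H62

open MeasureTheory Set Filter Topology
open Pool.Agent.H48R3.CP (D continuous_D)
open scoped ContDiff

variable {d : ℕ} {W : (Fin d → ℝ) → ℝ}

/-- second order Taylor bound along a coordinate -/
theorem taylor1 (i : Fin d) {g : (Fin d → ℝ) → ℝ} (hg : ContDiff ℝ ∞ g)
    (C : ℝ) (hC : ∀ x, |D (D g i) i x| ≤ C) (x : Fin d → ℝ) (s : ℝ) :
    |g (x + Pi.single i s) - g x - s * D g i x| ≤ s ^ 2 * C := by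
  have hg1 : ContDiff ℝ 1 g := cd1 hg
  have hDg : ContDiff ℝ 1 (D g i) := cd1 (contDiff_D hg i)
  have hl : ∀ t, HasDerivAt (fun t => g (Function.update x i t)) (D g i (Function.update x i t)) t :=
    fun t => hasDerivAt_line hg1 i x t
  have hl2 : ∀ t, HasDerivAt (fun t => D g i (Function.update x i t))
      (D (D g i) i (Function.update x i t)) t := fun t => hasDerivAt_line hDg i x t
  have hC0 : 0 ≤ C := (abs_nonneg _).trans (hC x)
  have h1 := Convex.norm_image_sub_le_of_norm_hasDerivWithin_le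
    (s := Icc (x i - |s|) (x i + |s|))
    (f := fun t => g (Function.update x i t) - (t - x i) * D g i x)
    (f' := fun t => D g i (Function.update x i t) - D g i x) (C := C * |s|) (x := x i)
    (y := x i + s)
    (fun u _ => by
      have h2 : HasDerivAt (fun t : ℝ => (t - x i) * D g i x) (D g i x) u := by
        simpa using ((hasDerivAt_id u).sub_const (x i)).mul_const (D g i x)
      exact ((hl u).sub h2).hasDerivWithinAt)
    (fun u hu => by
      have h3 := Convex.norm_image_sub_le_of_norm_hasDerivWithin_le (s := univ)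
        (f := fun t => D g i (Function.update x i t))
        (f' := fun t => D (D g i) i (Function.update x i t)) (C := C) (x := x i) (y := u)
        (fun u _ => (hl2 u).hasDerivWithinAt) (fun u _ => hC _) convex_univ (mem_univ _)
        (mem_univ _)
      simp only [Function.update_eq_self] at h3
      refine h3.trans (mul_le_mul_of_nonneg_left ?_ hC0)
      rw [Real.norm_eq_abs, abs_le]
      constructor <;> linarith [hu.1, hu.2])
    (convex_Icc _ _)
    ⟨by linarith [abs_nonneg s], by linarith [abs_nonneg s]⟩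
    ⟨by linarith [neg_abs_le s], by linarith [le_abs_self s]⟩
  simp only [Function.update_eq_self, sub_self, zero_mul, sub_zero, add_sub_cancel_left,
    Real.norm_eq_abs] at h1
  have e : C * |s| * |s| = s ^ 2 * C := by rw [mul_assoc, ← sq, sq_abs]; ring
  rw [e] at h1
  rw [add_single_eq]
  rwa [show g (Function.update x i (x i + s)) - g x - s * D g i x =
    g (Function.update x i (x i + s)) - s * D g i x - g x by ring]

theorem op_close (h : ℝ) (l : List (Fin d)) {g : (Fin d → ℝ) → ℝ} (hg : ContDiff ℝ ∞ g)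
    (C : ℝ) (hC : ∀ i x, |D (D g i) i x| ≤ C) (x : Fin d → ℝ) :
    |op h l g x - g x| ≤ l.length * (h ^ 2 * C) := by
  induction l generalizing x with
  | nil => simp
  | cons i l ih =>
    have h1 : |P h i (op h l g) x - op h l g x| ≤ h ^ 2 * C := by
      apply P_sub_le h i (contDiff_op (n := ⊤) h l hg)
      intro y
      rw [D_op h l (cd1 hg), D_op h l (cd1 (contDiff_D hg i))]
      exact abs_op_le_const h l (hC i) y
    have h2 := ih x
    have h3 : op h (i :: l) g x - g x =
        (P h i (op h l g) x - op h l g x) + (op h l g x - g x) := by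
      rw [op_cons]; ring
    rw [h3, List.length_cons]
    push_cast
    refine (abs_add_le _ _).trans ?_
    linarith

theorem op_taylor (h : ℝ) (l : List (Fin d)) (hl : l.length ≤ d) {g : (Fin d → ℝ) → ℝ}
    (hg : ContDiff ℝ ∞ g) (C : ℝ) (hC : ∀ i x, |D (D g i) i x| ≤ C) (x : Fin d → ℝ)
    (i : Fin d) (s : ℝ) (hs : s ^ 2 = h ^ 2) :
    |op h l g (x + Pi.single i s) - (g x + s * D g i x)| ≤ ((d + 1) * C) * h ^ 2 := by
  have h1 := op_close h l hg C hC (x + Pi.single i s)
  have h2 := taylor1 i hg C (hC i) x s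
  rw [hs] at h2
  have hC0 : 0 ≤ C := (abs_nonneg _).trans (hC i x)
  have h3 : (l.length : ℝ) * (h ^ 2 * C) ≤ d * (h ^ 2 * C) := by
    apply mul_le_mul_of_nonneg_right _ (by positivity)
    exact_mod_cast hl
  have h4 : op h l g (x + Pi.single i s) - (g x + s * D g i x) =
      (op h l g (x + Pi.single i s) - g (x + Pi.single i s)) +
      (g (x + Pi.single i s) - g x - s * D g i x) := by ring
  rw [h4]
  refine (abs_add_le _ _).trans ?_
  nlinarith

/-- the gradient term -/
noncomputable def Sd (W : (Fin d → ℝ) → ℝ) (h : ℝ) (l : List (Fin d)) (i : Fin d) : ℝ :=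
  av (fun x => ∑ b, mL W h l x * D (ML W h l b) i x ^ 2)

theorem D_ML (hW : Good W) (h : ℝ) (l : List (Fin d)) (i b : Fin d) (x : Fin d → ℝ) :
    mL W h l x * D (ML W h l b) i x ^ 2 =
      (D (aL W h l b) i x * mL W h l x - aL W h l b x * D (mL W h l) i x) ^ 2 /
        mL W h l x ^ 3 := by
  have hm := mL_pos hW h l
  have h1 : D (ML W h l b) i = fun x => D (aL W h l b) i x * (mL W h l x)⁻¹ +
      aL W h l b x * D (fun x => (mL W h l x)⁻¹) i x :=
    D_mul (cd1 (smooth_aL hW h l b)) (cd1 ((smooth_mL hW h l).inv fun x => (hm x).ne')) i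
  rw [h1, D_inv (cd1 (smooth_mL hW h l)) (fun x => (hm x).ne') i]
  have := (hm x).ne'
  field_simp
  ring

theorem unif_bounds (hW : Good W) : ∃ C, 1 ≤ C ∧ ∀ (h : ℝ) (l : List (Fin d)) (x : Fin d → ℝ),
    mL W h l x ≤ C ∧ (∀ i, |D (mL W h l) i x| ≤ C) ∧ (∀ i, |D (D (mL W h l) i) i x| ≤ C) ∧
    (∀ b, |aL W h l b x| ≤ C) ∧ (∀ b i, |D (aL W h l b) i x| ≤ C) ∧
    (∀ b i, |D (D (aL W h l b) i) i x| ≤ C) := by
  have hws := contDiff_wf hW.sm hW.z1
  have h1 : UB 2 (fun _ : Unit => wf W) := UB.single 2 hws (Pe_wf hW.pe)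
  have h2 : ∀ b, UB 2 (fun _ : Unit => D W b) := fun b =>
    UB.single 2 (contDiff_D hW.sm b) (Pe_D hW.pe b)
  have key : ∀ {g : (Fin d → ℝ) → ℝ}, ContDiff ℝ ∞ g → UB 2 (fun _ : Unit => g) →
      ∃ C, 0 ≤ C ∧ ∀ (h : ℝ) (l : List (Fin d)) (x : Fin d → ℝ), |op h l g x| ≤ C ∧
      (∀ i, |D (op h l g) i x| ≤ C) ∧ (∀ i, |D (D (op h l g) i) i x| ≤ C) := by
    intro g hg hu
    obtain ⟨C0, h00, h0⟩ := hu.bdd
    have h1' := fun i => (hu.2 i).bdd
    have h2' := fun i => ((hu.2 i).2 i).bdd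
    choose C1 h10 h1 using h1'
    choose C2 h20 h2 using h2'
    have p1 : 0 ≤ ∑ i, C1 i := Finset.sum_nonneg fun j _ => h10 j
    have p2 : 0 ≤ ∑ i, C2 i := Finset.sum_nonneg fun j _ => h20 j
    refine ⟨C0 + (∑ i, C1 i) + ∑ i, C2 i, by linarith, fun h l x => ?_⟩
    have hs1 : ∀ i, C1 i ≤ ∑ i, C1 i := fun i =>
      Finset.single_le_sum (fun j _ => h10 j) (Finset.mem_univ i)
    have hs2 : ∀ i, C2 i ≤ ∑ i, C2 i := fun i =>
      Finset.single_le_sum (fun j _ => h20 j) (Finset.mem_univ i)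
    refine ⟨?_, fun i => ?_, fun i => ?_⟩
    · refine (abs_op_le_const h l (h0 ()) x).trans ?_
      linarith
    · rw [D_op h l (cd1 hg)]
      refine (abs_op_le_const h l (h1 i ()) x).trans ?_
      linarith [hs1 i]
    · rw [D_op h l (cd1 hg), D_op h l (cd1 (contDiff_D hg i))]
      refine (abs_op_le_const h l (h2 i ()) x).trans ?_
      linarith [hs2 i]
  obtain ⟨C0, hC00, hC0⟩ := key hws h1
  have h3 := fun b => key (contDiff_D hW.sm b) (h2 b)
  choose C1 hC10 hC1 using h3
  have p1 : 0 ≤ ∑ i, C1 i := Finset.sum_nonneg fun j _ => hC10 j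
  have hs1 : ∀ i, C1 i ≤ ∑ i, C1 i := fun i =>
    Finset.single_le_sum (fun j _ => hC10 j) (Finset.mem_univ i)
  refine ⟨1 + C0 + ∑ b, C1 b, by linarith, fun h l x => ?_⟩
  have q0 := hC0 h l x
  have q1 := fun b => hC1 b h l x
  refine ⟨?_, fun i => ?_, fun i => ?_, fun b => ?_, fun b i => ?_, fun b i => ?_⟩
  · have := le_abs_self (op h l (wf W) x)
    unfold mL
    linarith [q0.1]
  · have := q0.2.1 i
    unfold mL
    linarith
  · have := q0.2.2 i
    unfold mL
    linarith
  · have := (q1 b).1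
    unfold aL
    linarith [hs1 b]
  · have := (q1 b).2.1 i
    unfold aL
    linarith [hs1 b]
  · have := (q1 b).2.2 i
    unfold aL
    linarith [hs1 b]

/-- lower bound of the drop in one step -/
theorem drop_step (hW : Good W) : ∃ C, 0 ≤ C ∧ ∀ (h : ℝ), 0 < h → h ≤ 1 →
    ∀ (l0 l' : List (Fin d)), l'.length ≤ d → ∀ i : Fin d,
      h ^ 2 * Sd W h l0 i - C * h ^ 3 ≤ Qf W h (l' ++ l0) - Qf W h (i :: (l' ++ l0)) := by
  obtain ⟨C, hC1, hC⟩ := unif_bounds hW
  obtain ⟨m0, hm0, hm⟩ := mL_lower hW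
  set C' := (d + 1) * C with hC'
  have hCC' : C ≤ C' := by
    have : (0:ℝ) ≤ d := Nat.cast_nonneg d
    nlinarith
  have hC'1 : 1 ≤ C' := hC1.trans hCC'
  set E := 44 * C' ^ 7 / m0 ^ 6 + 20 * C' ^ 4 / m0 ^ 3 with hE
  have hE0 : 0 ≤ E := by positivity
  refine ⟨d * E, by positivity, fun h hh hh1 l0 l' hl' i => ?_⟩
  rw [Qf_step hW h i (l' ++ l0)]
  have hac := fun b => (smooth_aL hW h (l' ++ l0) b).continuous
  have hmc := (smooth_mL hW h (l' ++ l0)).continuous
  have hmp := mL_pos hW h (l' ++ l0)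
  have hac0 := fun b => (smooth_ML hW h l0 b)
  have hDc := fun b => continuous_D _ (cd1 (hac0 b)) i
  have hmc0 := (smooth_mL hW h l0).continuous
  have e1 : h ^ 2 * Sd W h l0 i - d * E * h ^ 3 =
      av (fun x => ∑ b, (h ^ 2 * (mL W h l0 x * D (ML W h l0 b) i x ^ 2) - E * h ^ 3)) := by
    have e2 : (fun x : Fin d → ℝ => ∑ b, (h ^ 2 * (mL W h l0 x * D (ML W h l0 b) i x ^ 2) - E * h ^ 3)) =
        fun x => h ^ 2 * (∑ b, mL W h l0 x * D (ML W h l0 b) i x ^ 2) - d * E * h ^ 3 := by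
      funext x
      rw [Finset.sum_sub_distrib, Finset.mul_sum, Finset.sum_const, Finset.card_univ,
        Fintype.card_fin, nsmul_eq_mul]
      ring
    rw [e2, av_sub (by fun_prop) (by fun_prop), av_mul_left, av_const]
    rfl
  rw [e1]
  have hden : ∀ x : Fin d → ℝ, 2 * (mL W h (l' ++ l0) (x + Pi.single i h) *
      mL W h (l' ++ l0) (x - Pi.single i h) *
      (mL W h (l' ++ l0) (x + Pi.single i h) + mL W h (l' ++ l0) (x - Pi.single i h))) ≠ 0 := by
    intro x
    have := hmp (x + Pi.single i h)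
    have := hmp (x - Pi.single i h)
    positivity
  apply av_mono
  · fun_prop
  · apply continuous_finsetSum
    intro b _
    apply Continuous.div _ _ hden
    · fun_prop
    · fun_prop
  intro x
  apply Finset.sum_le_sum
  intro b _
  rw [D_ML hW]
  obtain ⟨b1, b2, b3, b4, b5, b6⟩ := hC h l0 x
  have hCl := hC h l0
  have e3 : aL W h (l' ++ l0) b = op h l' (aL W h l0 b) := op_append h l' l0 _
  have e4 : mL W h (l' ++ l0) = op h l' (mL W h l0) := op_append h l' l0 _
  have hsub : ∀ x : Fin d → ℝ, x - (Pi.single i h : Fin d → ℝ) = x + Pi.single i (-h) := by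
    intro x; rw [Pi.single_neg, ← sub_eq_add_neg]
  have ta1 := op_taylor h l' hl' (smooth_aL hW h l0 b) C (fun i x => (hCl x).2.2.2.2.2 b i) x i h rfl
  have ta2 := op_taylor h l' hl' (smooth_aL hW h l0 b) C (fun i x => (hCl x).2.2.2.2.2 b i) x i (-h)
    (by ring)
  have tm1 := op_taylor h l' hl' (smooth_mL hW h l0) C (fun i x => (hCl x).2.2.1 i) x i h rfl
  have tm2 := op_taylor h l' hl' (smooth_mL hW h l0) C (fun i x => (hCl x).2.2.1 i) x i (-h)
    (by ring)
  rw [← e3] at ta1 ta2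
  rw [← e4] at tm1 tm2
  rw [hsub x]
  rw [show aL W h l0 b x + -h * D (aL W h l0 b) i x = aL W h l0 b x - h * D (aL W h l0 b) i x by ring]
    at ta2
  rw [show mL W h l0 x + -h * D (mL W h l0) i x = mL W h l0 x - h * D (mL W h l0) i x by ring]
    at tm2
  exact drop_alg hh hh1 hC'1 hm0 (hm h l0 x) (hm h _ _) (hm h _ _) ((b4 b).trans hCC')
    (b1.trans hCC') ((b5 b i).trans hCC') ((b2 i).trans hCC') ta1 ta2 tm1 tm2

theorem drop_list (hW : Good W) : ∃ C, 0 ≤ C ∧ ∀ (h : ℝ), 0 < h → h ≤ 1 →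
    ∀ (l0 : List (Fin d)),
      h ^ 2 * (∑ i, Sd W h l0 i) - C * h ^ 3 ≤ Qf W h l0 - Qf W h (List.finRange d ++ l0) := by
  obtain ⟨C, hC0, hC⟩ := drop_step hW
  refine ⟨d * C, by positivity, fun h hh hh1 l0 => ?_⟩
  have key : ∀ l' : List (Fin d), l'.length ≤ d →
      h ^ 2 * ((l'.map (fun i => Sd W h l0 i)).sum) - l'.length * C * h ^ 3 ≤
        Qf W h l0 - Qf W h (l' ++ l0) := by
    intro l'
    induction l' with
    | nil => intro _; simp
    | cons i l' ih =>
      intro hlen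
      rw [List.length_cons] at hlen
      have h1 := ih (by omega)
      have h2 := hC h hh hh1 l0 l' (by omega) i
      rw [List.map_cons, List.sum_cons, List.length_cons]
      push_cast
      rw [List.cons_append]
      linarith
  have h1 := key (List.finRange d) (by simp)
  rw [List.length_finRange] at h1
  have h2 : ((List.finRange d).map (fun i => Sd W h l0 i)).sum = ∑ i, Sd W h l0 i := by
    rw [← List.ofFn_eq_map, List.sum_ofFn]
  rw [h2] at h1
  exact h1

theorem Qf_le (hW : Good W) (h : ℝ) (l : List (Fin d)) : Qf W h l ≤ Fn W := by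
  have h1 : Qf W h l ≤ av (mL W h l) := by
    have hac := fun b => (smooth_aL hW h l b).continuous
    have hmc := (smooth_mL hW h l).continuous
    have hmi : Continuous (fun x => (mL W h l x)⁻¹) := hmc.inv₀ fun x => (mL_pos hW h l x).ne'
    apply av_mono (by fun_prop) hmc
    intro x
    have h2 := sum_aL_sq hW h l x
    have h3 := mL_pos hW h l x
    rw [← div_eq_mul_inv, div_le_iff₀ h3]
    nlinarith
  have h2 : av (mL W h l) = Fn W :=
    av_op (contDiff_wf hW.sm hW.z1).continuous (Pe_wf hW.pe) h l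
  rw [h2] at h1
  exact h1

/-- selection of a good time -/
theorem select (hW : Good W) : ∃ C, 0 ≤ C ∧ ∀ (h : ℝ), 0 < h → h ≤ 1 →
    ∀ (k0 k1 : ℕ), k0 < k1 → ∃ k, k0 ≤ k ∧ k < k1 ∧
      (∑ i, Sd W h (rounds d k) i) * (h ^ 2 * (k1 - k0)) ≤
        Fn W - Qf W h (rounds d k1) + C * h ^ 3 * (k1 - k0) := by
  obtain ⟨C, hC0, hC⟩ := drop_list hW
  refine ⟨C, hC0, fun h hh hh1 k0 k1 hk => ?_⟩
  by_contra hcon
  push Not at hcon
  -- every round loses too much
  set X := (Fn W - Qf W h (rounds d k1) + C * h ^ 3 * (k1 - k0)) / (k1 - k0) with hX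
  have hpos : (0:ℝ) < (k1:ℝ) - k0 := by
    have : (k0:ℝ) < k1 := by exact_mod_cast hk
    linarith
  have key : ∀ n : ℕ, k0 + n ≤ k1 →
      (n : ℝ) * (X - C * h ^ 3) ≤ Qf W h (rounds d k0) - Qf W h (rounds d (k0 + n)) ∧
      (0 < n → (n : ℝ) * (X - C * h ^ 3) < Qf W h (rounds d k0) - Qf W h (rounds d (k0 + n))) := by
    intro n
    induction n with
    | zero => intro _; simp
    | succ n ih =>
      intro hn
      have h1 := (ih (by omega)).1
      have h2 := hcon (k0 + n) (by omega) (by omega)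
      have h3 := hC h hh hh1 (rounds d (k0 + n))
      have h4 : List.finRange d ++ rounds d (k0 + n) = rounds d (k0 + (n + 1)) := rfl
      rw [h4] at h3
      have h5 : X < h ^ 2 * ∑ i, Sd W h (rounds d (k0 + n)) i := by
        rw [hX, div_lt_iff₀ hpos]
        calc _ < _ := h2
          _ = _ := by ring
      have h6 : ((n + 1 : ℕ) : ℝ) * (X - C * h ^ 3) <
          Qf W h (rounds d k0) - Qf W h (rounds d (k0 + (n + 1))) := by
        push_cast
        nlinarith
      exact ⟨h6.le, fun _ => h6⟩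
  have h1 := (key (k1 - k0) (by omega)).2 (by omega)
  have e1 : k0 + (k1 - k0) = k1 := by omega
  have e2 : ((k1 - k0 : ℕ) : ℝ) = k1 - k0 := by
    rw [Nat.cast_sub hk.le]
  rw [e1, e2] at h1
  have h2 := Qf_le hW h (rounds d k0)
  have h3 : ((k1:ℝ) - k0) * (X - C * h ^ 3) = Fn W - Qf W h (rounds d k1) := by
    rw [hX]
    field_simp
    ring
  rw [h3] at h1
  linarith

end Pool.Agent.H62
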