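import Pool.Agent.Helper62K1.Kern
import Pool.Agent.Helper62K1.Tan
import Pool.Agent.Helper62K1.Poly
import Pool.Agent.Helper62K1.Tele2

/-!
# The test field
-/

set_option autoImplicit false

namespace Pool.Agent.H62

open MeasureTheory Set Filter Topology
open Pool.Agent.H48R3.CP (D continuous_D)
open scoped ContDiff

variable {d : ℕ} {W : (Fin d → ℝ) → ℝ}

attribute [local irreducible] Af pf th

/-- the test function -/
noncomputable def Th (W : (Fin d → ℝ) → ℝ) (κ q H h : ℝ) (l : List (Fin d)) (i : Fin d)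
    (x : Fin d → ℝ) : ℝ :=
  Af κ q (x i) * et (ML W h l i x) + H * be (ML W h l i x)

theorem contDiff_et : ContDiff ℝ ∞ et := by unfold et; fun_prop

theorem contDiff_be : ContDiff ℝ ∞ be := by unfold be; fun_prop

theorem hasDerivAt_et (v : ℝ) : HasDerivAt et (et' v) v := by
  have h1 : HasDerivAt (fun v : ℝ => v ^ 2) (2 * v) v := by simpa using hasDerivAt_pow 2 v
  have h2 : HasDerivAt (fun v : ℝ => 1 - v ^ 2) (-(2 * v)) v := h1.const_sub 1
  have h3 : HasDerivAt (fun v : ℝ => 1 - 7 / 5 * v ^ 2) (-(7 / 5 * (2 * v))) v :=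
    (h1.const_mul (7/5)).const_sub 1
  have h4 := (((hasDerivAt_id v).mul h2).mul h3).pow 2
  have h5 : HasDerivAt et _ v := h4
  refine h5.congr_deriv ?_
  unfold et'
  simp only [Pi.mul_apply, id]
  push_cast
  ring

theorem hasDerivAt_be (v : ℝ) : HasDerivAt be (be' v) v := by
  have h1 : HasDerivAt (fun v : ℝ => v ^ 2) (2 * v) v := by simpa using hasDerivAt_pow 2 v
  have h3 : HasDerivAt (fun v : ℝ => v ^ 3) (3 * v ^ 2) v := by simpa using hasDerivAt_pow 3 v
  have h4 : HasDerivAt (fun v : ℝ => v ^ 4) (4 * v ^ 3) v := by simpa using hasDerivAt_pow 4 v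
  have h5 := h3.mul (((h1.const_mul (4/5)).const_sub (1/3)).add (h4.const_mul (4/7)))
  have h6 : HasDerivAt be _ v := h5
  refine h6.congr_deriv ?_
  unfold be'
  simp only [Pi.add_apply]
  ring

theorem et_nonneg (v : ℝ) : 0 ≤ et v := by unfold et; positivity

theorem et_le_sq {v : ℝ} (hv : v ^ 2 ≤ 1) : et v ≤ v ^ 2 := by
  unfold et
  have h0 := sq_nonneg v
  have h1 : (1 - v ^ 2) ^ 2 ≤ 1 := by nlinarith
  have h2 : (1 - 7 / 5 * v ^ 2) ^ 2 ≤ 1 := by nlinarith
  have h3 : (v * (1 - v ^ 2) * (1 - 7 / 5 * v ^ 2)) ^ 2 =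
      v ^ 2 * ((1 - v ^ 2) ^ 2 * (1 - 7 / 5 * v ^ 2) ^ 2) := by ring
  rw [h3]
  have h4 : (1 - v ^ 2) ^ 2 * (1 - 7 / 5 * v ^ 2) ^ 2 ≤ 1 :=
    mul_le_one₀ h1 (sq_nonneg _) h2
  nlinarith

theorem et_le_one {v : ℝ} (hv : v ^ 2 ≤ 1) : et v ≤ 1 := (et_le_sq hv).trans hv

theorem abs_le_one_of_sq {v : ℝ} (hv : v ^ 2 ≤ 1) : |v| ≤ 1 := by
  rw [← sq_abs] at hv
  nlinarith [abs_nonneg v]

theorem et'_le {v : ℝ} (hv : v ^ 2 ≤ 1) : |et' v| ≤ 32 := by
  unfold et'
  have h0 := sq_nonneg v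
  have h1 : |v| ≤ 1 := abs_le_one_of_sq hv
  have h2 : |1 - v ^ 2| ≤ 1 := by rw [abs_le]; constructor <;> linarith
  have h3 : |1 - 7 / 5 * v ^ 2| ≤ 1 := by rw [abs_le]; constructor <;> linarith
  have h4 : |1 - 36 / 5 * v ^ 2 + 7 * v ^ 4| ≤ 16 := by
    have h5 : v ^ 4 ≤ 1 := by nlinarith
    have h6 : 0 ≤ v ^ 4 := by positivity
    rw [abs_le]; constructor <;> linarith
  rw [abs_mul, abs_mul, abs_mul, abs_mul, abs_two]
  have h7 : |v| * |1 - v ^ 2| ≤ 1 := mul_le_one₀ h1 (abs_nonneg _) h2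
  have h8 : |v| * |1 - v ^ 2| * |1 - 7 / 5 * v ^ 2| ≤ 1 := mul_le_one₀ h7 (abs_nonneg _) h3
  have h9 : 0 ≤ |v| * |1 - v ^ 2| * |1 - 7 / 5 * v ^ 2| := by positivity
  have h10 := mul_le_mul h8 h4 (abs_nonneg _) zero_le_one
  nlinarith

theorem be_le {v : ℝ} (hv : v ^ 2 ≤ 1) : |be v| ≤ 1 := by
  unfold be
  have h0 := sq_nonneg v
  have h1 : |v| ≤ 1 := abs_le_one_of_sq hv
  have h5 : v ^ 4 ≤ v ^ 2 := by nlinarith
  have h6 : 0 ≤ v ^ 4 := by positivity
  rw [abs_mul, abs_pow]
  have h7 : |v| ^ 3 ≤ 1 := pow_le_one₀ (abs_nonneg _) h1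
  have h8 : |1 / 3 - 4 / 5 * v ^ 2 + 4 / 7 * v ^ 4| ≤ 1 := by
    rw [abs_le]; constructor <;> linarith
  exact mul_le_one₀ h7 (abs_nonneg _) h8

theorem be'_le {v : ℝ} (hv : v ^ 2 ≤ 1) : |be' v| ≤ 1 := by
  unfold be'
  have h0 := sq_nonneg v
  have h2 : (1 - 2 * v ^ 2) ^ 2 ≤ 1 := by nlinarith
  rw [abs_of_nonneg (by positivity)]
  exact mul_le_one₀ hv (sq_nonneg _) h2

theorem et_neg (v : ℝ) : et (-v) = et v := by unfold et; ring

theorem be_neg (v : ℝ) : be (-v) = - be v := by unfold be; ring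

section

variable {κ q H : ℝ} (hκ : 0 < κ) (hκπ : κ < Real.pi) (hq : 0 < q)

include hκ hκπ hq

theorem smooth_Afi (i : Fin d) : ContDiff ℝ ∞ (fun x : Fin d → ℝ => Af κ q (x i)) :=
  ContDiff.comp (g := Af κ q) (f := fun x : Fin d → ℝ => x i) (contDiff_Af hκ hκπ.le hq)
    (contDiff_apply ℝ ℝ i)

omit hκ hκπ hq in
theorem Pe_Afi (i : Fin d) : Pe (fun x : Fin d → ℝ => Af κ q (x i)) := by
  intro j x
  show Af κ q ((x + (Pi.single j 2 : Fin d → ℝ)) i) = Af κ q (x i)
  by_cases hij : i = j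
  · subst hij
    rw [Pi.add_apply, Pi.single_eq_same, Af_add_two]
  · rw [Pi.add_apply, Pi.single_eq_of_ne hij, add_zero]

theorem smooth_Th (hW : Good W) (h : ℝ) (l : List (Fin d)) (i : Fin d) :
    ContDiff ℝ ∞ (Th W κ q H h l i) := by
  unfold Th
  have h1 := smooth_ML hW h l i
  exact ((smooth_Afi hκ hκπ hq i).mul (contDiff_et.comp h1)).add
    (contDiff_const.mul (contDiff_be.comp h1))

omit hκ hκπ hq in
theorem Pe_Th (hW : Good W) (h : ℝ) (l : List (Fin d)) (i : Fin d) :
    Pe (Th W κ q H h l i) := by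
  intro j x
  unfold Th
  rw [Pe_ML hW h l i j x]
  have := Pe_Afi (κ := κ) (q := q) i j x
  simp only at this
  rw [this]

omit hκ hκπ hq in
theorem Th_odd (hW : Good W) (h : ℝ) (l : List (Fin d)) (i : Fin d) (x : Fin d → ℝ) :
    Th W κ q H h l i (rf i x) = - Th W κ q H h l i x := by
  unfold Th
  rw [ML_rf hW h l i i x, if_pos rfl]
  have : rf i x i = -(x i) := by unfold rf; simp
  rw [this, Af_neg, neg_one_mul, et_neg, be_neg]
  ring

omit hκ hκπ hq in
theorem Th_even (hW : Good W) (h : ℝ) (l : List (Fin d)) (i j : Fin d) (hj : j ≠ i)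
    (x : Fin d → ℝ) : Th W κ q H h l i (rf j x) = Th W κ q H h l i x := by
  unfold Th
  rw [ML_rf hW h l i j x, if_neg (Ne.symm hj)]
  have : rf j x i = x i := by unfold rf; rw [Function.update_of_ne (Ne.symm hj)]
  rw [this, one_mul]

omit hq in
theorem Th_bound (hW : Good W) (hH : 0 ≤ H) (h : ℝ) (l : List (Fin d)) (i : Fin d)
    (x : Fin d → ℝ) : |Th W κ q H h l i x| ≤ κ * Real.tan (κ / 2) + H := by
  unfold Th
  have hM := ML_sq_le hW h l i x
  have h1 := Af_bound (q := q) hκ hκπ (x i)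
  refine (abs_add_le _ _).trans (add_le_add ?_ ?_)
  · rw [abs_mul, abs_of_nonneg (et_nonneg _)]
    have h2 := et_le_one hM
    have h3 := et_nonneg (ML W h l i x)
    have h4 := abs_nonneg (Af κ q (x i))
    nlinarith
  · rw [abs_mul, abs_of_nonneg hH]
    have := be_le hM
    nlinarith

theorem D_Th (hW : Good W) (h : ℝ) (l : List (Fin d)) (i j : Fin d) (x : Fin d → ℝ) :
    D (Th W κ q H h l i) j x =
      (if j = i then (κ ^ 2 + Af κ q (x i) ^ 2) * (1 - pf q (x i)) * et (ML W h l i x) else 0) +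
      (Af κ q (x i) * et' (ML W h l i x) + H * be' (ML W h l i x)) * D (ML W h l i) j x := by
  have hM := (cd1 (smooth_ML hW h l i)).differentiable (by norm_num) x
  have h1 : HasFDerivAt (fun x : Fin d → ℝ => Af κ q (x i))
      (((κ ^ 2 + Af κ q (x i) ^ 2) * (1 - pf q (x i))) •
        (ContinuousLinearMap.proj (R := ℝ) (φ := fun _ : Fin d => ℝ) i)) x := by
    have h0 : HasFDerivAt (fun x : Fin d → ℝ => x i)
      (ContinuousLinearMap.proj (R := ℝ) (φ := fun _ : Fin d => ℝ) i) x := hasFDerivAt_apply i x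
    exact HasDerivAt.comp_hasFDerivAt (h₂ := Af κ q) (f := fun x : Fin d → ℝ => x i) x
      (hasDerivAt_Af hκ hκπ.le hq (x i)) h0
  have h2 : HasFDerivAt (fun x : Fin d → ℝ => et (ML W h l i x))
      (et' (ML W h l i x) • fderiv ℝ (ML W h l i) x) x :=
    (hasDerivAt_et _).comp_hasFDerivAt x hM.hasFDerivAt
  have h3 : HasFDerivAt (fun x : Fin d → ℝ => be (ML W h l i x))
      (be' (ML W h l i x) • fderiv ℝ (ML W h l i) x) x :=
    (hasDerivAt_be _).comp_hasFDerivAt x hM.hasFDerivAt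
  have h4 := (h1.mul h2).add (h3.const_mul H)
  have h5 : HasFDerivAt (Th W κ q H h l i) _ x := h4
  unfold D
  rw [h5.fderiv]
  simp only [add_apply, smul_apply, smul_eq_mul, ContinuousLinearMap.proj_apply]
  by_cases hji : j = i
  · subst hji
    simp only [Pi.single_eq_same, if_true]
    ring
  · rw [if_neg hji, Pi.single_eq_of_ne (Ne.symm hji)]
    ring

end

/-! ### the bound near the faces -/

theorem sin_lower (t : ℝ) : 2 * |t - round t| ≤ |Real.sin (Real.pi * t)| := by
  have h1 : |Real.sin (Real.pi * t)| = |Real.sin (Real.pi * (t - round t))| := by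
    have e : Real.pi * t = Real.pi * (t - round t) + (round t : ℤ) * Real.pi := by push_cast; ring
    rw [e, Real.sin_add_int_mul_pi, abs_mul]
    rcases Int.even_or_odd (round t) with h | h
    · rw [Even.neg_one_zpow h, abs_one, one_mul]
    · rw [Odd.neg_one_zpow h, abs_neg, abs_one, one_mul]
  have h2 : |Real.sin (Real.pi * (t - round t))| = Real.sin (Real.pi * |t - round t|) := by
    have h3 := abs_sub_round t
    rcases le_total 0 (t - round t) with h | h
    · rw [abs_of_nonneg h] at h3 ⊢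
      rw [abs_of_nonneg]
      apply Real.sin_nonneg_of_nonneg_of_le_pi
      · have := Real.pi_pos; positivity
      · nlinarith [Real.pi_pos]
    · rw [abs_of_nonpos h] at h3 ⊢
      rw [mul_neg, Real.sin_neg, abs_of_nonpos]
      have : Real.sin (Real.pi * (t - round t)) = - Real.sin (Real.pi * (-(t - round t))) := by
        rw [mul_neg, Real.sin_neg, neg_neg]
      rw [this]
      have : 0 ≤ Real.sin (Real.pi * (-(t - round t))) := by
        apply Real.sin_nonneg_of_nonneg_of_le_pi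
        · apply mul_nonneg Real.pi_pos.le; linarith
        · nlinarith [Real.pi_pos]
      linarith
  rw [h1, h2]
  have h3 := abs_sub_round t
  have h4 := Real.mul_le_sin (x := Real.pi * |t - round t|)
    (mul_nonneg Real.pi_pos.le (abs_nonneg _)) (by nlinarith [Real.pi_pos])
  have h5 : 2 / Real.pi * (Real.pi * |t - round t|) = 2 * |t - round t| := by
    field_simp
  linarith

theorem periodic_odd_int {g : ℝ → ℝ} (ho : ∀ t, g (-t) = - g t) (hp : Function.Periodic g 2)
    (n : ℤ) : g n = 0 := by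
  rcases Int.even_or_odd' n with ⟨k, hk | hk⟩
  · have h0 : g 0 = 0 := by
      have := ho 0
      rw [neg_zero] at this
      linarith
    have h1 := hp.int_mul k 0
    rw [zero_add] at h1
    rw [hk]
    push_cast
    rw [mul_comm, h1, h0]
  · have h0 : g 1 = 0 := by
      have h2 := ho 1
      have h3 := hp (-1)
      rw [show (-1:ℝ) + 2 = 1 by norm_num] at h3
      linarith
    have h1 := hp.int_mul k 1
    rw [hk]
    push_cast
    rw [show (2:ℝ) * k + 1 = 1 + k * 2 by ring, h1, h0]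

theorem ML_sin (hW : Good W) : ∃ C, 0 ≤ C ∧ ∀ (h : ℝ) (l : List (Fin d)) (i : Fin d)
    (x : Fin d → ℝ), |ML W h l i x| ≤ C * |Real.sin (Real.pi * x i)| := by
  obtain ⟨C, hC1, hC⟩ := unif_bounds hW
  obtain ⟨m0, hm0, hm⟩ := mL_lower hW
  refine ⟨C * m0⁻¹, by positivity, fun h l i x => ?_⟩
  -- it is enough to bound the averaged gradient
  set g : ℝ → ℝ := fun t => aL W h l i (Function.update x i t) with hg
  have ho : ∀ t, g (-t) = - g t := by
    intro t
    have := aL_rf hW h l i i (Function.update x i t)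
    rw [if_pos rfl] at this
    simp only [hg]
    have e : rf i (Function.update x i t) = Function.update x i (-t) := by
      unfold rf; simp
    rw [← e, this]
    ring
  have hp : Function.Periodic g 2 := by
    intro t
    show aL W h l i (Function.update x i (t + 2)) = aL W h l i (Function.update x i t)
    rw [← update_add]
    exact Pe_aL hW h l i i _
  have hd : ∀ t, HasDerivAt g (D (aL W h l i) i (Function.update x i t)) t :=
    fun t => hasDerivAt_line (cd1 (smooth_aL hW h l i)) i x t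
  have h1 := Convex.norm_image_sub_le_of_norm_hasDerivWithin_le (s := univ) (f := g)
    (f' := fun t => D (aL W h l i) i (Function.update x i t)) (C := C)
    (x := (round (x i) : ℝ)) (y := x i) (fun u _ => (hd u).hasDerivWithinAt)
    (fun u _ => (hC h l _).2.2.2.2.1 i i) convex_univ (mem_univ _) (mem_univ _)
  rw [periodic_odd_int ho hp (round (x i)), sub_zero] at h1
  have e1 : g (x i) = aL W h l i x := by simp only [hg]; rw [Function.update_eq_self]
  rw [e1, Real.norm_eq_abs, Real.norm_eq_abs] at h1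
  have h2 := sin_lower (x i)
  have h3 : |x i - round (x i)| ≤ |Real.sin (Real.pi * x i)| := by
    linarith [abs_nonneg (x i - round (x i))]
  unfold ML
  rw [abs_mul, abs_of_pos (inv_pos.2 (mL_pos hW h l x))]
  have h4 : (mL W h l x)⁻¹ ≤ m0⁻¹ := inv_anti₀ hm0 (hm h l x)
  calc |aL W h l i x| * (mL W h l x)⁻¹ ≤ (C * |Real.sin (Real.pi * x i)|) * m0⁻¹ := by
        apply mul_le_mul _ h4 (inv_pos.2 (mL_pos hW h l x)).le (by positivity)
        exact h1.trans (mul_le_mul_of_nonneg_left h3 (by linarith))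
    _ = _ := by ring

end Pool.Agent.H62
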