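import Pool.Agent.Helper62K1.Fixed

/-!
# No contact point with a large slope is attained by almost minimisers in a fixed dimension
-/

set_option autoImplicit false

namespace Pool.Agent.H62

open MeasureTheory Set Filter Topology
open scoped ContDiff

variable {d : ℕ}

theorem thmM (TP : TwoPoint) (hd : 0 < d) (l y H K r : ℝ) (hy : 0 < y)
    (hH : 1000 ≤ H) (hK : 0 ≤ K) (hr : 0 < r)
    (A1 : ∀ f : (Fin d → ℝ) → ℝ, ContDiff ℝ 1 f → Ev f → Pe f → (∀ x, 0 < f x ∧ f x < 1) →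
      |av f - l| < r → y + H * (av f - l) - K * (av f - l) ^ 2 ≤ Fn f)
    (A2 : ∀ ε > 0, ∃ W : (Fin d → ℝ) → ℝ, ContDiff ℝ ∞ W ∧ Ev W ∧ Pe W ∧
      (∀ x, 0 < W x ∧ W x < 1) ∧ Fn W ≤ y + ε ∧ |av W - l| ≤ ε ∧
      av (fun x => Iso (W x)) ≤ ε) : False := by
  have hH0 : 0 ≤ H := by linarith
  -- a sequence of almost minimisers
  have hseq : ∀ n : ℕ, ∃ W : (Fin d → ℝ) → ℝ, Good W ∧ Fn W ≤ y + 1 / ((n:ℝ) + 1) ∧
      |av W - l| ≤ 1 / ((n:ℝ) + 1) ∧ av (fun x => Iso (W x)) ≤ 1 / ((n:ℝ) + 1) := by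
    intro n
    obtain ⟨W, h1, h2, h3, h4, h5, h6, h7⟩ := A2 (1 / ((n:ℝ) + 1)) (by positivity)
    exact ⟨W, ⟨h1, h2, h3, h4⟩, h5, h6, h7⟩
  choose W hW hF hv hI using hseq
  have hε : Tendsto (fun n : ℕ => 1 / ((n:ℝ) + 1)) atTop (𝓝 0) :=
    tendsto_one_div_add_atTop_nhds_zero_nat
  have hN : Tendsto (fun n => Fn (W n)) atTop (𝓝 y) := by
    have hlow : ∀ᶠ n : ℕ in atTop, y - H * (1 / ((n:ℝ) + 1)) - K * (1 / ((n:ℝ) + 1)) ^ 2 ≤
        Fn (W n) := by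
      filter_upwards [hε.eventually (gt_mem_nhds hr)] with n hn
      have h1 := A1 (W n) (cd1 (hW n).sm) (hW n).ev (hW n).pe (hW n).z1
        (lt_of_le_of_lt (hv n) hn)
      have h2 := mul_le_mul_of_nonneg_left (abs_le.1 (hv n)).1 hH0
      have h3 : K * (av (W n) - l) ^ 2 ≤ K * (1 / ((n:ℝ) + 1)) ^ 2 := by
        apply mul_le_mul_of_nonneg_left _ hK
        rw [← sq_abs]
        exact pow_le_pow_left₀ (abs_nonneg _) (hv n) 2
      linarith
    have hup : ∀ᶠ n : ℕ in atTop, Fn (W n) ≤ y + 1 / ((n:ℝ) + 1) :=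
      Eventually.of_forall hF
    have t1 : Tendsto (fun n : ℕ => y - H * (1 / ((n:ℝ) + 1)) - K * (1 / ((n:ℝ) + 1)) ^ 2) atTop
        (𝓝 (y - H * 0 - K * 0 ^ 2)) :=
      (tendsto_const_nhds.sub (hε.const_mul H)).sub ((hε.pow 2).const_mul K)
    have t2 : Tendsto (fun n : ℕ => y + 1 / ((n:ℝ) + 1)) atTop (𝓝 (y + 0)) :=
      tendsto_const_nhds.add hε
    rw [show y - H * 0 - K * 0 ^ 2 = y by ring] at t1
    rw [add_zero] at t2
    exact tendsto_of_tendsto_of_tendsto_of_le_of_le' t1 t2 hlow hup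
  have hd' : (0:ℝ) < d := by exact_mod_cast hd
  -- first limit
  have S1 : ∀ κ τ ρ T s : ℝ, 0 < κ → κ < Real.pi → 0 < τ → 0 < ρ → ρ < T → T ≤ 1 → 0 < s →
      s * Bd κ H ρ ≤ 1 / 2 → 3 * s * Bd κ H ρ < r →
      κ ^ 2 * (y - Real.pi ^ 2 * (T * y)) + (1 / d) * (y - 2 * (Real.pi ^ 2 * (T * y))) ≤
      (1 + (32 * (κ * Real.tan (κ / 2)) + H) * τ) * (Real.pi ^ 2 * (T * y) / (T - ρ)) +
      d * ((K * (3 * s * Bd κ H ρ) ^ 2 +
        s ^ 2 * Bd κ H ρ ^ 2 * (4 * H + (5 * d + 4) * y)) / s) +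
      d * ((κ ^ 2 + (κ * Real.tan (κ / 2)) ^ 2) + (32 * (κ * Real.tan (κ / 2)) + H) / (4 * τ)) *
        (Real.pi ^ 2 * (T * y)) := by
    intro κ τ ρ T s hκ hκπ hτ hρ hρT hT hs hsB hr3
    set B := Bd κ H ρ with hB
    set Cν := 32 * (κ * Real.tan (κ / 2)) + H with hCν
    set G0 := κ ^ 2 + (κ * Real.tan (κ / 2)) ^ 2 with hG0
    have hEt : Tendsto (fun n : ℕ => Eb H K (1 / ((n:ℝ) + 1)) T (Fn (W n))) atTop
        (𝓝 (Real.pi ^ 2 * (T * y))) := by
      unfold Eb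
      have t1 := ((hε.const_mul (2 * (1 + H))).add ((hε.pow 2).const_mul (2 * K))).add
        (((hε.const_mul 3).add (hN.const_mul T)).const_mul (Real.pi ^ 2))
      have e : 2 * (1 + H) * 0 + 2 * K * 0 ^ 2 + Real.pi ^ 2 * (3 * 0 + T * y) =
        Real.pi ^ 2 * (T * y) := by ring
      rw [e] at t1
      exact t1
    have hTρ : T - ρ ≠ 0 := by
      have : 0 < T - ρ := by linarith
      exact this.ne'
    have tL : Tendsto (fun n : ℕ => κ ^ 2 * (Fn (W n) - Eb H K (1 / ((n:ℝ) + 1)) T (Fn (W n))) +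
        (1 / d) * (Fn (W n) - 2 * Eb H K (1 / ((n:ℝ) + 1)) T (Fn (W n)))) atTop
        (𝓝 (κ ^ 2 * (y - Real.pi ^ 2 * (T * y)) + (1 / d) * (y - 2 * (Real.pi ^ 2 * (T * y))))) :=
      ((hN.sub hEt).const_mul _).add ((hN.sub (hEt.const_mul 2)).const_mul _)
    have tR : Tendsto (fun n : ℕ => (1 + Cν * τ) *
        (Eb H K (1 / ((n:ℝ) + 1)) T (Fn (W n)) / (T - ρ)) +
        d * (((1 + H) * (1 / ((n:ℝ) + 1)) + K * ((1 / ((n:ℝ) + 1)) + 3 * s * B) ^ 2 +
        s ^ 2 * B ^ 2 * (4 * H + (5 * d + 4) * Fn (W n))) / s) +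
        d * (G0 + Cν / (4 * τ)) * Eb H K (1 / ((n:ℝ) + 1)) T (Fn (W n))) atTop
        (𝓝 ((1 + Cν * τ) * (Real.pi ^ 2 * (T * y) / (T - ρ)) +
        d * (((1 + H) * 0 + K * (0 + 3 * s * B) ^ 2 +
        s ^ 2 * B ^ 2 * (4 * H + (5 * d + 4) * y)) / s) +
        d * (G0 + Cν / (4 * τ)) * (Real.pi ^ 2 * (T * y)))) := by
      apply Tendsto.add
      · apply Tendsto.add
        · exact (hEt.div_const _).const_mul _
        · apply Tendsto.const_mul
          apply Tendsto.div_const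
          exact ((hε.const_mul _).add (((hε.add_const _).pow 2).const_mul K)).add
            (((hN.const_mul _).const_add _).const_mul _)
      · exact hEt.const_mul _
    have hev : ∀ᶠ n : ℕ in atTop, κ ^ 2 * (Fn (W n) - Eb H K (1 / ((n:ℝ) + 1)) T (Fn (W n))) +
        (1 / d) * (Fn (W n) - 2 * Eb H K (1 / ((n:ℝ) + 1)) T (Fn (W n))) ≤
        (1 + Cν * τ) * (Eb H K (1 / ((n:ℝ) + 1)) T (Fn (W n)) / (T - ρ)) +
        d * (((1 + H) * (1 / ((n:ℝ) + 1)) + K * ((1 / ((n:ℝ) + 1)) + 3 * s * B) ^ 2 +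
        s ^ 2 * B ^ 2 * (4 * H + (5 * d + 4) * Fn (W n))) / s) +
        d * (G0 + Cν / (4 * τ)) * Eb H K (1 / ((n:ℝ) + 1)) T (Fn (W n)) := by
      filter_upwards [hε.eventually (gt_mem_nhds (by linarith : 0 < r - 3 * s * B))] with n hn
      exact fixedW TP hd (hW n) l y H K r hH hK A1 _ (hF n) (hv n) (hI n) hκ hκπ hτ hρ hρT hT hs
        hsB (by linarith)
    have hfin := le_of_tendsto_of_tendsto tL tR hev
    have e : (1 + H) * 0 + K * (0 + 3 * s * B) ^ 2 = K * (3 * s * B) ^ 2 := by ring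
    rw [e] at hfin
    exact hfin
  -- second limit
  have S2 : ∀ κ τ ρ T : ℝ, 0 < κ → κ < Real.pi → 0 < τ → 0 < ρ → ρ < T → T ≤ 1 →
      κ ^ 2 * (y - Real.pi ^ 2 * (T * y)) + (1 / d) * (y - 2 * (Real.pi ^ 2 * (T * y))) ≤
      (1 + (32 * (κ * Real.tan (κ / 2)) + H) * τ) * (Real.pi ^ 2 * (T * y) / (T - ρ)) +
      d * ((κ ^ 2 + (κ * Real.tan (κ / 2)) ^ 2) + (32 * (κ * Real.tan (κ / 2)) + H) / (4 * τ)) *
        (Real.pi ^ 2 * (T * y)) := by
    intro κ τ ρ T hκ hκπ hτ hρ hρT hT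
    set B := Bd κ H ρ with hB
    have hB0 : 0 ≤ B := by
      have hA0 := tan_half_nonneg hκ hκπ
      have hρ4 : 0 < √(ρ / 4) := Real.sqrt_pos.2 (by linarith)
      rw [hB]; unfold Bd; positivity
    apply le_of_forall_pos_le_add
    intro δ hδ
    set Z := (d:ℝ) * (9 * K * B ^ 2 + B ^ 2 * (4 * H + (5 * d + 4) * y)) with hZ
    have hZ0 : 0 ≤ Z := by positivity
    set s := min (min (1 / (2 * (B + 1))) (r / (6 * (B + 1)))) (δ / (Z + 1)) with hs
    have hs0 : 0 < s := by positivity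
    have hs1 : s ≤ 1 / (2 * (B + 1)) := (min_le_left _ _).trans (min_le_left _ _)
    have hs2 : s ≤ r / (6 * (B + 1)) := (min_le_left _ _).trans (min_le_right _ _)
    have hs3 : s ≤ δ / (Z + 1) := min_le_right _ _
    have h1 : s * B ≤ 1 / 2 := by
      rw [le_div_iff₀ (by positivity)] at hs1
      nlinarith
    have h2 : 3 * s * B < r := by
      rw [le_div_iff₀ (by positivity)] at hs2
      nlinarith
    have h3 := S1 κ τ ρ T s hκ hκπ hτ hρ hρT hT hs0 h1 h2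
    have h4 : (d:ℝ) * ((K * (3 * s * B) ^ 2 + s ^ 2 * B ^ 2 * (4 * H + (5 * d + 4) * y)) / s) =
        Z * s := by
      rw [hZ]; field_simp; ring
    have h5 : Z * s ≤ δ := by
      rw [le_div_iff₀ (by positivity)] at hs3
      nlinarith
    rw [← hB, h4] at h3
    linarith
  -- third limit
  have S3 : ∀ κ τ : ℝ, 0 < κ → κ < Real.pi → 0 < τ →
      κ ^ 2 * y + (1 / d) * y ≤
        (1 + (32 * (κ * Real.tan (κ / 2)) + H) * τ) * (Real.pi ^ 2 * y) := by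
    intro κ τ hκ hκπ hτ
    set Cν := 32 * (κ * Real.tan (κ / 2)) + H with hCν
    set G0 := κ ^ 2 + (κ * Real.tan (κ / 2)) ^ 2 with hG0
    have tL : Tendsto (fun T : ℝ => κ ^ 2 * (y - Real.pi ^ 2 * (T * y)) +
        (1 / d) * (y - 2 * (Real.pi ^ 2 * (T * y)))) (𝓝[>] 0)
        (𝓝 (κ ^ 2 * y + (1 / d) * y)) := by
      have h1 : ContinuousAt (fun T : ℝ => κ ^ 2 * (y - Real.pi ^ 2 * (T * y)) +
        (1 / d) * (y - 2 * (Real.pi ^ 2 * (T * y)))) 0 := by fun_prop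
      have h2 := h1.tendsto
      simp only [zero_mul, mul_zero, sub_zero] at h2
      exact h2.mono_left nhdsWithin_le_nhds
    have tR : Tendsto (fun T : ℝ => (1 + Cν * τ) * (Real.pi ^ 2 * y / (1 - T)) +
        d * (G0 + Cν / (4 * τ)) * (Real.pi ^ 2 * (T * y))) (𝓝[>] 0)
        (𝓝 ((1 + Cν * τ) * (Real.pi ^ 2 * y))) := by
      have h1 : ContinuousAt (fun T : ℝ => (1 + Cν * τ) * (Real.pi ^ 2 * y / (1 - T)) +
        d * (G0 + Cν / (4 * τ)) * (Real.pi ^ 2 * (T * y))) 0 := by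
        have h3 : ContinuousAt (fun T : ℝ => Real.pi ^ 2 * y / (1 - T)) 0 := by
          apply ContinuousAt.div (by fun_prop) (by fun_prop)
          norm_num
        fun_prop
      have h2 := h1.tendsto
      simp only [zero_mul, mul_zero, sub_zero, add_zero, div_one] at h2
      exact h2.mono_left nhdsWithin_le_nhds
    apply le_of_tendsto_of_tendsto tL tR
    have hev : ∀ᶠ T : ℝ in 𝓝[>] 0, T < 1 := by
      apply eventually_nhdsWithin_of_eventually_nhds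
      exact gt_mem_nhds one_pos
    filter_upwards [hev, self_mem_nhdsWithin] with T h1 h2
    have h2' : 0 < T := h2
    have h3 := S2 κ τ (T ^ 2) T hκ hκπ hτ (by positivity) (by nlinarith) h1.le
    have h4 : Real.pi ^ 2 * (T * y) / (T - T ^ 2) = Real.pi ^ 2 * y / (1 - T) := by
      have : 1 - T ≠ 0 := by
        have : 0 < 1 - T := by linarith
        exact this.ne'
      have e : T - T ^ 2 = T * (1 - T) := by ring
      rw [e]
      field_simp
    rw [h4] at h3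
    exact h3
  -- fourth limit
  have S4 : ∀ κ : ℝ, 0 < κ → κ < Real.pi → κ ^ 2 + 1 / d ≤ Real.pi ^ 2 := by
    intro κ hκ hκπ
    have hA0 := tan_half_nonneg hκ hκπ
    set Cν := 32 * (κ * Real.tan (κ / 2)) + H with hCν
    have hCν0 : 0 ≤ Cν := by positivity
    have h1 : κ ^ 2 * y + (1 / d) * y ≤ Real.pi ^ 2 * y := by
      apply le_of_forall_pos_le_add
      intro δ hδ
      have h2 := S3 κ (δ / (Cν * (Real.pi ^ 2 * y) + 1)) hκ hκπ (by positivity)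
      have h3 : Cν * (δ / (Cν * (Real.pi ^ 2 * y) + 1)) * (Real.pi ^ 2 * y) ≤ δ := by
        have h4 : Cν * (δ / (Cν * (Real.pi ^ 2 * y) + 1)) * (Real.pi ^ 2 * y) =
            (Cν * (Real.pi ^ 2 * y)) * δ / (Cν * (Real.pi ^ 2 * y) + 1) := by ring
        rw [h4, div_le_iff₀ (by positivity)]
        nlinarith
      rw [← hCν] at h2
      linarith
    have h2 : (κ ^ 2 + 1 / d) * y ≤ Real.pi ^ 2 * y := by linarith
    exact le_of_mul_le_mul_right h2 hy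
  -- last limit
  have h5 : Tendsto (fun κ : ℝ => κ ^ 2 + 1 / (d:ℝ)) (𝓝[<] Real.pi)
      (𝓝 (Real.pi ^ 2 + 1 / (d:ℝ))) := by
    have h1 : ContinuousAt (fun κ : ℝ => κ ^ 2 + 1 / (d:ℝ)) Real.pi := by fun_prop
    exact h1.tendsto.mono_left nhdsWithin_le_nhds
  have h6 : Real.pi ^ 2 + 1 / (d:ℝ) ≤ Real.pi ^ 2 := by
    apply le_of_tendsto h5
    have hev : ∀ᶠ κ : ℝ in 𝓝[<] Real.pi, 0 < κ := by
      apply eventually_nhdsWithin_of_eventually_nhds
      exact lt_mem_nhds Real.pi_pos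
    filter_upwards [hev, self_mem_nhdsWithin] with κ h1 h2
    exact S4 κ h1 h2
  have h7 : 0 < 1 / (d:ℝ) := by positivity
  linarith

end Pool.Agent.H62
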