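import Pool.Agent.Helper62K1.Smooth

/-!
# Families of functions with uniformly bounded derivatives
-/

set_option autoImplicit false

namespace Pool.Agent.H62

open MeasureTheory Set Filter Topology
open Pool.Agent.H48R3.CP (D continuous_D)
open scoped ContDiff

variable {d : ℕ} {α β : Type*}

/-- all derivatives up to order `n` are bounded uniformly over the family -/
def UB {d : ℕ} {α : Type*} : ℕ → (α → (Fin d → ℝ) → ℝ) → Prop
  | 0, g => ∃ C, ∀ a x, |g a x| ≤ C
  | n + 1, g => (∃ C, ∀ a x, |g a x| ≤ C) ∧ ∀ i, UB n (fun a => D (g a) i)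

/-- every member of the family is smooth -/
def Sm {d : ℕ} {α : Type*} (g : α → (Fin d → ℝ) → ℝ) : Prop := ∀ a, ContDiff ℝ ∞ (g a)

theorem UB.bdd {n : ℕ} {g : α → (Fin d → ℝ) → ℝ} (hg : UB n g) :
    ∃ C, 0 ≤ C ∧ ∀ a x, |g a x| ≤ C := by
  have : ∃ C, ∀ a x, |g a x| ≤ C := by
    cases n with
    | zero => exact hg
    | succ n => exact hg.1
  obtain ⟨C, hC⟩ := this
  exact ⟨max C 0, le_max_right _ _, fun a x => (hC a x).trans (le_max_left _ _)⟩

theorem UB.down {n : ℕ} {g : α → (Fin d → ℝ) → ℝ} (hg : UB (n + 1) g) : UB n g := by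
  induction n generalizing g with
  | zero => exact hg.1
  | succ n ih => exact ⟨hg.1, fun i => ih (hg.2 i)⟩

theorem UB.reindex {n : ℕ} {g : α → (Fin d → ℝ) → ℝ} (hg : UB n g) (f : β → α) :
    UB n (fun b => g (f b)) := by
  induction n generalizing g with
  | zero =>
    obtain ⟨C, hC⟩ := hg
    exact ⟨C, fun b x => hC (f b) x⟩
  | succ n ih =>
    obtain ⟨C, hC⟩ := hg.1
    exact ⟨⟨C, fun b x => hC (f b) x⟩, fun i => ih (hg.2 i)⟩

theorem Sm.D {g : α → (Fin d → ℝ) → ℝ} (hg : Sm g) (i : Fin d) : Sm (fun a => D (g a) i) :=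
  fun a => contDiff_D (hg a) i

theorem UB.add {n : ℕ} {u v : α → (Fin d → ℝ) → ℝ} (hu : UB n u) (hv : UB n v) (su : Sm u)
    (sv : Sm v) : UB n (fun a x => u a x + v a x) := by
  induction n generalizing u v with
  | zero =>
    obtain ⟨C, hC⟩ := hu
    obtain ⟨C', hC'⟩ := hv
    exact ⟨C + C', fun a x => (abs_add_le _ _).trans (add_le_add (hC a x) (hC' a x))⟩
  | succ n ih =>
    obtain ⟨C, hC⟩ := hu.1
    obtain ⟨C', hC'⟩ := hv.1
    refine ⟨⟨C + C', fun a x => (abs_add_le _ _).trans (add_le_add (hC a x) (hC' a x))⟩,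
      fun i => ?_⟩
    have h1 := ih (hu.2 i) (hv.2 i) (su.D i) (sv.D i)
    have h2 : (fun a => _root_.Pool.Agent.H48R3.CP.D (fun x => u a x + v a x) i) =
        fun a x => _root_.Pool.Agent.H48R3.CP.D (u a) i x +
          _root_.Pool.Agent.H48R3.CP.D (v a) i x := by
      funext a
      exact D_add (cd1 (su a)) (cd1 (sv a)) i
    rw [h2]
    exact h1

theorem UB.mul {n : ℕ} {u v : α → (Fin d → ℝ) → ℝ} (hu : UB n u) (hv : UB n v) (su : Sm u)
    (sv : Sm v) : UB n (fun a x => u a x * v a x) := by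
  induction n generalizing u v with
  | zero =>
    obtain ⟨C, hC0, hC⟩ := UB.bdd (n := 0) hu
    obtain ⟨C', hC'0, hC'⟩ := UB.bdd (n := 0) hv
    exact ⟨C * C', fun a x => by rw [abs_mul]; exact mul_le_mul (hC a x) (hC' a x) (abs_nonneg _) hC0⟩
  | succ n ih =>
    obtain ⟨C, hC0, hC⟩ := hu.bdd
    obtain ⟨C', hC'0, hC'⟩ := hv.bdd
    refine ⟨⟨C * C', fun a x => by
      rw [abs_mul]; exact mul_le_mul (hC a x) (hC' a x) (abs_nonneg _) hC0⟩, fun i => ?_⟩
    have h1 := ih (hu.2 i) hv.down (su.D i) sv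
    have h1' := ih hu.down (hv.2 i) su (sv.D i)
    have h2 : (fun a => _root_.Pool.Agent.H48R3.CP.D (fun x => u a x * v a x) i) =
        fun a x => _root_.Pool.Agent.H48R3.CP.D (u a) i x * v a x +
          u a x * _root_.Pool.Agent.H48R3.CP.D (v a) i x := by
      funext a
      exact D_mul (cd1 (su a)) (cd1 (sv a)) i
    rw [h2]
    exact UB.add h1 h1' (fun a => (su.D i a).mul (sv a)) (fun a => (su a).mul (sv.D i a))

theorem UB.const (n : ℕ) (c : ℝ) : UB n (fun (_ : α) (_ : Fin d → ℝ) => c) := by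
  induction n generalizing c with
  | zero => exact ⟨|c|, fun _ _ => le_rfl⟩
  | succ n ih =>
    refine ⟨⟨|c|, fun _ _ => le_rfl⟩, fun i => ?_⟩
    have : (fun _ : α => _root_.Pool.Agent.H48R3.CP.D (fun _ : Fin d → ℝ => c) i) =
        fun _ _ => (0:ℝ) := by
      funext a x
      unfold _root_.Pool.Agent.H48R3.CP.D
      simp
    rw [this]
    exact ih 0

theorem Sm.const (c : ℝ) : Sm (fun (_ : α) (_ : Fin d → ℝ) => c) := fun _ => contDiff_const

theorem Sm.add {u v : α → (Fin d → ℝ) → ℝ} (su : Sm u) (sv : Sm v) :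
    Sm (fun a x => u a x + v a x) := fun a => (su a).add (sv a)

theorem Sm.mul {u v : α → (Fin d → ℝ) → ℝ} (su : Sm u) (sv : Sm v) :
    Sm (fun a x => u a x * v a x) := fun a => (su a).mul (sv a)

theorem UB.smul {n : ℕ} {u : α → (Fin d → ℝ) → ℝ} (hu : UB n u) (su : Sm u) (c : ℝ) :
    UB n (fun a x => c * u a x) := UB.mul (UB.const n c) hu (Sm.const c) su

theorem Sm.inv {u : α → (Fin d → ℝ) → ℝ} (su : Sm u) (h : ∀ a x, u a x ≠ 0) :
    Sm (fun a x => (u a x)⁻¹) := fun a => (su a).inv (h a)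

theorem D_inv {u : (Fin d → ℝ) → ℝ} (hu : ContDiff ℝ 1 u) (h0 : ∀ x, u x ≠ 0) (i : Fin d) :
    D (fun x => (u x)⁻¹) i = fun x => (-1) * (D u i x * ((u x)⁻¹ * (u x)⁻¹)) := by
  funext x
  unfold D
  have h1 : HasFDerivAt (fun x => (u x)⁻¹) (-(u x ^ 2)⁻¹ • fderiv ℝ u x) x := by
    have h2 := (hu.differentiable (by norm_num) x).hasFDerivAt
    exact (hasDerivAt_inv (h0 x)).comp_hasFDerivAt x h2
  rw [h1.fderiv]
  simp only [smul_apply, smul_eq_mul]
  rw [sq, mul_inv]
  ring

theorem UB.inv {n : ℕ} {u : α → (Fin d → ℝ) → ℝ} (hu : UB n u) (su : Sm u) (c : ℝ) (hc : 0 < c)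
    (h : ∀ a x, c ≤ u a x) : UB n (fun a x => (u a x)⁻¹) := by
  have hne : ∀ a x, u a x ≠ 0 := fun a x => (hc.trans_le (h a x)).ne'
  have hb : ∀ a x, |(u a x)⁻¹| ≤ c⁻¹ := fun a x => by
    rw [abs_inv, abs_of_pos (hc.trans_le (h a x))]
    exact inv_anti₀ hc (h a x)
  induction n with
  | zero => exact ⟨c⁻¹, hb⟩
  | succ n ih =>
    refine ⟨⟨c⁻¹, hb⟩, fun i => ?_⟩
    have h1 := ih hu.down
    have si := su.inv hne
    have h2 : (fun a => _root_.Pool.Agent.H48R3.CP.D (fun x => (u a x)⁻¹) i) = fun a x =>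
        (-1) * (_root_.Pool.Agent.H48R3.CP.D (u a) i x * ((u a x)⁻¹ * (u a x)⁻¹)) := by
      funext a
      exact D_inv (cd1 (su a)) (hne a) i
    rw [h2]
    exact UB.smul (UB.mul (hu.2 i) (UB.mul h1 h1 si si) (su.D i) (si.mul si))
      ((su.D i).mul (si.mul si)) (-1)

theorem UB.op {n : ℕ} {u : α → (Fin d → ℝ) → ℝ} (hu : UB n u) (su : Sm u) (h : β → ℝ)
    (l : β → List (Fin d)) (a : β → α) : UB n (fun b => op (h b) (l b) (u (a b))) := by
  induction n generalizing u with
  | zero =>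
    obtain ⟨C, hC⟩ := hu
    exact ⟨C, fun b x => abs_op_le_const _ _ (hC (a b)) x⟩
  | succ n ih =>
    obtain ⟨C, hC⟩ := hu.1
    refine ⟨⟨C, fun b x => abs_op_le_const _ _ (hC (a b)) x⟩, fun i => ?_⟩
    have h1 := ih (hu.2 i) (su.D i)
    have h2 : (fun b => _root_.Pool.Agent.H48R3.CP.D
        (_root_.Pool.Agent.H62.op (h b) (l b) (u (a b))) i) =
        fun b => _root_.Pool.Agent.H62.op (h b) (l b)
          (_root_.Pool.Agent.H48R3.CP.D (u (a b)) i) := by
      funext b
      exact D_op _ _ (cd1 (su (a b))) i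
    rw [h2]
    exact h1

theorem Sm.op {u : α → (Fin d → ℝ) → ℝ} (su : Sm u) (h : β → ℝ)
    (l : β → List (Fin d)) (a : β → α) : Sm (fun b => op (h b) (l b) (u (a b))) :=
  fun b => contDiff_op (n := ⊤) (h b) (l b) (su (a b))

theorem Pe_bdd {g : (Fin d → ℝ) → ℝ} (hg : Continuous g) (hp : Pe g) :
    ∃ C, 0 ≤ C ∧ ∀ x, |g x| ≤ C := by
  have hc : IsCompact (Icc (fun _ : Fin d => (0:ℝ)) (fun _ => 2)) := isCompact_Icc
  obtain ⟨C, hC⟩ := hc.exists_bound_of_continuousOn hg.continuousOn
  have key : ∀ s : Finset (Fin d), ∀ x : Fin d → ℝ, ∃ y : Fin d → ℝ,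
      (∀ i ∈ s, y i ∈ Icc (0:ℝ) 2) ∧ g x = g y := by
    intro s
    induction s using Finset.induction_on with
    | empty => intro x; exact ⟨x, by simp, rfl⟩
    | insert i s _ ih =>
      intro x
      obtain ⟨y, hy, hxy⟩ := ih x
      have hper : Function.Periodic (fun t => g (Function.update y i t)) 2 := by
        intro t
        show g (Function.update y i (t + 2)) = g (Function.update y i t)
        rw [← update_add]
        exact hp i _
      obtain ⟨t, ht, hgt⟩ := hper.exists_mem_Ico₀ (by norm_num) (y i)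
      refine ⟨Function.update y i t, ?_, ?_⟩
      · intro j hj
        by_cases hji : j = i
        · subst hji; simp; exact ⟨ht.1, ht.2.le⟩
        · rw [Function.update_of_ne hji]
          exact hy j (Finset.mem_of_mem_insert_of_ne hj hji)
      · rw [hxy]
        simpa using hgt
  refine ⟨max C 0, le_max_right _ _, fun x => ?_⟩
  obtain ⟨y, hy, hxy⟩ := key Finset.univ x
  rw [hxy]
  exact (hC y ⟨fun i => (hy i (Finset.mem_univ i)).1, fun i => (hy i (Finset.mem_univ i)).2⟩).trans
    (le_max_left _ _)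

theorem UB.single (n : ℕ) {g : (Fin d → ℝ) → ℝ} (hg : ContDiff ℝ ∞ g) (hp : Pe g) :
    UB n (fun _ : α => g) := by
  induction n generalizing g with
  | zero =>
    obtain ⟨C, _, hC⟩ := Pe_bdd hg.continuous hp
    exact ⟨C, fun _ x => hC x⟩
  | succ n ih =>
    obtain ⟨C, _, hC⟩ := Pe_bdd hg.continuous hp
    exact ⟨⟨C, fun _ x => hC x⟩, fun i => ih (contDiff_D hg i) (Pe_D hp i)⟩

/-- a single averaging step changes a function by second order terms -/
theorem P_sub_le (h : ℝ) (i : Fin d) {g : (Fin d → ℝ) → ℝ} (hg : ContDiff ℝ ∞ g)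
    (C : ℝ) (hC : ∀ x, |D (D g i) i x| ≤ C) (x : Fin d → ℝ) : |P h i g x - g x| ≤ h ^ 2 * C := by
  have hg1 : ContDiff ℝ 1 g := cd1 hg
  have hDg : ContDiff ℝ 1 (D g i) := cd1 (contDiff_D hg i)
  have hl : ∀ t, HasDerivAt (fun t => g (Function.update x i t)) (D g i (Function.update x i t)) t :=
    fun t => hasDerivAt_line hg1 i x t
  have hl2 : ∀ t, HasDerivAt (fun t => D g i (Function.update x i t))
      (D (D g i) i (Function.update x i t)) t := fun t => hasDerivAt_line hDg i x t
  have hC0 : 0 ≤ C := (abs_nonneg _).trans (hC x)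
  -- Taylor bound
  have hT : ∀ s : ℝ, |g (Function.update x i (x i + s)) - g x - s * D g i x| ≤ s ^ 2 * C := by
    intro s
    have h1 := Convex.norm_image_sub_le_of_norm_hasDerivWithin_le
      (s := Icc (x i - |s|) (x i + |s|))
      (f := fun t => g (Function.update x i t) - (t - x i) * D g i x)
      (f' := fun t => D g i (Function.update x i t) - D g i x) (C := C * |s|) (x := x i)
      (y := x i + s)
      (fun u _ => by
        have h2 : HasDerivAt (fun t : ℝ => (t - x i) * D g i x) (D g i x) u := by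
          simpa using ((hasDerivAt_id u).sub_const (x i)).mul_const (D g i x)
        exact ((hl u).sub h2).hasDerivWithinAt)
      (fun u hu => by
        have h3 := Convex.norm_image_sub_le_of_norm_hasDerivWithin_le (s := univ)
          (f := fun t => D g i (Function.update x i t))
          (f' := fun t => D (D g i) i (Function.update x i t)) (C := C) (x := x i) (y := u)
          (fun u _ => (hl2 u).hasDerivWithinAt) (fun u _ => hC _) convex_univ (mem_univ _)
          (mem_univ _)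
        simp only [Function.update_eq_self] at h3
        refine h3.trans (mul_le_mul_of_nonneg_left ?_ hC0)
        rw [Real.norm_eq_abs, abs_le]
        constructor <;> linarith [hu.1, hu.2])
      (convex_Icc _ _)
      ⟨by linarith [abs_nonneg s], by linarith [abs_nonneg s]⟩
      ⟨by linarith [neg_abs_le s], by linarith [le_abs_self s]⟩
    simp only [Function.update_eq_self, sub_self, zero_mul, sub_zero, add_sub_cancel_left,
      Real.norm_eq_abs] at h1
    have e : C * |s| * |s| = s ^ 2 * C := by rw [mul_assoc, ← sq, sq_abs]; ring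
    rw [e] at h1
    rwa [show g (Function.update x i (x i + s)) - g x - s * D g i x =
      g (Function.update x i (x i + s)) - s * D g i x - g x by ring]
  have h1 := hT h
  have h2 := hT (-h)
  unfold P
  have e2 : x - Pi.single i h = Function.update x i (x i + -h) := by
    rw [sub_eq_add_neg, ← Pi.single_neg, add_single_eq]
  rw [e2, add_single_eq]
  rw [abs_le] at h1 h2 ⊢
  constructor <;> nlinarith [h1.1, h1.2, h2.1, h2.2]

end Pool.Agent.H62
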