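import Pool.Agent.Helper62K1.Main

/-!
# Bounds of the averaged test field
-/

set_option autoImplicit false

namespace Pool.Agent.H62

open MeasureTheory Set Filter Topology
open Pool.Agent.H48R3.CP (D continuous_D)
open scoped ContDiff

variable {d : ℕ} {W : (Fin d → ℝ) → ℝ}

attribute [local irreducible] Af pf th

theorem UB_et {α : Type*} {n : ℕ} {M : α → (Fin d → ℝ) → ℝ} (hM : UB n M) (sM : Sm M) :
    UB n (fun a x => et (M a x)) ∧ Sm (fun a x => et (M a x)) := by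
  have h1 := UB.mul hM hM sM sM
  have s1 := Sm.mul sM sM
  have h2 := UB.add (UB.const (d := d) (α := α) n 1) (UB.smul h1 s1 (-1)) (Sm.const 1)
    (Sm.mul (Sm.const (-1)) s1)
  have s2 := Sm.add (Sm.const (d := d) (α := α) 1) (Sm.mul (Sm.const (-1)) s1)
  have h3 := UB.add (UB.const (d := d) (α := α) n 1) (UB.smul h1 s1 (-(7/5))) (Sm.const 1)
    (Sm.mul (Sm.const (-(7/5))) s1)
  have s3 := Sm.add (Sm.const (d := d) (α := α) 1) (Sm.mul (Sm.const (-(7/5))) s1)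
  have h4 := UB.mul (UB.mul hM h2 sM s2) h3 (Sm.mul sM s2) s3
  have s4 := Sm.mul (Sm.mul sM s2) s3
  have h5 := UB.mul h4 h4 s4 s4
  have s5 := Sm.mul s4 s4
  have e : (fun (a : α) (x : Fin d → ℝ) => et (M a x)) = fun a x =>
      (M a x * (1 + (-1) * (M a x * M a x)) * (1 + (-(7/5)) * (M a x * M a x))) *
      (M a x * (1 + (-1) * (M a x * M a x)) * (1 + (-(7/5)) * (M a x * M a x))) := by
    funext a x
    unfold et
    ring
  rw [e]
  exact ⟨h5, s5⟩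

theorem UB_be {α : Type*} {n : ℕ} {M : α → (Fin d → ℝ) → ℝ} (hM : UB n M) (sM : Sm M) :
    UB n (fun a x => be (M a x)) ∧ Sm (fun a x => be (M a x)) := by
  have h1 := UB.mul hM hM sM sM
  have s1 := Sm.mul sM sM
  have h2 := UB.mul hM h1 sM s1
  have s2 := Sm.mul sM s1
  have h3 := UB.mul h1 h1 s1 s1
  have s3 := Sm.mul s1 s1
  have h4 := UB.add (UB.add (UB.const (d := d) (α := α) n (1/3)) (UB.smul h1 s1 (-(4/5)))
    (Sm.const (1/3)) (Sm.mul (Sm.const (-(4/5))) s1)) (UB.smul h3 s3 (4/7))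
    (Sm.add (Sm.const (1/3)) (Sm.mul (Sm.const (-(4/5))) s1)) (Sm.mul (Sm.const (4/7)) s3)
  have s4 := Sm.add (Sm.add (Sm.const (d := d) (α := α) (1/3)) (Sm.mul (Sm.const (-(4/5))) s1))
    (Sm.mul (Sm.const (4/7)) s3)
  have h5 := UB.mul h2 h4 s2 s4
  have s5 := Sm.mul s2 s4
  have e : (fun (a : α) (x : Fin d → ℝ) => be (M a x)) = fun a x =>
      (M a x * (M a x * M a x)) * ((1/3 + (-(4/5)) * (M a x * M a x)) +
        (4/7) * ((M a x * M a x) * (M a x * M a x))) := by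
    funext a x
    unfold be
    ring
  rw [e]
  exact ⟨h5, s5⟩

theorem UB_ML (hW : Good W) (n : ℕ) (i : Fin d) :
    UB n (fun (p : ℝ × List (Fin d)) => ML W p.1 p.2 i) := by
  obtain ⟨m0, hm0, hm⟩ := mL_lower hW
  have hws := contDiff_wf hW.sm hW.z1
  have h1 : UB n (fun (p : ℝ × List (Fin d)) => mL W p.1 p.2) :=
    UB.op (UB.single (α := Unit) n hws (Pe_wf hW.pe)) (fun _ => hws)
      (fun p : ℝ × List (Fin d) => p.1) (fun p => p.2) (fun _ => ())
  have h2 : UB n (fun (p : ℝ × List (Fin d)) => aL W p.1 p.2 i) :=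
    UB.op (UB.single (α := Unit) n (contDiff_D hW.sm i) (Pe_D hW.pe i))
      (fun _ => contDiff_D hW.sm i) (fun p : ℝ × List (Fin d) => p.1) (fun p => p.2)
      (fun _ => ())
  have s1 : Sm (fun (p : ℝ × List (Fin d)) => mL W p.1 p.2) := fun p => smooth_mL hW p.1 p.2
  have s2 : Sm (fun (p : ℝ × List (Fin d)) => aL W p.1 p.2 i) := fun p => smooth_aL hW p.1 p.2 i
  have h3 := UB.inv h1 s1 m0 hm0 (fun p x => hm p.1 p.2 x)
  exact UB.mul h2 h3 s2 (s1.inv fun p x => (mL_pos hW p.1 p.2 x).ne')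

theorem UB_Th (hW : Good W) {κ q : ℝ} (H : ℝ) (hκ : 0 < κ) (hκπ : κ < Real.pi) (hq : 0 < q) (n : ℕ)
    (i : Fin d) : UB n (fun (p : ℝ × List (Fin d)) => Th W κ q H p.1 p.2 i) := by
  have h1 := UB_ML hW n i
  have s1 : Sm (fun (p : ℝ × List (Fin d)) => ML W p.1 p.2 i) := fun p => smooth_ML hW p.1 p.2 i
  obtain ⟨h2, s2⟩ := UB_et h1 s1
  obtain ⟨h3, s3⟩ := UB_be h1 s1
  have h4 : UB n (fun (_ : ℝ × List (Fin d)) (x : Fin d → ℝ) => Af κ q (x i)) :=
    UB.single n (smooth_Afi hκ hκπ hq i) (Pe_Afi i)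
  have s4 : Sm (fun (_ : ℝ × List (Fin d)) (x : Fin d → ℝ) => Af κ q (x i)) :=
    fun _ => smooth_Afi hκ hκπ hq i
  exact UB.add (UB.mul h4 h2 s4 s2) (UB.smul h3 s3 H) (Sm.mul s4 s2) (Sm.mul (Sm.const H) s3)

theorem X_bounds (hW : Good W) {κ q H : ℝ} (hκ : 0 < κ) (hκπ : κ < Real.pi) (hq : 0 < q)
    (hH : 0 ≤ H) (ρ : ℝ) (hρ : 0 < ρ) :
    ∃ C, 0 ≤ C ∧ ∀ h : ℝ, 0 < h → h ^ 2 ≤ ρ / 2 → ∀ k : ℕ, ρ ≤ k * h ^ 2 → ∀ i : Fin d,
      (∀ x, |op h (rounds d k) (Th W κ q H h (rounds d k) i) x| ≤ κ * Real.tan (κ / 2) + H) ∧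
      (∀ j x, |D (op h (rounds d k) (Th W κ q H h (rounds d k) i)) j x| ≤
        (κ * Real.tan (κ / 2) + H) / √(ρ / 4) + h * C) ∧
      (∀ j x, |D (D (op h (rounds d k) (Th W κ q H h (rounds d k) i)) j) i x| ≤
        ((κ * Real.tan (κ / 2) + H) / √(ρ / 4) + h * C) / √(ρ / 4) + h * C) := by
  have hU := fun i => UB_Th (d := d) hW H hκ hκπ hq 3 i
  have h2' := fun i j => ((hU i).2 j).2 j |>.bdd
  have h3' := fun i j => (((hU i).2 j).2 i).2 i |>.bdd
  choose C2 h20 hC2 using h2'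
  choose C3 h30 hC3 using h3'
  have p2 : 0 ≤ ∑ i, ∑ j, C2 i j := Finset.sum_nonneg fun i _ => Finset.sum_nonneg fun j _ => h20 i j
  have p3 : 0 ≤ ∑ i, ∑ j, C3 i j := Finset.sum_nonneg fun i _ => Finset.sum_nonneg fun j _ => h30 i j
  have q2 : ∀ i j, C2 i j ≤ ∑ i, ∑ j, C2 i j := fun i j =>
    (Finset.single_le_sum (f := fun j => C2 i j) (fun j _ => h20 i j) (Finset.mem_univ j)).trans
    (Finset.single_le_sum (f := fun i => ∑ j, C2 i j)
      (fun i _ => Finset.sum_nonneg fun j _ => h20 i j) (Finset.mem_univ i))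
  have q3 : ∀ i j, C3 i j ≤ ∑ i, ∑ j, C3 i j := fun i j =>
    (Finset.single_le_sum (f := fun j => C3 i j) (fun j _ => h30 i j) (Finset.mem_univ j)).trans
    (Finset.single_le_sum (f := fun i => ∑ j, C3 i j)
      (fun i _ => Finset.sum_nonneg fun j _ => h30 i j) (Finset.mem_univ i))
  set C := (∑ i, ∑ j, C2 i j) + ∑ i, ∑ j, C3 i j with hC
  refine ⟨C, by linarith, fun h hh hh2 k hk i => ?_⟩
  set B0 := κ * Real.tan (κ / 2) + H with hB0
  set Θ := Th W κ q H h (rounds d k) i with hΘ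
  have hΘs : ContDiff ℝ ∞ Θ := smooth_Th hκ hκπ hq hW h (rounds d k) i
  have hΘb : ∀ x, |Θ x| ≤ B0 := Th_bound hκ hκπ hW hH h (rounds d k) i
  have hΘ2 : ∀ j x, |D (D Θ j) j x| ≤ C := fun j x =>
    (hC2 i j (h, rounds d k) x).trans (by linarith [q2 i j])
  have hΘ3 : ∀ j x, |D (D (D Θ j) i) i x| ≤ C := fun j x =>
    (hC3 i j (h, rounds d k) x).trans (by linarith [q3 i j])
  have hρ4 : 0 < ρ / 4 := by linarith
  refine ⟨fun x => abs_op_le_const h _ hΘb x, fun j x => ?_, fun j x => ?_⟩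
  · apply grad_bound h hh j (rounds d k) hΘs B0 C hΘb (hΘ2 j) (ρ / 4) hρ4
    rw [count_rounds]
    linarith
  · -- split the time
    set k1 := k / 2 with hk1
    set k2 := k - k1 with hk2
    have hkk : k = k1 + k2 := by omega
    have hk1r : (k:ℝ) - 1 ≤ 2 * k1 := by
      have : k ≤ 2 * k1 + 1 := by omega
      have : (k:ℝ) ≤ 2 * k1 + 1 := by exact_mod_cast this
      linarith
    have hk2r : (k:ℝ) ≤ 2 * k2 := by
      have : k ≤ 2 * k2 := by omega
      exact_mod_cast this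
    have hh0 : 0 < h ^ 2 := by positivity
    have t1 : ρ / 4 ≤ k1 * h ^ 2 := by nlinarith
    have t2 : ρ / 4 ≤ k2 * h ^ 2 := by nlinarith
    set Y := op h (rounds d k2) Θ with hY
    have hYs : ContDiff ℝ ∞ Y := contDiff_op (n := ⊤) h _ hΘs
    have e1 : op h (rounds d k) Θ = op h (rounds d k1) Y := by
      rw [hY, ← op_append, ← rounds_add, ← hkk]
    rw [e1, D_op h (rounds d k1) (cd1 hYs) j]
    have hYb : ∀ x, |D Y j x| ≤ B0 / √(ρ / 4) + h * C := by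
      intro x
      apply grad_bound h hh j (rounds d k2) hΘs B0 C hΘb (hΘ2 j) (ρ / 4) hρ4
      rw [count_rounds]
      exact t2
    have hY3 : ∀ x, |D (D (D Y j) i) i x| ≤ C := by
      intro x
      rw [hY, D_op h _ (cd1 hΘs) j, D_op h _ (cd1 (contDiff_D hΘs j)) i,
        D_op h _ (cd1 (contDiff_D (contDiff_D hΘs j) i)) i]
      exact abs_op_le_const h _ (hΘ3 j) x
    apply grad_bound h hh i (rounds d k1) (contDiff_D hYs j) _ C hYb hY3 (ρ / 4) hρ4
    rw [count_rounds]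
    exact t1

end Pool.Agent.H62
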